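import Pool.Agent.U774.WT.RootS

/-!
# Roots of unity and a simple root modulo 3 (MP_e32a7e_nt)
-/

set_option autoImplicit false

namespace Pool.Agent.U774.WT

open Polynomial Pool.Agent.R80.WF

theorem one_of_pow (n : ℕ) : 1 ≤ n → ∀ c : ℤ_[3], (1 + 3 * c) ^ n = 1 → 1 + 3 * c = 1 := by
  induction n using Nat.strong_induction_on with
  | _ n ih =>
    intro hn c hc
    by_contra hne
    have hne' : (1 + 3 * c) - 1 ≠ 0 := sub_ne_zero.2 hne
    have h3 : (PadicInt.toZMod (p := 3)) (3 : ℤ_[3]) = 0 := by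
      rw [map_ofNat]
      decide
    by_cases hd : 3 ∣ n
    · obtain ⟨m, rfl⟩ := hd
      -- `v ^ m` is a cube root of unity
      have hw : ∃ d : ℤ_[3], (1 + 3 * c) ^ m = 1 + 3 * d := by
        have : ∀ k : ℕ, ∃ d : ℤ_[3], (1 + 3 * c) ^ k = 1 + 3 * d := by
          intro k
          induction k with
          | zero => exact ⟨0, by simp⟩
          | succ k ihk =>
            obtain ⟨d, hd⟩ := ihk
            exact ⟨d + c + 3 * d * c, by rw [pow_succ, hd]; ring⟩
        exact this m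
      obtain ⟨d, hd⟩ := hw
      have h4 : (1 + 3 * d) ^ 3 = 1 := by rw [← hd, ← pow_mul, mul_comm m 3, hc]
      have h5 : (9 * d) * (1 + 3 * d + 3 * d ^ 2) = 0 := by linear_combination h4
      have h6 : (1 + 3 * d + 3 * d ^ 2) ≠ 0 := by
        intro h
        have h7 := congrArg (PadicInt.toZMod (p := 3)) h
        simp only [map_add, map_mul, map_pow, h3, map_one, map_zero, zero_mul, add_zero] at h7
        exact one_ne_zero h7
      have h8 : d = 0 := by
        rcases mul_eq_zero.1 h5 with h | h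
        · rcases mul_eq_zero.1 h with h9 | h9
          · exact absurd h9 (by norm_num)
          · exact h9
        · exact absurd h h6
      rw [h8, mul_zero, add_zero] at hd
      exact hne (ih m (by omega) (by omega) c hd)
    · have h4 := geom_sum_mul (1 + 3 * c) n
      rw [hc, sub_self] at h4
      rcases mul_eq_zero.1 h4 with h5 | h5
      · have h6 := congrArg (PadicInt.toZMod (p := 3)) h5
        simp only [map_sum, map_pow, map_add, map_one, map_mul, h3, zero_mul, add_zero, one_pow,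
          map_zero] at h6
        simp only [Finset.sum_const, Finset.card_range, nsmul_eq_mul, mul_one] at h6
        exact hd ((ZMod.natCast_eq_zero_iff n 3).1 h6)
      · exact hne' h5

theorem padic_unit (u : ℤ_[3]) (n : ℕ) (hn : 1 ≤ n) (hu : u ^ n = 1) : u ^ 2 = 1 := by
  have h1 : (PadicInt.toZMod u) ^ n = (1 : ZMod 3) := by rw [← map_pow, hu, map_one]
  have h2 : PadicInt.toZMod u ≠ (0 : ZMod 3) := by
    intro h
    rw [h, zero_pow (by omega)] at h1
    exact zero_ne_one h1
  have h3 : ∀ z : ZMod 3, z ≠ 0 → z ^ 2 = 1 := by decide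
  have h4 : PadicInt.toZMod (u ^ 2 - 1) = (0 : ZMod 3) := by
    rw [map_sub, map_pow, h3 _ h2, map_one, sub_self]
  have h5 : u ^ 2 - 1 ∈ RingHom.ker (PadicInt.toZMod (p := 3)) := h4
  rw [PadicInt.ker_toZMod, PadicInt.maximalIdeal_eq_span_p, Ideal.mem_span_singleton] at h5
  obtain ⟨c, hc⟩ := h5
  have h6 : u ^ 2 = 1 + 3 * c := by
    have : ((3 : ℕ) : ℤ_[3]) = 3 := by norm_num
    rw [this] at hc
    linear_combination hc
  rw [h6]
  apply one_of_pow n hn
  rw [← h6, ← pow_mul, mul_comm, pow_mul, hu, one_pow]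

/-- the roots of unity in the field generated by a root -/
theorem unit_of_simple {P : ℤ[X]} (hPm : P.Monic) (hirr : Irreducible (P.map (Int.castRingHom ℚ)))
    (h1 : (3 : ℤ) ∣ P.eval 1) (h2 : ¬ (3 : ℤ) ∣ P.derivative.eval 1) {x : ℂ} (hx : aeval x P = 0)
    {η : ℂ} (hη : η ∈ IntermediateField.adjoin ℚ {x}) {n : ℕ} (hn : 1 ≤ n) (hηn : η ^ n = 1) :
    η ^ 2 = 1 := by
  have hone : ∀ Q : ℤ[X], Q.aeval (1 : ℤ_[3]) = ((Q.eval 1 : ℤ) : ℤ_[3]) := by
    intro Q
    have := aeval_algebraMap_apply ℤ_[3] (1 : ℤ) Q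
    rw [map_one] at this
    rw [this]
    simp [aeval_def]
  have hnorm : ‖P.aeval (1 : ℤ_[3])‖ < ‖P.derivative.aeval (1 : ℤ_[3])‖ ^ 2 := by
    rw [hone, hone]
    have h3 : ‖((P.eval 1 : ℤ) : ℤ_[3])‖ < 1 := (PadicInt.norm_int_lt_one_iff_dvd _).2 h1
    have h4 : ‖((P.derivative.eval 1 : ℤ) : ℤ_[3])‖ = 1 := by
      have h5 : ¬ ‖((P.derivative.eval 1 : ℤ) : ℤ_[3])‖ < 1 := by
        intro h
        exact h2 ((PadicInt.norm_int_lt_one_iff_dvd _).1 h)
      exact le_antisymm (PadicInt.norm_le_one _) (not_lt.1 h5)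
    rw [h4, one_pow]
    exact h3
  obtain ⟨θ, hθ, -⟩ := hensels_lemma hnorm
  have hxi : IsIntegral ℤ x := ⟨P, hPm, hx⟩
  have hxiQ : IsIntegral ℚ x := hxi.tower_top
  have hmin : P.map (Int.castRingHom ℚ) = minpoly ℚ x := by
    refine minpoly.eq_of_irreducible_of_monic hirr ?_ (hPm.map _)
    rw [← hx]
    exact aeval_map_algebraMap ℚ x P
  let pb := IntermediateField.adjoin.powerBasis hxiQ
  have hgen : minpoly ℚ pb.gen = minpoly ℚ x := IntermediateField.minpoly_gen ℚ x
  have hlift : aeval (θ : ℚ_[3]) (minpoly ℚ pb.gen) = 0 := by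
    rw [hgen, ← hmin]
    have h3 : aeval (θ : ℚ_[3]) (P.map (algebraMap ℤ ℚ)) = aeval (θ : ℚ_[3]) P :=
      aeval_map_algebraMap ℚ _ P
    have h4 : aeval (algebraMap ℤ_[3] ℚ_[3] θ) P = algebraMap ℤ_[3] ℚ_[3] (aeval θ P) :=
      aeval_algebraMap_apply ℚ_[3] θ P
    rw [hθ, map_zero] at h4
    exact h3.trans h4
  let φ := pb.lift (θ : ℚ_[3]) hlift
  set e : IntermediateField.adjoin ℚ {x} := ⟨η, hη⟩ with he
  have hen : e ^ n = 1 := by
    apply Subtype.ext
    push_cast
    exact hηn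
  have hφn : (φ e) ^ n = 1 := by rw [← map_pow, hen, map_one]
  have hφnorm : ‖φ e‖ ≤ 1 := by
    have h3 : ‖φ e‖ ^ n = 1 := by rw [← norm_pow, hφn, norm_one]
    exact (pow_eq_one_iff_of_nonneg (norm_nonneg _) (by omega)).1 h3 |>.le
  set u : ℤ_[3] := ⟨φ e, hφnorm⟩ with hu
  have hun : u ^ n = 1 := by
    apply Subtype.ext
    push_cast
    exact hφn
  have hu2 := padic_unit u n hn hun
  have hφ2 : (φ e) ^ 2 = 1 := by
    have h3 := congrArg (fun z : ℤ_[3] => (z : ℚ_[3])) hu2
    push_cast at h3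
    exact h3
  have he2 : e ^ 2 = 1 := by
    have h3 : φ (e ^ 2) = φ 1 := by rw [map_pow, hφ2, map_one]
    exact φ.toRingHom.injective h3
  have := congrArg Subtype.val he2
  push_cast at this
  exact this

/-- exceptional pairs -/
theorem exc_good {g f : ℕ} (hg : 2 ≤ g) (hf : f ≤ g) {a : ℕ → ℤ} (ha0 : a 0 = 1)
    (hirr : Irreducible (HH g a)) (h1 : (3 : ℤ) ∣ (PP 2 g a).eval 1)
    (h2 : ¬ (3 : ℤ) ∣ (PP 2 g a).derivative.eval 1) (ha1 : a 1 ≠ 0)
    (hdiv : ∀ i, f < i → i ≤ g → (2 : ℤ) ∣ a i) (hnd : ¬ (2 : ℤ) ∣ a f)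
    {S : Finset ℝ} (hS : S.card = g) (hr : ∀ s ∈ S, aeval s (HH g a) = 0 ∧ s ^ 2 < 8) :
    Good 2 g f := by
  set P := PP 2 g a with hP
  have hm : P.Monic := monic_PP (by omega) ha0
  have hd : P.natDegree = 2 * g := natDegree_PP (by omega) ha0
  have hroot := norm_of_S (by omega) ha0 hS hr
  obtain ⟨hHm, hHd⟩ := HH_monic (g := g) (by omega) ha0
  have hPirr : Irreducible (P.map (Int.castRingHom ℚ)) := by
    refine Pool.Agent.Y676.WP.irreducible_of_real2 (p := 2) (by norm_num) (by omega : 1 ≤ g) hm hd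
      hHm hHd hirr ?_ ?_ ?_
    · intro x x' h
      exact HH_rel (by exact_mod_cast h)
    · intro x hx
      have := sq_ne_of_S (by omega) ha0 hS hr x hx
      exact_mod_cast this
    · intro x hx
      have := hroot x hx
      exact_mod_cast this
  refine ⟨P, hm, hd, hPirr, ?_, ?_, ?_, ?_⟩
  · intro x hx
    have := hroot x hx
    exact_mod_cast this
  · intro i hi
    rw [hP, coeff_PP]
    split_ifs with h1 h2 h4
    · exact Dvd.dvd.mul_right (dvd_pow_self _ (by omega)) _
    · exact hdiv g (by omega) le_rfl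
    · exact hdiv (2 * g - i) (by omega) (by omega)
    · exact dvd_zero _
  · rw [hP, coeff_PP, if_neg (by omega)]
    by_cases hfg : f = g
    · rw [if_pos (by omega)]
      rw [hfg] at hnd
      exact hnd
    · rw [if_neg (by omega), if_pos (by omega)]
      have : 2 * g - (2 * g - f) = f := by omega
      rw [this]
      exact hnd
  · intro x hx n hn
    have hx0 : x ≠ 0 := by
      rintro rfl
      have h1 := hroot 0 hx
      rw [norm_zero] at h1
      have h2 : 0 < Real.sqrt 2 := Real.sqrt_pos.2 (by norm_num)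
      linarith
    refine gen hm hd hPirr hx hx0 (n := n) ?_ ?_
    · intro s hs hmem
      refine unit_of_simple hm hPirr h1 h2 hx hmem hn ?_
      rw [← Multiset.prod_map_pow, Multiset.map_congr rfl (fun y hy => by
        rw [div_pow, (hs y hy).2, div_self (pow_ne_zero _ hx0)])]
      simp
    · intro d hd2
      refine ⟨2 * g - 1, by omega, ?_, ?_⟩
      · rw [hP, coeff_PP, if_neg (by omega), if_neg (by omega), if_pos (by omega)]
        have : 2 * g - (2 * g - 1) = 1 := by omega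
        rw [this]
        exact ha1
      · intro h
        have h1 : (2 * g - 1) ≡ 2 * g [MOD d] := h
        have h2 := (Nat.modEq_iff_dvd' (by omega)).1 h1
        have h3 : 2 * g - (2 * g - 1) = 1 := by omega
        rw [h3] at h2
        have := Nat.le_of_dvd (by norm_num) h2
        omega

end Pool.Agent.U774.WT
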