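import Pool.Agent.U774.WT.Irr5
import Pool.Agent.U774.WT.Padic3

/-!
# The exceptional pairs `(3,2), (4,2), (4,3), (4,4), (5,2), (6,2), (6,4)` (MP_e32a7e_nt)
-/

set_option autoImplicit false

namespace Pool.Agent.U774.WT

open Polynomial Pool.Agent.R80.WF

theorem LP_ladd (p q : List ℤ) : LP (ladd p q) = LP p + LP q := by
  induction p generalizing q with
  | nil => simp [ladd, LP]
  | cons a p ih =>
    cases q with
    | nil => simp [ladd, LP]
    | cons b q =>
      simp only [ladd, LP, ih, C_add]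
      ring

theorem LP_smul (c : ℤ) (p : List ℤ) : LP (smul c p) = C c * LP p := by
  induction p with
  | nil => simp [smul, LP]
  | cons a p ih =>
    simp only [smul, List.map_cons, LP] at ih ⊢
    rw [ih, C_mul]
    ring

/-- Dickson polynomials as lists -/
def DDL : ℕ → List ℤ
  | 0 => [2]
  | 1 => [0, 1]
  | (n + 2) => ladd (0 :: DDL (n + 1)) (smul (-2) (DDL n))

theorem LP_DDL (n : ℕ) : LP (DDL n) = DD n ∧ LP (DDL (n + 1)) = DD (n + 1) := by
  induction n with
  | zero =>
    constructor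
    · simp [DDL, LP, DD]
    · simp [DDL, LP, DD]
  | succ n ih =>
    refine ⟨ih.2, ?_⟩
    simp only [DDL, DD, LP_ladd, LP_smul, LP, ih.1, ih.2, C_neg, C_0]
    ring

/-- the real Weil polynomial as a list -/
def HHL : List ℤ → List ℤ
  | [] => []
  | a :: t =>
    match t with
    | [] => [a]
    | _ :: _ => ladd (smul a (DDL t.length)) (HHL t)

theorem LP_HHL (l : List ℤ) : LP (HHL l) = HL l := by
  induction l with
  | nil => rfl
  | cons a t ih =>
    cases t with
    | nil => simp [HHL, HL, LP]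
    | cons b u =>
      have e : HHL (a :: b :: u) = ladd (smul a (DDL (b :: u).length)) (HHL (b :: u)) := rfl
      rw [e, HL_cons, LP_ladd, LP_smul, ih, (LP_DDL _).1]

/-- the check for exceptional pairs -/
def chkE (m : ℤ) (g f : ℕ) (l ps : List ℤ) : Bool :=
  decide (0 < m) && decide (l.length = g + 1) && decide (ps.length = g + 1) &&
    decide (l.getD 0 0 = 1) && decide (l.getD 1 0 ≠ 0) && alt m l ps && par2 f l &&
    trial (red5 (HHL l)) (g / 2) && decide (cl 1 3 l 1 0 0 % 3 = 0)

theorem good_of_chkE {m : ℤ} {g f : ℕ} {l ps : List ℤ} (hg : 2 ≤ g) (hf : f ≤ g)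
    (h : chkE m g f l ps = true)
    (hdv : ¬ (3 : ℤ) ∣ (PP 2 g (fun i => l.getD i 0)).derivative.eval 1) : Good 2 g f := by
  simp only [chkE, Bool.and_eq_true, decide_eq_true_eq] at h
  obtain ⟨⟨⟨⟨⟨⟨⟨⟨hm, hl⟩, hps⟩, h0⟩, h1⟩, halt⟩, h2⟩, ht⟩, h3⟩ := h
  obtain ⟨h21, h22⟩ := par2_spec f l h2
  cases ps with
  | nil => simp at hps
  | cons p t =>
    obtain ⟨S, hS, hr⟩ := alt_roots hm hl t p halt
    have hH : LP (HHL l) = HH g (fun i => l.getD i 0) := by
      rw [LP_HHL, HL_eq l g hl]
    obtain ⟨hHm, hHd⟩ := HH_monic (g := g) (a := fun i => l.getD i 0) (by omega) h0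
    refine exc_good (a := fun i => l.getD i 0) hg hf h0 ?_ ?_ hdv h1 ?_ ?_ (S := S)
      (by rw [hS]; simpa using hps) (fun s hs => ⟨(hr s hs).1, (hr s hs).2.1⟩)
    · rw [← hH]
      exact irr5 hg (by rw [hH]; exact hHm) (by rw [hH]; exact hHd) ht
    · rw [eval_one hl]
      exact Int.dvd_of_emod_eq_zero h3
    · intro i hi _
      exact Int.dvd_of_emod_eq_zero (h22 i hi)
    · intro hdv
      have := Int.emod_eq_zero_of_dvd hdv
      omega

theorem deriv_eq (g : ℕ) (a : ℕ → ℤ) : (PP 2 g a).derivative.eval 1 =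
    ∑ i ∈ Finset.range g, a i * ((2 * g - i).choose 1 + ((2 : ℕ) : ℤ) ^ (g - i) * (i.choose 1))
      + a g * g.choose 1 := by
  rw [← ev_PP, ev_eq, hasseDeriv_one]

theorem e32 : Good 2 3 2 := by
  refine good_of_chkE (m := 1000) (l := [1, 1, -1, -2]) (ps := [-2828, -1897, 1230, 2828])
    (by norm_num) (by norm_num) (by decide +kernel) ?_
  rw [deriv_eq]
  decide +kernel

theorem e42 : Good 2 4 2 := by
  refine good_of_chkE (m := 1000) (l := [1, 2, 1, -4, -10])
    (ps := [-2828, -2266, -1000, 1766, 2828])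
    (by norm_num) (by norm_num) (by decide +kernel) ?_
  rw [deriv_eq]
  decide +kernel

theorem e43 : Good 2 4 3 := by
  refine good_of_chkE (m := 1000) (l := [1, 1, 1, 1, 2])
    (ps := [-2828, -2122, -343, 1715, 2828])
    (by norm_num) (by norm_num) (by decide +kernel) ?_
  rw [deriv_eq]
  decide +kernel

theorem e44 : Good 2 4 4 := by
  refine good_of_chkE (m := 1000) (l := [1, -2, 2, 1, -3])
    (ps := [-2828, -1612, 920, 2192, 2828])
    (by norm_num) (by norm_num) (by decide +kernel) ?_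
  rw [deriv_eq]
  decide +kernel

theorem e52 : Good 2 5 2 := by
  refine good_of_chkE (m := 1000) (l := [1, 1, 1, 0, 2, 4])
    (ps := [-2828, -2282, -1193, 554, 2121, 2828])
    (by norm_num) (by norm_num) (by decide +kernel) ?_
  rw [deriv_eq]
  decide +kernel

theorem e62 : Good 2 6 2 := by
  refine good_of_chkE (m := 1000) (l := [1, -2, 1, 0, -4, 6, -2])
    (ps := [-2828, -2391, -954, 513, 1783, 2716, 2828])
    (by norm_num) (by norm_num) (by decide +kernel) ?_
  rw [deriv_eq]
  decide +kernel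

theorem e64 : Good 2 6 4 := by
  refine good_of_chkE (m := 1000) (l := [1, -3, 3, -1, -1, 8, -18])
    (ps := [-2828, -2293, -783, 738, 2164, 2674, 2828])
    (by norm_num) (by norm_num) (by decide +kernel) ?_
  rw [deriv_eq]
  decide +kernel

end Pool.Agent.U774.WT
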