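import Pool.Agent.U774.WT.LChk

/-!
# The polynomials `L` (MP_e32a7e_nt)
-/

set_option autoImplicit false

namespace Pool.Agent.U774.WT

open Polynomial Complex Pool.Agent.R80.WF

/-- families `L0 + 3 X ^ f` -/
theorem fam {g f r : ℕ} (l : List ℤ) (hr : g % 3 = r) (hr2 : r < 3) (δ : ℝ)
    (h0 : l.getD 0 0 = 1) (hl : l.length ≤ f) (hmod : eqz l (pw r) = true)
    (hsum : (l.map (fun a => |a|)).sum ≤ 45)
    (hre : ∀ w : ℂ, ‖w‖ = rho → δ ≤ (T l w).re) (hδ : 3 * rho ^ f + 1 / 16 ≤ δ) :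
    LGood g f (LP l + C 3 * X ^ f) := by
  have hf : 0 < f := by
    cases l with
    | nil => simp at h0
    | cons a t => simp at hl; omega
  have hc : ∀ i, f ≤ i → l.getD i 0 = 0 := by
    intro i hi
    exact List.getD_eq_default _ _ (by omega)
  have hcoef : ∀ i, (LP l + C 3 * X ^ f).coeff i = l.getD i 0 + (if i = f then 3 else 0) := by
    intro i
    rw [coeff_add, coeff_LP, coeff_C_mul, coeff_X_pow]
    split_ifs <;> ring
  refine ⟨?_, ?_, ?_, ?_, ?_, ?_⟩
  · rw [hcoef, if_neg (by omega), h0, add_zero]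
  · rw [Polynomial.map_add, map_LP, eqz_spec _ _ hmod, toP_pw, hr]
    have h3 : (C 3 * X ^ f : ℤ[X]).map (Int.castRingHom (ZMod 3)) = 0 := by
      rw [Polynomial.map_mul, map_C]
      have : (Int.castRingHom (ZMod 3)) 3 = 0 := by decide
      rw [this, C_0, zero_mul]
    rw [h3, add_zero]
  · rw [hcoef, if_pos rfl, hc f le_rfl]
    norm_num
  · intro i hi
    rw [hcoef, if_neg (by omega), hc i hi.le]
    norm_num
  · have h1 : ∑ k ∈ (LP l + C 3 * X ^ f).support, |(LP l + C 3 * X ^ f).coeff k| ≤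
        ∑ k ∈ (LP l).support ∪ {f}, |(LP l + C 3 * X ^ f).coeff k| := by
      apply Finset.sum_le_sum_of_subset_of_nonneg
      · intro k hk
        rw [mem_support_iff, hcoef] at hk
        rw [Finset.mem_union, mem_support_iff, coeff_LP, Finset.mem_singleton]
        by_contra hcon
        push Not at hcon
        rw [hcon.1, if_neg hcon.2] at hk
        exact hk rfl
      · intro k _ _
        exact abs_nonneg _
    have h2 : ∑ k ∈ (LP l).support ∪ {f}, |(LP l + C 3 * X ^ f).coeff k| ≤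
        ∑ k ∈ (LP l).support ∪ {f}, (|(LP l).coeff k| + (if k = f then 3 else 0)) := by
      apply Finset.sum_le_sum
      intro k _
      rw [hcoef, coeff_LP]
      refine (abs_add_le _ _).trans ?_
      split_ifs <;> simp
    have h3 : ∑ k ∈ (LP l).support ∪ {f}, (|(LP l).coeff k| + (if k = f then (3 : ℤ) else 0)) =
        ∑ k ∈ (LP l).support, |(LP l).coeff k| + 3 := by
      rw [Finset.sum_add_distrib]
      congr 1
      · symm
        apply Finset.sum_subset Finset.subset_union_left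
        intro k _ hk
        rw [mem_support_iff, not_not] at hk
        rw [hk, abs_zero]
      · rw [Finset.sum_ite_eq']
        rw [if_pos (Finset.mem_union_right _ (Finset.mem_singleton_self f))]
    have h4 := sum_LP l
    linarith
  · intro w hw
    have h1 : aeval w (LP l + C 3 * X ^ f) = T l w + 3 * w ^ f := by
      rw [map_add, aeval_LP, map_mul, aeval_C, map_pow, aeval_X]
      simp
    have h2 : ‖3 * w ^ f‖ = 3 * rho ^ f := by
      rw [norm_mul, norm_pow, hw]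
      simp
    have h3 := abs_re_le_norm (3 * w ^ f)
    rw [h2] at h3
    have h4 := neg_abs_le (3 * w ^ f).re
    have h5 := hre w hw
    have h6 : 1 / 16 ≤ (aeval w (LP l + C 3 * X ^ f)).re := by
      rw [h1, add_re]
      linarith
    refine ⟨?_, h6.trans ((le_abs_self _).trans (abs_re_le_norm _))⟩
    rw [mem_slitPlane_iff]
    left
    linarith

theorem rho_four : rho ^ 4 = 1 / 4 := by
  have e : rho ^ 4 = (rho ^ 2) ^ 2 := by ring
  rw [e, rho_sq]
  norm_num

theorem rho_le {k f : ℕ} (h : k ≤ f) : rho ^ f ≤ rho ^ k :=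
  pow_le_pow_of_le_one rho_pos.le (by have := rho_lt; linarith) h

theorem norm_re_im {w : ℂ} (hw : ‖w‖ = rho) : w.re ^ 2 + w.im ^ 2 = 1 / 2 := by
  have h1 : ‖w‖ ^ 2 = w.re ^ 2 + w.im ^ 2 := by
    rw [← normSq_eq_norm_sq, normSq_apply]
    ring
  rw [← h1, hw, rho_sq]

theorem re1 (w : ℂ) (hw : ‖w‖ = rho) : 1 / 2 ≤ (T [1, 0, -1] w).re := by
  have h := norm_re_im hw
  have e : (T [1, 0, -1] w).re = 1 - (w.re ^ 2 - w.im ^ 2) := by
    simp [T, mul_re, mul_im]
    ring
  rw [e]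
  nlinarith [sq_nonneg w.im]

theorem re2 (w : ℂ) (hw : ‖w‖ = rho) : 5 / 8 ≤ (T [1, 0, 1, 0, 1] w).re := by
  have h := norm_re_im hw
  have e : (T [1, 0, 1, 0, 1] w).re = 1 + (w.re ^ 2 - w.im ^ 2) +
      ((w.re ^ 2 - w.im ^ 2) ^ 2 - 4 * w.re ^ 2 * w.im ^ 2) := by
    simp [T, mul_re, mul_im]
    ring
  rw [e]
  have h2 : w.im ^ 2 = 1 / 2 - w.re ^ 2 := by linarith
  have h3 : w.re ^ 2 * w.im ^ 2 = w.re ^ 2 * (1 / 2 - w.re ^ 2) := by rw [h2]
  have h4 : 4 * w.re ^ 2 * w.im ^ 2 = 4 * (w.re ^ 2 * (1 / 2 - w.re ^ 2)) := by rw [← h3]; ring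
  rw [h4, h2]
  nlinarith [sq_nonneg (w.re ^ 2 - 1 / 8)]

theorem famZero {g f : ℕ} (hr : g % 3 = 0) (hf : 4 ≤ f) : LGood g f (LP [1] + C 3 * X ^ f) := by
  refine fam [1] hr (by norm_num) 1 rfl (by simp; omega) (by decide) (by decide) ?_ ?_
  · intro w _
    simp [T]
  · have := rho_le hf
    rw [rho_four] at this
    linarith

theorem famOne {g f : ℕ} (hr : g % 3 = 1) (hf : 6 ≤ f) :
    LGood g f (LP [1, 0, -1] + C 3 * X ^ f) := by
  refine fam [1, 0, -1] hr (by norm_num) (1 / 2) rfl (by simp; omega) (by decide) (by decide)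
    re1 ?_
  have := rho_le hf
  have e : rho ^ 6 = 1 / 8 := by
    have e : rho ^ 6 = (rho ^ 2) ^ 3 := by ring
    rw [e, rho_sq]
    norm_num
  rw [e] at this
  linarith

theorem famTwo {g f : ℕ} (hr : g % 3 = 2) (hf : 5 ≤ f) :
    LGood g f (LP [1, 0, 1, 0, 1] + C 3 * X ^ f) := by
  refine fam [1, 0, 1, 0, 1] hr (by norm_num) (5 / 8) rfl (by simp; omega) (by decide) (by decide)
    re2 ?_
  have := rho_le hf
  have e : rho ^ 5 = 1 / 4 * rho := by
    have e : rho ^ 5 = rho ^ 4 * rho := by ring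
    rw [e, rho_four]
  rw [e] at this
  have := rho_lt
  linarith

theorem sp02 {g : ℕ} (hr : g % 3 = 0) : LGood g 2 (LP [1, 0, 3, 0, 6, 0, 6, 0, 0, 0, -6, 0, -6]) :=
  ckL_spec (m := 1000) (R := 2829) (es := [(-2742, 88, 0), (-2566, 89, -1051),
    (-2300, 177, -750), (-2035, 89, -549), (-1858, 89, -500), (-1592, 177, -464),
    (-1062, 354, 0), (-354, 354, 0), (353, 354, 0), (1061, 354, 0), (1591, 177, 464),
    (1856, 89, 499), (2033, 89, 548), (2299, 177, 749), (2564, 89, 1045),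
    (2741, 89, 0)]) (by decide +kernel) hr

theorem sp03 {g : ℕ} (hr : g % 3 = 0) : LGood g 3 (LP [1, 0, 0, 3, 0, 0, 6, 0, 0, 6]) :=
  ckL_spec (m := 1000) (R := 2829) (es := [(-2742, 88, 0), (-2566, 89, 0), (-2300, 177, 94),
    (-1769, 354, 0), (-1062, 354, 0), (-354, 354, -47), (176, 177, 0), (530, 177, 0),
    (1061, 354, 0), (1768, 354, 0), (2299, 177, 0), (2564, 89, 131),
    (2741, 89, 0)]) (by decide +kernel) hr

theorem sp13 {g : ℕ} (hr : g % 3 = 1) : LGood g 3 (LP [1, 0, -1, 3, 0, 0, 6, -6, 0, 12, -6, -6]) :=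
  ckL_spec (m := 1000) (R := 2829) (es := [(-2786, 44, 0), (-2698, 44, 738), (-2566, 89, 526),
    (-2300, 177, 375), (-1946, 177, 0), (-1592, 177, 0), (-1062, 354, 0), (-531, 177, -187),
    (-177, 177, 0), (353, 354, 0), (1061, 354, -210), (1503, 88, 0), (1679, 89, 0),
    (1945, 177, 0), (2210, 89, 0), (2387, 89, 0), (2564, 89, 0),
    (2741, 89, 0)]) (by decide +kernel) hr

theorem sp14 {g : ℕ} (hr : g % 3 = 1) : LGood g 4 (LP [1, 0, -1, 0, 3]) :=
  ckL_spec (m := 1000) (R := 2829) (es := [(-2654, 177, 0), (-2300, 177, 0), (-1769, 354, 3),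
    (-708, 708, 0), (707, 708, 0), (1768, 354, -3), (2299, 177, 0),
    (2653, 177, 0)]) (by decide +kernel) hr

theorem sp15 {g : ℕ} (hr : g % 3 = 1) : LGood g 5 (LP [1, 0, -1, 0, 0, 3, 0, -6]) :=
  ckL_spec (m := 1000) (R := 2829) (es := [(-2742, 88, 0), (-2566, 89, 0), (-2300, 177, 0),
    (-1769, 354, 0), (-1239, 177, 0), (-885, 177, 0), (-354, 354, 12), (707, 708, 0),
    (1768, 354, -18), (2299, 177, 0), (2653, 177, 0)]) (by decide +kernel) hr

theorem sp22 {g : ℕ} (hr : g % 3 = 2) : LGood g 2 (LP [1, 0, 1, 0, -2, 0, 0, 0, 6]) :=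
  ckL_spec (m := 1000) (R := 2829) (es := [(-2654, 177, 0), (-2300, 177, 0), (-1769, 354, 0),
    (-1062, 354, -27), (-531, 177, 0), (-177, 177, 0), (176, 177, 0), (530, 177, 0),
    (1061, 354, 27), (1768, 354, 0), (2299, 177, 0), (2653, 177, 0)]) (by decide +kernel) hr

theorem sp23 {g : ℕ} (hr : g % 3 = 2) : LGood g 3 (LP [1, 0, -2, 3, 4, -6, 0, 12, 0, -6, 6, 6]) :=
  ckL_spec (m := 1000) (R := 2829) (es := [(-2742, 88, 0), (-2566, 89, 526), (-2300, 177, 375),
    (-1769, 354, 274), (-1062, 354, 0), (-354, 354, 0), (353, 354, -187), (884, 177, -196),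
    (1149, 89, -202), (1326, 89, -210), (1768, 354, 0), (2299, 177, 0), (2520, 44, 0),
    (2608, 45, 0), (2697, 44, 0), (2785, 45, 0)]) (by decide +kernel) hr

theorem sp12 {g : ℕ} (hr : g % 3 = 1) : LGood g 2 (LP [1, 0, -1]) :=
  ckL_spec (m := 1000) (R := 2829) (es := [(0, 2830, 0)]) (by decide +kernel) hr

theorem sp24 {g : ℕ} (hr : g % 3 = 2) : LGood g 4 (LP [1, 0, 1, 0, 1]) :=
  ckL_spec (m := 1000) (R := 2829) (es := [(-2477, 354, 0), (-1769, 354, 0), (-708, 708, 0),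
    (707, 708, 0), (1768, 354, 0), (2476, 354, 0)]) (by decide +kernel) hr

/-- all large degrees -/
theorem good_large {g f : ℕ} (hg : 26 ≤ g) (hf2 : 2 ≤ f) (hf : f ≤ g) : Good 2 g f := by
  have h3 : g % 3 = 0 ∨ g % 3 = 1 ∨ g % 3 = 2 := by omega
  rcases h3 with h3 | h3 | h3
  · by_cases h4 : 4 ≤ f
    · exact large (famZero h3 h4) hg hf
    · interval_cases f
      · exact large (sp02 h3) hg hf
      · exact large (sp03 h3) hg hf
  · by_cases h6 : 6 ≤ f
    · exact large (famOne h3 h6) hg hf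
    · interval_cases f
      · exact large (sp12 h3) hg hf
      · exact large (sp13 h3) hg hf
      · exact large (sp14 h3) hg hf
      · exact large (sp15 h3) hg hf
  · by_cases h5 : 5 ≤ f
    · exact large (famTwo h3 h5) hg hf
    · interval_cases f
      · exact large (sp22 h3) hg hf
      · exact large (sp23 h3) hg hf
      · exact large (sp24 h3) hg hf

end Pool.Agent.U774.WT
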