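import Pool.Agent.U774.WT.ChkAll

/-! # Certificates for `3 ≤ g ≤ 16` (MP_e32a7e_nt) -/

set_option autoImplicit false

namespace Pool.Agent.U774.WT

open Pool.Agent.R80.WF

/-- coefficients and points for `g = 3`, `f = 2, 3, ...` -/
def dat3 : List (List ℤ × List ℤ) := [
  ([], []),
  ([1, 3, 6, 9],
    [-2828, -2000, 0, 2828])]

theorem ok3 : chkAll 3 2 dat3 [2] = true := by decide +kernel

theorem good3 (f : ℕ) (h2 : 2 ≤ f) (hf : f ≤ 3) (he : f ∉ ([2] : List ℕ)) :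
    Good 2 3 f :=
  good_of_chkAll (by norm_num) ok3 rfl h2 hf he

/-- coefficients and points for `g = 4`, `f = 2, 3, ...` -/
def dat4 : List (List ℤ × List ℤ) := [
  ([], []),
  ([], []),
  ([], [])]

theorem ok4 : chkAll 4 2 dat4 [2, 3, 4] = true := by decide +kernel

theorem good4 (f : ℕ) (h2 : 2 ≤ f) (hf : f ≤ 4) (he : f ∉ ([2, 3, 4] : List ℕ)) :
    Good 2 4 f :=
  good_of_chkAll (by norm_num) ok4 rfl h2 hf he

/-- coefficients and points for `g = 5`, `f = 2, 3, ...` -/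
def dat5 : List (List ℤ × List ℤ) := [
  ([], []),
  ([1, 0, 1, 3, 4, 0],
    [-2828, -2288, -747, 1072, 1963, 2828]),
  ([1, 0, 1, -3, 1, -6],
    [-2828, -2017, -964, 666, 2315, 2828]),
  ([1, 0, 1, 0, 1, -3],
    [-2828, -2184, -793, 793, 2184, 2828])]

theorem ok5 : chkAll 5 2 dat5 [2] = true := by decide +kernel

theorem good5 (f : ℕ) (h2 : 2 ≤ f) (hf : f ≤ 5) (he : f ∉ ([2] : List ℕ)) :
    Good 2 5 f :=
  good_of_chkAll (by norm_num) ok5 rfl h2 hf he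

/-- coefficients and points for `g = 6`, `f = 2, 3, ...` -/
def dat6 : List (List ℤ × List ℤ) := [
  ([], []),
  ([1, -3, 3, -3, 6, -6, 4],
    [-2828, -2174, -914, 677, 2167, 2745, 2828]),
  ([], []),
  ([1, 0, 0, 0, 0, 3, 4],
    [-2828, -2460, -1383, -42, 1445, 2439, 2828]),
  ([1, 0, 3, 0, 6, 3, 13],
    [-2828, -2190, -1067, -84, 1181, 2160, 2828])]

theorem ok6 : chkAll 6 2 dat6 [2, 4] = true := by decide +kernel

theorem good6 (f : ℕ) (h2 : 2 ≤ f) (hf : f ≤ 6) (he : f ∉ ([2, 4] : List ℕ)) :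
    Good 2 6 f :=
  good_of_chkAll (by norm_num) ok6 rfl h2 hf he

/-- coefficients and points for `g = 7`, `f = 2, 3, ...` -/
def dat7 : List (List ℤ × List ℤ) := [
  ([1, -3, 5, -6, 6, -6, 4, 0],
    [-2828, -2313, -1159, 94, 1256, 2046, 2647, 2828]),
  ([1, 0, -1, -3, 0, 6, -2, 0],
    [-2828, -2538, -1659, -966, 521, 1960, 2682, 2828]),
  ([1, 0, 2, 0, 3, 0, 4, 6],
    [-2828, -2415, -1562, -549, 549, 1562, 2415, 2828]),
  ([1, 0, -1, 0, 3, 3, -2, 0],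
    [-2828, -2569, -1865, -785, 738, 1964, 2517, 2828]),
  ([1, 0, -1, 0, 0, 0, 1, 6],
    [-2828, -2602, -1868, -673, 673, 1868, 2602, 2828]),
  ([1, 0, -1, 0, 0, 0, 1, -3],
    [-2828, -2602, -1868, -673, 673, 1868, 2602, 2828])]

theorem ok7 : chkAll 7 2 dat7 [] = true := by decide +kernel

theorem good7 (f : ℕ) (h2 : 2 ≤ f) (hf : f ≤ 7) (he : f ∉ ([] : List ℕ)) :
    Good 2 7 f :=
  good_of_chkAll (by norm_num) ok7 rfl h2 hf he

/-- coefficients and points for `g = 8`, `f = 2, 3, ...` -/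
def dat8 : List (List ℤ × List ℤ) := [
  ([1, 0, 1, 0, -2, 0, -2, 6, -2],
    [-2828, -2619, -1890, -915, 39, 859, 1913, 2614, 2828]),
  ([1, 0, 1, -3, -2, -6, 4, 6, 22],
    [-2828, -2491, -1837, -1006, -121, 747, 1997, 2711, 2828]),
  ([1, 0, 1, 0, 1, -6, 4, -6, -2],
    [-2828, -2492, -2023, -1036, 160, 930, 1858, 2604, 2828]),
  ([1, 0, 1, 0, 4, 3, 4, 6, 10],
    [-2828, -2537, -1861, -1139, -50, 1142, 1978, 2467, 2828]),
  ([1, 0, 1, 0, 1, 0, 1, 6, 4],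
    [-2828, -2568, -1894, -1042, 30, 991, 1921, 2561, 2828]),
  ([1, 0, 1, 0, 1, 0, 1, -3, 4],
    [-2828, -2563, -1915, -1004, -15, 1029, 1901, 2566, 2828]),
  ([1, 0, 1, 0, 1, 0, 1, -3, -5],
    [-2828, -2563, -1915, -1004, -15, 1029, 1901, 2566, 2828])]

theorem ok8 : chkAll 8 2 dat8 [] = true := by decide +kernel

theorem good8 (f : ℕ) (h2 : 2 ≤ f) (hf : f ≤ 8) (he : f ∉ ([] : List ℕ)) :
    Good 2 8 f :=
  good_of_chkAll (by norm_num) ok8 rfl h2 hf he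

/-- coefficients and points for `g = 9`, `f = 2, 3, ...` -/
def dat9 : List (List ℤ × List ℤ) := [
  ([1, 0, 3, 0, 6, 0, 6, 0, 0, 6],
    [-2828, -2540, -1864, -1245, -438, 438, 1245, 1864, 2540, 2828]),
  ([1, 0, 0, -3, 0, 0, 6, 6, -6, -18],
    [-2828, -2588, -2010, -1477, -617, 273, 1403, 2313, 2704, 2828]),
  ([1, 0, 0, 0, -3, 0, 0, 0, 6, 6],
    [-2828, -2700, -2194, -1316, -406, 406, 1316, 2194, 2700, 2828]),
  ([1, 0, 0, 0, 0, -3, 0, 0, 0, -6],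
    [-2828, -2631, -2185, -1467, -448, 542, 1355, 2152, 2682, 2828]),
  ([1, 0, 0, 0, 0, 0, 3, 0, -6, 6],
    [-2828, -2647, -2183, -1424, -444, 444, 1424, 2183, 2647, 2828]),
  ([1, 0, 0, 0, 0, 0, 0, -3, 0, -6],
    [-2828, -2654, -2178, -1400, -497, 485, 1428, 2155, 2662, 2828]),
  ([1, 0, 0, 0, 0, 0, 0, 0, -3, 6],
    [-2828, -2659, -2164, -1419, -485, 485, 1419, 2164, 2659, 2828]),
  ([1, 0, 0, 0, 0, 0, 0, 0, -3, -3],
    [-2828, -2659, -2164, -1419, -485, 485, 1419, 2164, 2659, 2828])]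

theorem ok9 : chkAll 9 2 dat9 [] = true := by decide +kernel

theorem good9 (f : ℕ) (h2 : 2 ≤ f) (hf : f ≤ 9) (he : f ∉ ([] : List ℕ)) :
    Good 2 9 f :=
  good_of_chkAll (by norm_num) ok9 rfl h2 hf he

/-- coefficients and points for `g = 10`, `f = 2, 3, ...` -/
def dat10 : List (List ℤ × List ℤ) := [
  ([1, 0, -1, 0, 0, 0, 0, 0, 6, -6, -18],
    [-2828, -2711, -2369, -1721, -939, 6, 928, 1729, 2364, 2713, 2828]),
  ([1, 0, -1, -3, 0, 6, 6, -6, -6, -6, 30],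
    [-2828, -2671, -2278, -1598, -991, -325, 813, 1852, 2475, 2724, 2828]),
  ([1, 0, -1, 0, 3, 0, -6, 0, 12, -6, -24],
    [-2828, -2690, -2308, -1746, -1092, 4, 1081, 1757, 2302, 2691, 2828]),
  ([1, 0, -1, 0, 0, -3, 0, 0, 0, 6, 12],
    [-2828, -2687, -2363, -1795, -914, 51, 936, 1682, 2349, 2742, 2828]),
  ([1, 0, -1, 0, 0, 0, 3, 0, 0, -6, -12],
    [-2828, -2700, -2376, -1749, -899, 6, 888, 1757, 2371, 2702, 2828]),
  ([1, 0, -1, 0, 0, 0, 0, 3, 0, -6, -6],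
    [-2828, -2721, -2344, -1742, -938, 23, 909, 1737, 2366, 2710, 2828]),
  ([1, 0, -1, 0, 0, 0, 0, 3, 3, -6, -12],
    [-2828, -2719, -2350, -1734, -943, 23, 914, 1730, 2371, 2708, 2828]),
  ([1, 0, -1, 0, 0, 0, 0, 0, 0, 3, -6],
    [-2828, -2716, -2353, -1741, -921, -3, 926, 1737, 2356, 2716, 2828]),
  ([1, 0, -1, 0, 0, 0, 0, 0, 0, -3, 3],
    [-2828, -2716, -2356, -1737, -926, 3, 921, 1741, 2353, 2716, 2828])]

theorem ok10 : chkAll 10 2 dat10 [] = true := by decide +kernel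

theorem good10 (f : ℕ) (h2 : 2 ≤ f) (hf : f ≤ 10) (he : f ∉ ([] : List ℕ)) :
    Good 2 10 f :=
  good_of_chkAll (by norm_num) ok10 rfl h2 hf he

/-- coefficients and points for `g = 11`, `f = 2, 3, ...` -/
def dat11 : List (List ℤ × List ℤ) := [
  ([1, 0, 1, 0, -2, 0, 0, 0, 6, -6, -6, -18],
    [-2828, -2712, -2380, -1756, -992, -312, 323, 972, 1772, 2370, 2715, 2828]),
  ([1, 0, -2, 3, 4, -6, 0, 12, -6, -6, 12, 0],
    [-2828, -2758, -2511, -2131, -1355, -311, 694, 1416, 1939, 2337, 2679, 2828]),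
  ([1, 0, 1, 0, 1, 0, 0, 0, 0, 0, 0, 6],
    [-2828, -2693, -2315, -1772, -1129, -393, 393, 1129, 1772, 2315, 2693, 2828]),
  ([1, 0, 1, 0, 1, -3, 0, -6, 0, -6, 6, 0],
    [-2828, -2662, -2321, -1829, -1140, -348, 432, 1126, 1708, 2314, 2720, 2828]),
  ([1, 0, 1, 0, 1, 0, 3, 0, 0, 0, 0, 6],
    [-2828, -2683, -2317, -1808, -1107, -346, 346, 1107, 1808, 2317, 2683, 2828]),
  ([1, 0, 1, 0, 1, 0, 0, 3, 0, 0, 0, 0],
    [-2828, -2698, -2307, -1762, -1158, -376, 410, 1100, 1780, 2324, 2688, 2828]),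
  ([1, 0, 1, 0, 1, 0, 0, 0, -3, 0, -6, 6],
    [-2828, -2696, -2307, -1780, -1129, -383, 383, 1129, 1780, 2307, 2696, 2828]),
  ([1, 0, 1, 0, 1, 0, 0, 0, 0, -3, 0, -6],
    [-2828, -2692, -2318, -1766, -1134, -391, 395, 1124, 1777, 2312, 2694, 2828]),
  ([1, 0, 1, 0, 1, 0, 0, 0, 0, 0, -3, 6],
    [-2828, -2693, -2315, -1773, -1127, -396, 396, 1127, 1773, 2315, 2693, 2828]),
  ([1, 0, 1, 0, 1, 0, 0, 0, 0, 0, 0, -3],
    [-2828, -2693, -2315, -1772, -1129, -393, 393, 1129, 1772, 2315, 2693, 2828])]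

theorem ok11 : chkAll 11 2 dat11 [] = true := by decide +kernel

theorem good11 (f : ℕ) (h2 : 2 ≤ f) (hf : f ≤ 11) (he : f ∉ ([] : List ℕ)) :
    Good 2 11 f :=
  good_of_chkAll (by norm_num) ok11 rfl h2 hf he

/-- coefficients and points for `g = 12`, `f = 2, 3, ...` -/
def dat12 : List (List ℤ × List ℤ) := [
  ([1, 0, 3, 0, 6, 0, 8, 0, 6, 0, 0, -6, -6],
    [-2828, -2671, -2265, -1788, -1272, -646, -6, 657, 1263, 1793, 2263, 2672, 2828]),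
  ([1, 0, 0, 3, 0, 0, 8, 0, 0, 12, 0, 6, 24],
    [-2828, -2747, -2538, -2130, -1413, -550, 193, 786, 1417, 1955, 2350, 2677, 2828]),
  ([1, 0, 0, 0, -3, 0, 2, 0, 6, 0, -6, -6, -12],
    [-2828, -2747, -2504, -2018, -1320, -608, -4, 614, 1316, 2020, 2503, 2747, 2828]),
  ([1, 0, 0, 0, 0, -3, 2, 0, 0, 0, 6, -6, 6],
    [-2828, -2704, -2431, -2057, -1468, -687, 75, 718, 1361, 1983, 2468, 2742, 2828]),
  ([1, 0, 0, 0, 0, 0, -1, 0, 0, 0, 0, 6, 6],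
    [-2828, -2736, -2449, -1991, -1412, -749, 3, 744, 1416, 1988, 2450, 2736, 2828]),
  ([1, 0, 0, 0, 0, 0, -1, 3, 0, 0, 0, 0, 6],
    [-2828, -2742, -2443, -1976, -1435, -752, 25, 740, 1394, 2003, 2456, 2729, 2828]),
  ([1, 0, 0, 0, 0, 0, -1, 0, 3, 0, 0, 6, 0],
    [-2828, -2733, -2455, -1991, -1401, -761, 2, 756, 1405, 1988, 2456, 2732, 2828]),
  ([1, 0, 0, 0, 0, 0, -1, 0, 0, 3, 0, -6, 6],
    [-2828, -2737, -2446, -1992, -1416, -739, -10, 754, 1412, 1987, 2453, 2735, 2828]),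
  ([1, 0, 0, 0, 0, 0, -1, 0, 0, 3, 3, 0, 0],
    [-2828, -2737, -2447, -1991, -1417, -739, -8, 750, 1417, 1983, 2455, 2734, 2828]),
  ([1, 0, 0, 0, 0, 0, -1, 0, 0, 0, 0, 3, 6],
    [-2828, -2736, -2449, -1990, -1413, -747, 1, 745, 1415, 1989, 2450, 2736, 2828]),
  ([1, 0, 0, 0, 0, 0, -1, 0, 0, 0, 0, -3, -3],
    [-2828, -2736, -2450, -1989, -1415, -745, -1, 747, 1413, 1990, 2449, 2736, 2828])]

theorem ok12 : chkAll 12 2 dat12 [] = true := by decide +kernel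

theorem good12 (f : ℕ) (h2 : 2 ≤ f) (hf : f ≤ 12) (he : f ∉ ([] : List ℕ)) :
    Good 2 12 f :=
  good_of_chkAll (by norm_num) ok12 rfl h2 hf he

/-- coefficients and points for `g = 13`, `f = 2, 3, ...` -/
def dat13 : List (List ℤ × List ℤ) := [
  ([1, 0, -1, 0, 0, 0, 2, 0, -2, 0, 0, 0, 0, 6],
    [-2828, -2754, -2541, -2194, -1680, -1027, -336, 336, 1027, 1680, 2194, 2541, 2754, 2828]),
  ([1, 0, -1, 3, 0, -6, 2, 0, -14, 0, 6, -6, 18, 42],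
    [-2828, -2775, -2591, -2285, -1758, -990, -147, 577, 1123, 1592, 2005, 2483, 2766, 2828]),
  ([1, 0, -1, 0, 3, 0, -4, 0, 4, 0, -6, 0, 6, 6],
    [-2828, -2745, -2498, -2142, -1719, -1164, -418, 418, 1164, 1719, 2142, 2498, 2745, 2828]),
  ([1, 0, -1, 0, 0, -3, 2, 0, -2, 0, 6, -6, 6, 6],
    [-2828, -2729, -2526, -2224, -1727, -1034, -290, 378, 1022, 1634, 2162, 2560, 2775, 2828]),
  ([1, 0, -1, 0, 0, 0, -1, 0, 4, 0, 0, 0, 0, 6],
    [-2828, -2759, -2554, -2172, -1649, -1062, -376, 376, 1062, 1649, 2172, 2554, 2759, 2828]),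
  ([1, 0, -1, 0, 0, 0, 2, -3, -2, 6, 0, 0, 0, -18],
    [-2828, -2750, -2537, -2213, -1676, -999, -357, 317, 1053, 1685, 2175, 2545, 2758, 2828]),
  ([1, 0, -1, 0, 0, 0, -1, 0, 1, 0, 0, 0, 0, 6],
    [-2828, -2763, -2548, -2169, -1661, -1058, -367, 367, 1058, 1661, 2169, 2548, 2763, 2828]),
  ([1, 0, -1, 0, 0, 0, -1, 0, 1, 3, 0, 0, 0, 0],
    [-2828, -2766, -2544, -2171, -1664, -1052, -370, 364, 1065, 1657, 2167, 2552, 2761, 2828]),
  ([1, 0, -1, 0, 0, 0, -1, 0, 1, 0, 3, 0, 0, 6],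
    [-2828, -2763, -2550, -2166, -1662, -1060, -364, 364, 1060, 1662, 2166, 2550, 2763, 2828]),
  ([1, 0, -1, 0, 0, 0, -1, 0, 1, 0, 0, -3, 0, 12],
    [-2828, -2763, -2549, -2168, -1662, -1057, -367, 366, 1059, 1659, 2170, 2547, 2764, 2828]),
  ([1, 0, -1, 0, 0, 0, -1, 0, 1, 0, 0, 0, 3, 6],
    [-2828, -2763, -2548, -2169, -1661, -1058, -367, 367, 1058, 1661, 2169, 2548, 2763, 2828]),
  ([1, 0, -1, 0, 0, 0, -1, 0, 1, 0, 0, 0, 0, -3],
    [-2828, -2763, -2548, -2169, -1661, -1058, -367, 367, 1058, 1661, 2169, 2548, 2763, 2828])]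

theorem ok13 : chkAll 13 2 dat13 [] = true := by decide +kernel

theorem good13 (f : ℕ) (h2 : 2 ≤ f) (hf : f ≤ 13) (he : f ∉ ([] : List ℕ)) :
    Good 2 13 f :=
  good_of_chkAll (by norm_num) ok13 rfl h2 hf he

/-- coefficients and points for `g = 14`, `f = 2, 3, ...` -/
def dat14 : List (List ℤ × List ℤ) := [
  ([1, 0, 1, 0, -2, 0, -4, 0, 2, 0, 8, 0, 0, -6, -24],
    [-2828, -2768, -2563, -2170, -1639, -1097, -565, 2, 562, 1099, 1638, 2170, 2562, 2768, 2828]),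
  ([1, 0, 1, 3, -2, 6, 2, -6, 14, -6, 2, 18, -12, 12, 30],
    [-2828, -2789, -2648, -2277, -1673, -965, -431, 25, 627, 1212, 1658, 2076, 2459, 2726, 2828]),
  ([1, 0, 1, 0, 1, 0, 2, 0, 2, 0, 2, 0, 0, -6, 6],
    [-2828, -2740, -2507, -2165, -1714, -1175, -591, 1, 589, 1177, 1713, 2166, 2506, 2740, 2828]),
  ([1, 0, 1, 0, 1, 3, 2, 6, 2, 6, 8, 6, 18, 6, 48],
    [-2828, -2760, -2530, -2130, -1664, -1168, -615, -43, 559, 1189, 1762, 2199, 2485, 2715,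
      2828]),
  ([1, 0, 1, 0, 1, 0, -1, 0, -4, 0, -4, 0, 0, -6, 18],
    [-2828, -2754, -2510, -2131, -1704, -1197, -617, 1, 614, 1200, 1703, 2132, 2510, 2754, 2828]),
  ([1, 0, 1, 0, 1, 0, 2, 3, 2, 0, 2, 0, 0, 6, 6],
    [-2828, -2745, -2509, -2148, -1709, -1206, -592, 37, 587, 1145, 1718, 2182, 2504, 2735,
      2828]),
  ([1, 0, 1, 0, 1, 0, -1, 0, -1, 0, -4, 0, 0, -6, -6],
    [-2828, -2751, -2512, -2141, -1693, -1187, -637, 1, 635, 1190, 1692, 2142, 2511, 2751, 2828]),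
  ([1, 0, 1, 0, 1, 0, 2, 0, 2, -3, 2, -6, 0, -6, 6],
    [-2828, -2738, -2511, -2164, -1708, -1182, -591, 7, 588, 1169, 1719, 2167, 2501, 2742, 2828]),
  ([1, 0, 1, 0, 1, 0, 2, 0, 2, 0, -1, 0, 0, -6, -6],
    [-2828, -2741, -2504, -2166, -1717, -1169, -596, 1, 594, 1171, 1715, 2167, 2504, 2741, 2828]),
  ([1, 0, 1, 0, 1, 0, 2, 0, 2, 0, 2, -3, 0, 0, 6],
    [-2828, -2740, -2507, -2164, -1714, -1176, -587, -4, 593, 1175, 1713, 2167, 2505, 2740,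
      2828]),
  ([1, 0, 1, 0, 1, 0, 2, 0, 2, 0, 2, 0, 3, -6, 0],
    [-2828, -2740, -2507, -2164, -1715, -1173, -592, 1, 589, 1175, 1714, 2165, 2507, 2740, 2828]),
  ([1, 0, 1, 0, 1, 0, 2, 0, 2, 0, 2, 0, 3, 3, 0],
    [-2828, -2740, -2507, -2164, -1714, -1175, -590, -1, 591, 1174, 1715, 2164, 2507, 2740,
      2828]),
  ([1, 0, 1, 0, 1, 0, 2, 0, 2, 0, 2, 0, 3, -3, 9],
    [-2828, -2740, -2507, -2164, -1715, -1174, -591, 1, 590, 1175, 1714, 2164, 2507, 2740, 2828])]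

theorem ok14 : chkAll 14 2 dat14 [] = true := by decide +kernel

theorem good14 (f : ℕ) (h2 : 2 ≤ f) (hf : f ≤ 14) (he : f ∉ ([] : List ℕ)) :
    Good 2 14 f :=
  good_of_chkAll (by norm_num) ok14 rfl h2 hf he

/-- coefficients and points for `g = 15`, `f = 2, 3, ...` -/
def dat15 : List (List ℤ × List ℤ) := [
  ([1, 0, -3, 0, 6, 0, -8, 0, 6, 0, 0, 0, -8, 0, 12, 6],
    [-2828, -2778, -2626, -2386, -2074, -1653, -1062, -363, 363, 1062, 1653, 2074, 2386, 2626,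
      2778, 2828]),
  ([1, 0, 0, -3, 0, 0, 4, 0, 0, 0, 0, 0, -8, 0, -6, 30],
    [-2828, -2747, -2514, -2193, -1832, -1415, -949, -451, 135, 790, 1414, 1957, 2380, 2643,
      2782, 2828]),
  ([1, 0, 0, 0, 3, 0, -2, 0, 6, 0, -6, 0, 10, 0, -12, 6],
    [-2828, -2753, -2548, -2248, -1886, -1478, -1001, -361, 361, 1001, 1478, 1886, 2248, 2548,
      2753, 2828]),
  ([1, 0, 0, 0, 0, -3, -2, 0, 0, 0, 6, 6, 4, 0, 0, -18],
    [-2828, -2759, -2569, -2278, -1913, -1467, -899, -252, 368, 898, 1368, 1826, 2278, 2615,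
      2782, 2828]),
  ([1, 0, 0, 0, 0, 0, 1, 0, 0, 0, 0, 0, -2, 0, 6, 6],
    [-2828, -2764, -2580, -2294, -1902, -1414, -863, -285, 285, 863, 1414, 1902, 2294, 2580,
      2764, 2828]),
  ([1, 0, 0, 0, 0, 0, 1, 3, 0, 0, 0, 0, -2, 0, 6, 0],
    [-2828, -2769, -2582, -2279, -1894, -1434, -877, -266, 306, 846, 1395, 1909, 2310, 2577,
      2758, 2828]),
  ([1, 0, 0, 0, 0, 0, 1, 0, 3, 0, 0, 0, -2, 0, 0, 6],
    [-2828, -2760, -2581, -2303, -1897, -1402, -871, -298, 298, 871, 1402, 1897, 2303, 2581,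
      2760, 2828]),
  ([1, 0, 0, 0, 0, 0, 1, 0, 0, -3, 0, 0, -2, 0, -6, -6],
    [-2828, -2762, -2582, -2298, -1895, -1415, -870, -281, 293, 852, 1415, 1909, 2291, 2577,
      2766, 2828]),
  ([1, 0, 0, 0, 0, 0, 1, 0, 0, 0, -3, 0, -2, 0, 0, 6],
    [-2828, -2765, -2578, -2294, -1906, -1410, -862, -291, 291, 862, 1410, 1906, 2294, 2578,
      2765, 2828]),
  ([1, 0, 0, 0, 0, 0, 1, 0, 0, 0, 0, 3, -2, 0, 0, 0],
    [-2828, -2765, -2578, -2295, -1902, -1412, -865, -285, 287, 859, 1417, 1901, 2293, 2581,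
      2763, 2828]),
  ([1, 0, 0, 0, 0, 0, 1, 0, 0, 0, 0, 0, 1, 0, -6, 6],
    [-2828, -2764, -2581, -2293, -1902, -1415, -861, -288, 288, 861, 1415, 1902, 2293, 2581,
      2764, 2828]),
  ([1, 0, 0, 0, 0, 0, 1, 0, 0, 0, 0, 0, 1, 3, 0, 0],
    [-2828, -2764, -2580, -2293, -1902, -1415, -861, -288, 287, 862, 1414, 1903, 2292, 2581,
      2764, 2828]),
  ([1, 0, 0, 0, 0, 0, 1, 0, 0, 0, 0, 0, 1, 0, 3, 6],
    [-2828, -2764, -2581, -2293, -1903, -1414, -861, -287, 287, 861, 1414, 1903, 2293, 2581,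
      2764, 2828]),
  ([1, 0, 0, 0, 0, 0, 1, 0, 0, 0, 0, 0, 1, 0, -3, -3],
    [-2828, -2764, -2581, -2293, -1903, -1414, -861, -288, 288, 861, 1414, 1903, 2293, 2581,
      2764, 2828])]

theorem ok15 : chkAll 15 2 dat15 [] = true := by decide +kernel

theorem good15 (f : ℕ) (h2 : 2 ≤ f) (hf : f ≤ 15) (he : f ∉ ([] : List ℕ)) :
    Good 2 15 f :=
  good_of_chkAll (by norm_num) ok15 rfl h2 hf he

/-- coefficients and points for `g = 16`, `f = 2, 3, ...` -/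
def dat16 : List (List ℤ × List ℤ) := [
  ([1, 0, -1, 0, 0, 0, -2, 0, 2, 0, 0, 0, 4, 0, -4, -6, 6],
    [-2828, -2787, -2648, -2391, -2033, -1611, -1137, -599, 0, 600, 1137, 1612, 2033, 2391, 2648,
      2787, 2828]),
  ([1, 0, -1, -3, 0, 6, 4, 0, -10, -6, 0, 6, 16, 6, -4, -18, -24],
    [-2828, -2781, -2614, -2313, -1926, -1540, -1155, -744, -200, 426, 1073, 1687, 2177, 2473,
      2656, 2782, 2828]),
  ([1, 0, -1, 0, 3, 0, -2, 0, 2, 0, 0, 0, -2, 0, 2, -6, 0],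
    [-2828, -2768, -2600, -2354, -2054, -1685, -1208, -628, 0, 628, 1207, 1686, 2054, 2354, 2600,
      2769, 2828]),
  ([1, 0, -1, 0, 0, -3, -2, 6, 2, 0, 6, 6, -14, -12, 2, -12, -18],
    [-2828, -2785, -2628, -2368, -2048, -1677, -1184, -557, 86, 632, 1100, 1544, 2011, 2417,
      2668, 2787, 2828]),
  ([1, 0, -1, 0, 0, 0, 1, 0, 2, 0, 0, 0, -2, 0, 2, -6, 18],
    [-2828, -2776, -2637, -2408, -2059, -1615, -1116, -571, 0, 572, 1115, 1615, 2059, 2408, 2637,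
      2776, 2828]),
  ([1, 0, -1, 0, 0, 0, 1, -3, 2, 6, 0, 0, -2, -6, 8, -6, -12],
    [-2828, -2774, -2630, -2413, -2079, -1608, -1085, -575, -33, 568, 1146, 1622, 2039, 2402,
      2644, 2778, 2828]),
  ([1, 0, -1, 0, 0, 0, 1, 0, -1, 0, 0, 0, -2, 0, 2, -6, 6],
    [-2828, -2781, -2636, -2398, -2062, -1626, -1115, -559, 0, 560, 1114, 1626, 2061, 2398, 2635,
      2781, 2828]),
  ([1, 0, -1, 0, 0, 0, 1, 0, -1, -3, 0, 0, -2, 0, 2, 0, 6],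
    [-2828, -2778, -2638, -2402, -2056, -1623, -1121, -561, 8, 558, 1108, 1629, 2067, 2393, 2633,
      2783, 2828]),
  ([1, 0, -1, 0, 0, 0, 1, 0, -1, 0, 3, 0, -2, 0, 2, -6, 0],
    [-2828, -2779, -2638, -2398, -2058, -1628, -1118, -555, 0, 555, 1117, 1628, 2057, 2399, 2638,
      2779, 2828]),
  ([1, 0, -1, 0, 0, 0, 1, 0, -1, 0, 0, 3, -2, -6, 2, 0, 6],
    [-2828, -2781, -2635, -2397, -2064, -1623, -1115, -562, 4, 556, 1114, 1629, 2059, 2398, 2636,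
      2780, 2828]),
  ([1, 0, -1, 0, 0, 0, 1, 0, -1, 0, 0, 0, 1, 0, 2, -6, 0],
    [-2828, -2780, -2637, -2397, -2062, -1627, -1113, -560, 0, 561, 1113, 1627, 2062, 2397, 2636,
      2780, 2828]),
  ([1, 0, -1, 0, 0, 0, 1, 0, -1, 0, 0, 0, 1, -3, 2, 0, 0],
    [-2828, -2780, -2637, -2396, -2062, -1627, -1113, -561, 1, 560, 1113, 1627, 2061, 2397, 2636,
      2780, 2828]),
  ([1, 0, -1, 0, 0, 0, 1, 0, -1, 0, 0, 0, 1, 0, -1, 6, 6],
    [-2828, -2780, -2636, -2397, -2061, -1627, -1113, -561, 0, 560, 1113, 1627, 2061, 2397, 2636,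
      2780, 2828]),
  ([1, 0, -1, 0, 0, 0, 1, 0, -1, 0, 0, 0, 1, 0, -1, 3, 6],
    [-2828, -2780, -2636, -2397, -2061, -1627, -1113, -561, 0, 560, 1113, 1627, 2061, 2397, 2636,
      2780, 2828]),
  ([1, 0, -1, 0, 0, 0, 1, 0, -1, 0, 0, 0, 1, 0, -1, -3, -3],
    [-2828, -2780, -2636, -2397, -2061, -1627, -1113, -560, 0, 561, 1113, 1627, 2061, 2397, 2636,
      2780, 2828])]

theorem ok16 : chkAll 16 2 dat16 [] = true := by decide +kernel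

theorem good16 (f : ℕ) (h2 : 2 ≤ f) (hf : f ≤ 16) (he : f ∉ ([] : List ℕ)) :
    Good 2 16 f :=
  good_of_chkAll (by norm_num) ok16 rfl h2 hf he

end Pool.Agent.U774.WT
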