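import Pool.Agent.R80.WF.XG

/-!
# Ordinary Weil polynomials of degree four for every prime `p` (MP_e32a7e_nt)
-/

set_option autoImplicit false

namespace Pool.Agent.U774.WT

open Polynomial Pool.Agent.R80.WF

/-- `X ^ 2 + X + 1 - 2 p` -/
noncomputable def h22 (p : ℕ) : ℤ[X] := X ^ 2 + X + C (1 - 2 * (p : ℤ))

theorem h22_monic (p : ℕ) : (h22 p).Monic ∧ (h22 p).natDegree = 2 := by
  constructor
  · unfold h22; monicity!
  · unfold h22; compute_degree!

theorem h22_irr (p : ℕ) : Irreducible (h22 p) := by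
  obtain ⟨hm, hd⟩ := h22_monic p
  rw [hm.irreducible_iff_roots_eq_zero_of_degree_le_three (by rw [hd]) (by rw [hd]; norm_num)]
  rw [Multiset.eq_zero_iff_forall_notMem]
  intro a ha
  rw [mem_roots hm.ne_zero, IsRoot.def] at ha
  simp only [h22, eval_add, eval_pow, eval_X, eval_C] at ha
  have h1 : Even (a * (a + 1)) := Int.even_mul_succ_self a
  obtain ⟨k, hk⟩ := h1
  have : a * (a + 1) = a ^ 2 + a := by ring
  omega

theorem pp22 (p : ℕ) : PP p 2 (fun _ => 1) = X ^ 4 + X ^ 3 + X ^ 2 + C (p : ℤ) * X + C (p : ℤ) ^ 2 := by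
  simp [PP, Finset.sum_range_succ]
  ring

theorem rel22 {p : ℕ} {x x' : ℂ} (h : x * x' = p) :
    aeval x (PP p 2 (fun _ => 1)) = x ^ 2 * aeval (x + x') (h22 p) := by
  rw [pp22, h22]
  simp only [map_add, map_mul, map_pow, aeval_X, aeval_C]
  simp only [algebraMap_int_eq, eq_intCast]
  push_cast
  rw [← h]
  ring

theorem not_int_rat {p : ℕ} (hp : p.Prime) {m : ℤ} (hm : ¬ (p : ℤ) ∣ m) {z : ℂ}
    (hz : IsIntegral ℤ z) (h : z * p = m) : False := by
  have hp0 : (p : ℚ) ≠ 0 := by exact_mod_cast hp.ne_zero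
  have hp0' : (p : ℂ) ≠ 0 := by exact_mod_cast hp.ne_zero
  have h1 : z = algebraMap ℚ ℂ ((m : ℚ) / p) := by
    rw [eq_ratCast]
    push_cast
    rw [eq_div_iff hp0']
    exact h
  rw [h1] at hz
  have h2 : IsIntegral ℤ ((m : ℚ) / p) := (isIntegral_algebraMap_iff (algebraMap ℚ ℂ).injective).1 hz
  obtain ⟨k, hk⟩ := IsIntegrallyClosed.isIntegral_iff.1 h2
  have hk' : (k : ℚ) = (m : ℚ) / p := hk
  rw [eq_div_iff hp0] at hk'
  apply hm
  exact ⟨k, by rw [mul_comm]; exact_mod_cast hk'.symm⟩

theorem nd22 {p : ℕ} (hp : p.Prime) {x y : ℂ} (hx : aeval x (PP p 2 (fun _ => 1)) = 0)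
    (hy : aeval y (PP p 2 (fun _ => 1)) = 0) {n : ℕ} (hn : 1 ≤ n) (hxy : x ^ n = y ^ n) : x = y := by
  have hp0' : (p : ℂ) ≠ 0 := by exact_mod_cast hp.ne_zero
  have hne : ∀ z : ℂ, aeval z (PP p 2 (fun _ => 1)) = 0 → z ≠ 0 := by
    rintro z hz rfl
    rw [pp22] at hz
    simp at hz
    exact hp.ne_zero hz
  have hx0 := hne x hx
  have hy0 := hne y hy
  set x' := (p : ℂ) / x with hx'
  set y' := (p : ℂ) / y with hy'
  have hxx : x * x' = p := mul_div_cancel₀ _ hx0
  have hyy : y * y' = p := mul_div_cancel₀ _ hy0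
  have hroot : ∀ z z' : ℂ, z * z' = p → z ≠ 0 → aeval z (PP p 2 (fun _ => 1)) = 0 →
      (z + z') ^ 2 + (z + z') + (1 - 2 * p) = 0 := by
    intro z z' hzz hz0 hz
    rw [rel22 hzz] at hz
    rcases mul_eq_zero.1 hz with h | h
    · exact absurd h (pow_ne_zero _ hz0)
    · simp only [h22, map_add, map_pow, aeval_X, aeval_C] at h
      simp only [algebraMap_int_eq, eq_intCast] at h
      push_cast at h
      exact h
  have ht := hroot x x' hxx hx0 hx
  have hu := hroot y y' hyy hy0 hy
  set t := x + x' with htd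
  set u := y + y' with hud
  set ζ := y / x with hζ
  have hζn : ζ ^ n = 1 := by rw [hζ, div_pow, hxy, div_self (pow_ne_zero _ hy0)]
  have hζ0 : ζ ≠ 0 := div_ne_zero hy0 hx0
  have hζi : IsIntegral ℤ ζ := ⟨X ^ n - 1, monic_X_pow_sub_C 1 (by omega), by simp [hζn]⟩
  have hζi' : IsIntegral ℤ ζ⁻¹ :=
    ⟨X ^ n - 1, monic_X_pow_sub_C 1 (by omega), by simp [hζn]⟩
  have hti : IsIntegral ℤ t := by
    refine ⟨h22 p, (h22_monic p).1, ?_⟩
    rw [← aeval_def]
    simp only [h22, map_add, map_pow, aeval_X, aeval_C]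
    simp only [algebraMap_int_eq, eq_intCast]
    push_cast
    exact ht
  have hyx : y = ζ * x := by rw [hζ, div_mul_cancel₀ _ hx0]
  have hfac : (t - u) * (t + u + 1) = 0 := by linear_combination ht - hu
  by_contra hne'
  rcases mul_eq_zero.1 hfac with h1 | h1
  · -- `y = p / x`
    have h2 : (y - x) * (y - x') = 0 := by
      have h3 : y ^ 2 - u * y + p = 0 := by rw [hud, ← hyy]; ring
      have h4 : u = t := (sub_eq_zero.1 h1).symm
      rw [h4, htd] at h3
      linear_combination h3 + hxx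
    have h5 : y = x' := by
      rcases mul_eq_zero.1 h2 with h6 | h6
      · exact absurd (sub_eq_zero.1 h6).symm hne'
      · exact sub_eq_zero.1 h6
    -- `t ^ 2 = p (ζ + ζ⁻¹ + 2)`
    have h6 : t ^ 2 = p * (ζ + ζ⁻¹ + 2) := by
      rw [htd, hζ, h5, inv_div, ← hxx]
      field_simp
      have hx'0 : x' ≠ 0 := by rw [← h5]; exact hy0
      field_simp
      ring
    have h7 : IsIntegral ℤ ((2 - (ζ + ζ⁻¹ + 2)) * t) :=
      (((isIntegral_algebraMap (R := ℤ) (x := 2)).sub ((hζi.add hζi').add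
        (isIntegral_algebraMap (R := ℤ) (x := 2)))).mul hti)
    -- `(t + 1) t = 2 p - 1`, `t + 1 = p (2 - (ζ + ζ⁻¹ + 2))`
    refine not_int_rat hp (m := 2 * p - 1) ?_ h7 ?_
    · intro h8
      have h9 : (p : ℤ) ∣ 1 := by
        have := dvd_sub (dvd_mul_left (p : ℤ) 2) h8
        simpa using this
      have := Int.eq_one_of_dvd_one (by positivity) h9
      exact hp.one_lt.ne' (by exact_mod_cast this)
    · push_cast
      linear_combination t * h6 + (1 - t) * ht
  · -- the other pair
    have hu' : u = -1 - t := by linear_combination h1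
    set β := ζ + ζ⁻¹ with hβ
    have hβi : IsIntegral ℤ β := hζi.add hζi'
    have h2 : (p : ℂ) * β ^ 2 + (2 * p - 1) * β - 1 = 0 := by
      -- `A + p β = t u`, `A (p β) = p (t ^ 2 + u ^ 2 - 4 p)`
      have hB : x * y' + x' * y = p * β := by
        rw [hβ, hζ, hx', hy', inv_div]
        field_simp
        ring
      have hAB : (x * y + x' * y') * (x * y' + x' * y) =
          p * ((x + x') ^ 2 + (y + y') ^ 2 - 4 * p) := by
        have e1 : (x * y + x' * y') * (x * y' + x' * y) =
            (y * y') * (x ^ 2 + x' ^ 2) + (x * x') * (y ^ 2 + y' ^ 2) := by ring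
        rw [e1, hxx, hyy]
        linear_combination (-2 : ℂ) * p * hxx - 2 * p * hyy
      have hApB : (x * y + x' * y') + (x * y' + x' * y) = t * u := by
        rw [htd, hud]; ring
      have hA : x * y + x' * y' = t * u - p * β := by rw [← hApB, ← hB]; ring
      rw [hA, hB, ← htd, ← hud, hu'] at hAB
      have h3 : (p : ℂ) * ((p : ℂ) * β ^ 2 + (2 * p - 1) * β - 1) = 0 := by
        linear_combination (-1 : ℂ) * hAB - (p * β + 2 * p) * ht
      rcases mul_eq_zero.1 h3 with h4 | h4
      · exact absurd h4 hp0'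
      · exact h4
    -- `β` is integral: contradiction
    set F : ℤ[X] := C (p : ℤ) * X ^ 2 + C (2 * (p : ℤ) - 1) * X - 1 with hF
    have hFβ : aeval β F = 0 := by
      rw [hF]
      simp only [map_add, map_sub, map_mul, map_pow, aeval_X, aeval_C, map_one]
      simp only [algebraMap_int_eq, eq_intCast]
      push_cast
      linear_combination h2
    have hdv : minpoly ℤ β ∣ F := minpoly.isIntegrallyClosed_dvd hβi hFβ
    obtain ⟨R, hR⟩ := hdv
    have hqm := minpoly.monic hβi
    have hqd := minpoly.natDegree_pos hβi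
    have hF2 : F.coeff 2 = p := by
      rw [hF]
      simp [coeff_one]
    have hFd : F.natDegree = 2 := by
      have h5 : F.natDegree ≤ 2 := by rw [hF]; compute_degree
      refine le_antisymm h5 (le_natDegree_of_ne_zero ?_)
      rw [hF2]
      exact_mod_cast hp.ne_zero
    have hR0 : R ≠ 0 := by
      rintro rfl
      rw [mul_zero] at hR
      rw [hR, natDegree_zero] at hFd
      omega
    have hdeg : (minpoly ℤ β).natDegree + R.natDegree = 2 := by
      rw [← hFd, hR, hqm.natDegree_mul' hR0]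
    have hF0 : F.coeff 0 = -1 := by rw [hF]; simp
    have hc0 : (minpoly ℤ β).coeff 0 * R.coeff 0 = -1 := by
      rw [← mul_coeff_zero, ← hR, hF0]
    have hcases : (minpoly ℤ β).natDegree = 2 ∨ (minpoly ℤ β).natDegree = 1 := by omega
    rcases hcases with hq | hq
    · -- `R` is the constant `p`
      have hRd : R.natDegree = 0 := by omega
      have hR' := eq_C_of_natDegree_eq_zero hRd
      have h3 : F.coeff 2 = R.coeff 0 := by
        rw [hR, hR', coeff_mul_C]
        have : (minpoly ℤ β).coeff 2 = 1 := by rw [← hq]; exact hqm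
        rw [this, one_mul]
        simp
      rw [hF2] at h3
      rw [← h3] at hc0
      have h9 : (p : ℤ) ∣ 1 := ⟨-(minpoly ℤ β).coeff 0, by linarith⟩
      have := Int.eq_one_of_dvd_one (by positivity) h9
      exact hp.one_lt.ne' (by exact_mod_cast this)
    · -- an integral root
      set b := -(minpoly ℤ β).coeff 0 with hb
      have hq' : minpoly ℤ β = X - C b := by
        have := hqm.eq_X_add_C hq
        rw [this, hb, C_neg, sub_neg_eq_add]
      have hFb : F.eval b = 0 := by
        rw [hR, eval_mul, hq']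
        simp
      rw [hF] at hFb
      simp only [eval_add, eval_sub, eval_mul, eval_C, eval_pow, eval_X, eval_one] at hFb
      have h3 : b ∣ 1 := ⟨(p : ℤ) * b + (2 * p - 1), by linarith⟩
      have hp2 := hp.two_le
      have hp2' : (2 : ℤ) ≤ p := by exact_mod_cast hp2
      rcases Int.isUnit_iff.1 (isUnit_of_dvd_one h3) with h4 | h4
      · rw [h4] at hFb
        linarith
      · rw [h4] at hFb
        linarith

theorem goodTwoTwo {p : ℕ} (hp : p.Prime) : Good p 2 2 := by
  have hp0 : (0 : ℝ) < p := by exact_mod_cast hp.pos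
  have hp2 : (2 : ℝ) ≤ p := by exact_mod_cast hp.two_le
  set r := Real.sqrt (8 * p - 3) with hr
  have hr2 : r ^ 2 = 8 * p - 3 := Real.sq_sqrt (by linarith)
  have hr0 : 0 < r := Real.sqrt_pos.2 (by linarith)
  obtain ⟨hm', hd'⟩ := h22_monic p
  have hm : (PP p 2 (fun _ => 1)).Monic := monic_PP (by norm_num) rfl
  have hd : (PP p 2 (fun _ => 1)).natDegree = 2 * 2 := natDegree_PP (by norm_num) rfl
  -- the two real roots
  have hev : ∀ s : ℝ, aeval s (h22 p) = s ^ 2 + s + (1 - 2 * p) := by
    intro s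
    simp only [h22, map_add, map_pow, aeval_X, aeval_C]
    simp
  set S : Finset ℝ := {(-1 + r) / 2, (-1 - r) / 2} with hS
  have hScard : S.card = 2 := by
    rw [hS]
    apply Finset.card_pair
    intro h
    linarith
  have hSroot : ∀ s ∈ S, aeval s (h22 p) = 0 := by
    intro s hs
    rw [hev]
    rw [hS, Finset.mem_insert, Finset.mem_singleton] at hs
    rcases hs with rfl | rfl <;> linear_combination (1 / 4 : ℝ) * hr2
  -- `2 r < 8 p - 2`... gives `s ^ 2 < 4 p`
  have hrlt : r < 4 * p - 1 := by nlinarith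
  have hSlt : ∀ s ∈ S, s ^ 2 < 4 * p := by
    intro s hs
    have hq : (1 + r) ^ 2 < 16 * p := by nlinarith [sq_nonneg (r - 2)]
    rw [hS, Finset.mem_insert, Finset.mem_singleton] at hs
    rcases hs with rfl | rfl <;> nlinarith
  have hne : ∀ z : ℂ, aeval z (PP p 2 (fun _ => 1)) = 0 → z ≠ 0 := by
    rintro z hz rfl
    rw [pp22] at hz
    simp at hz
    exact hp.ne_zero hz
  have hnorm : ∀ x : ℂ, aeval x (PP p 2 (fun _ => 1)) = 0 → ‖x‖ = Real.sqrt p := by
    intro x hx
    have hx0 := hne x hx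
    have hxx : x * ((p : ℂ) / x) = p := mul_div_cancel₀ _ hx0
    refine xg_norm_of_roots hp.one_le hm' hd' S hScard hSroot (fun s hs => (hSlt s hs).le) x _ hxx ?_
    rw [rel22 hxx] at hx
    rcases mul_eq_zero.1 hx with h | h
    · exact absurd h (pow_ne_zero _ hx0)
    · exact h
  have hreal : ∀ x : ℂ, aeval x (PP p 2 (fun _ => 1)) = 0 → x ^ 2 ≠ p := by
    intro x hx hx2
    have hx0 := hne x hx
    have hxx : x * x = p := by rw [← sq]; exact hx2
    have h1 : aeval (x + x) (h22 p) = 0 := by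
      rw [rel22 hxx] at hx
      rcases mul_eq_zero.1 hx with h | h
      · exact absurd h (pow_ne_zero _ hx0)
      · exact h
    simp only [h22, map_add, map_pow, aeval_X, aeval_C] at h1
    simp only [algebraMap_int_eq, eq_intCast] at h1
    push_cast at h1
    -- `2 p + 1 + 2 x = 0`
    have h2 : x = -((2 * p + 1 : ℝ) : ℂ) / 2 := by
      push_cast
      linear_combination (1 / 2 : ℂ) * h1 - 2 * hxx
    have h3 : (((2 * p + 1) ^ 2 / 4 : ℝ) : ℂ) = ((p : ℝ) : ℂ) := by
      rw [h2] at hx2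
      push_cast at hx2 ⊢
      linear_combination hx2
    have h4 : ((2 * p + 1) ^ 2 / 4 : ℝ) = p := by exact_mod_cast h3
    nlinarith
  refine ⟨PP p 2 (fun _ => 1), hm, hd,
    Pool.Agent.Y676.WP.irreducible_of_real2 hp (by norm_num) hm hd hm' hd' (h22_irr p)
      (fun x x' h => rel22 h) hreal hnorm, hnorm, ?_, ?_, ?_⟩
  · intro i hi
    have hi' : i < 2 := by omega
    rw [coeff_PP, if_pos hi']
    exact Dvd.dvd.mul_right (dvd_pow_self _ (by omega)) _
  · rw [coeff_PP, if_neg (by norm_num), if_pos (by norm_num)]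
    intro h
    have := Int.eq_one_of_dvd_one (by positivity) h
    exact hp.one_lt.ne' (by exact_mod_cast this)
  · intro x hx n hn
    exact Pool.Agent.TH343.PR.adjoin_pow_eq hm
      (fun x y hx hy n hn hxy => nd22 hp hx hy hn hxy) hx hn

end Pool.Agent.U774.WT
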