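import Mathlib

/-!
# Irreducibility of a Weil `2`-polynomial which is `(X ^ 2 - 1) ^ g` modulo 3 (MP_e32a7e_nt)
-/

set_option autoImplicit false

namespace Pool.Agent.U774.WT

open Polynomial

/-- a real polynomial with all roots of absolute value `√2` -/
theorem eval_two {A : ℤ[X]} (hA : A.Monic)
    (hroot : ∀ x : ℂ, aeval x A = 0 → ‖x‖ = Real.sqrt 2) :
    A.eval 2 = A.eval 0 * A.eval 1 := by
  set q := A.map (Int.castRingHom ℂ) with hq
  have hqm : q.Monic := hA.map _
  have hqs : q.Splits := IsAlgClosed.splits q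
  have hev : ∀ z : ℂ, q.eval z = (q.roots.map (fun a => z - a)).prod := by
    intro z
    exact hqs.eval_eq_prod_roots_of_monic hqm z
  have hnorm : ∀ y ∈ q.roots, y * starRingEnd ℂ y = 2 := by
    intro y hy
    have h1 : aeval y A = 0 := by
      rw [mem_roots hqm.ne_zero, IsRoot.def, hq, eval_map] at hy
      exact hy
    rw [Complex.mul_conj, Complex.normSq_eq_norm_sq, hroot y h1, Real.sq_sqrt (by norm_num)]
    norm_num
  have hint : ∀ z : ℤ, q.eval (z : ℂ) = ((A.eval z : ℤ) : ℂ) := by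
    intro z
    rw [hq, eval_intCast_map]
    simp
  have h0 := hint 0
  have h1 := hint 1
  have h2 := hint 2
  have hkey : q.eval 2 = q.eval 0 * starRingEnd ℂ (q.eval 1) := by
    rw [hev, hev, hev, map_multiset_prod, Multiset.map_map, ← Multiset.prod_map_mul]
    congr 1
    refine Multiset.map_congr rfl fun y hy => ?_
    have h3 := hnorm y hy
    simp only [Function.comp_apply, map_sub, map_one]
    linear_combination -h3
  have h0' : q.eval 0 = ((A.eval 0 : ℤ) : ℂ) := by simpa using h0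
  have h1' : q.eval 1 = ((A.eval 1 : ℤ) : ℂ) := by simpa using h1
  have h2' : q.eval 2 = ((A.eval 2 : ℤ) : ℂ) := by simpa using h2
  rw [h0', h1', h2', map_intCast] at hkey
  exact_mod_cast hkey

theorem three_iff (a : ℤ) : (3 : ℤ) ∣ a ↔ ((a : ℤ) : ZMod 3) = 0 :=
  (ZMod.intCast_zmod_eq_zero_iff_dvd a 3).symm

theorem two_eq : ((2 : ℤ) : ZMod 3) = -1 := by decide

theorem irr3 {P : ℤ[X]} {g : ℕ} (hg : 1 ≤ g) (hPm : P.Monic) (hPd : P.natDegree = 2 * g)
    (hP : P.map (Int.castRingHom (ZMod 3)) = (X ^ 2 - 1) ^ g)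
    (hroot : ∀ x : ℂ, aeval x P = 0 → ‖x‖ = Real.sqrt 2) (h9 : ¬ (9 : ℤ) ∣ P.eval 1) :
    Irreducible (P.map (Int.castRingHom ℚ)) := by
  have : Fact (Nat.Prime 3) := ⟨by norm_num⟩
  refine (hPm.irreducible_iff_irreducible_map_fraction_map (K := ℚ)).1 ?_
  have h0 : ¬ (3 : ℤ) ∣ P.eval 0 := by
    rw [three_iff]
    have h1 : ((P.eval 0 : ℤ) : ZMod 3) = (P.map (Int.castRingHom (ZMod 3))).eval 0 := by
      have := eval_intCast_map (Int.castRingHom (ZMod 3)) P 0
      simpa using this.symm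
    rw [h1, hP]
    simp
  -- every nonconstant monic factor is divisible by 3 at 1
  have key : ∀ A : ℤ[X], A.Monic → A ∣ P → A ≠ 1 → (3 : ℤ) ∣ A.eval 1 := by
    intro A hA hAP hA1
    have hAroot : ∀ x : ℂ, aeval x A = 0 → ‖x‖ = Real.sqrt 2 := by
      intro x hx
      apply hroot
      obtain ⟨B, rfl⟩ := hAP
      rw [map_mul, hx, zero_mul]
    have h2 := eval_two hA hAroot
    have hA0 : ¬ (3 : ℤ) ∣ A.eval 0 := by
      intro h
      apply h0
      obtain ⟨B, rfl⟩ := hAP
      rw [eval_mul]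
      exact Dvd.dvd.mul_right h _
    have hmod : A.map (Int.castRingHom (ZMod 3)) ∣ (X ^ 2 - 1) ^ g := by
      rw [← hP]
      exact Polynomial.map_dvd _ hAP
    have hdeg : (A.map (Int.castRingHom (ZMod 3))).natDegree = A.natDegree := hA.natDegree_map _
    have hAd : A.natDegree ≠ 0 := fun h => hA1 (hA.natDegree_eq_zero.1 h)
    obtain ⟨Q, hQirr, hQ⟩ := exists_irreducible_of_natDegree_ne_zero (hdeg ▸ hAd)
    have hQp : Prime Q := hQirr.prime
    have h3 : Q ∣ (X - 1) * (X + 1) := by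
      have h4 := hQp.dvd_of_dvd_pow (hQ.trans hmod)
      have h5 : (X ^ 2 - 1 : (ZMod 3)[X]) = (X - 1) * (X + 1) := by ring
      rwa [h5] at h4
    have hcast : ∀ z : ℤ, ((A.eval z : ℤ) : ZMod 3) =
        (A.map (Int.castRingHom (ZMod 3))).eval (z : ZMod 3) := by
      intro z
      rw [eval_intCast_map]
      simp
    have hroot' : ∀ z : ℤ, Q ∣ X - C (z : ZMod 3) → (3 : ℤ) ∣ A.eval z := by
      intro z hz
      rw [three_iff, hcast]
      have h6 : Associated Q (X - C (z : ZMod 3)) :=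
        hQirr.associated_of_dvd (irreducible_X_sub_C _) hz
      have h7 : (X - C (z : ZMod 3)) ∣ A.map (Int.castRingHom (ZMod 3)) := h6.symm.dvd.trans hQ
      exact dvd_iff_isRoot.1 h7
    rcases hQp.dvd_or_dvd h3 with h4 | h4
    · exact hroot' 1 (by simpa using h4)
    · have h5 : (3 : ℤ) ∣ A.eval 2 := by
        refine hroot' 2 ?_
        have h6 : (X - C ((2 : ℤ) : ZMod 3) : (ZMod 3)[X]) = X + 1 := by
          rw [two_eq, C_neg, sub_neg_eq_add, C_1]
        rw [h6]
        exact h4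
      rw [h2] at h5
      rcases (Int.prime_three).dvd_or_dvd h5 with h6 | h6
      · exact absurd h6 hA0
      · exact h6
  rw [hPm.irreducible_iff_natDegree']
  refine ⟨?_, ?_⟩
  · intro h
    rw [h, natDegree_one] at hPd
    omega
  · intro A B hA hB hAB hmem
    rw [Finset.mem_Ioc] at hmem
    apply h9
    have hA1 : A ≠ 1 := by
      rintro rfl
      rw [one_mul] at hAB
      rw [hAB] at hmem
      omega
    have hB1 : B ≠ 1 := by
      rintro rfl
      rw [natDegree_one] at hmem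
      omega
    have h1 := key A hA ⟨B, hAB.symm⟩ hA1
    have h2 := key B hB ⟨A, by rw [← hAB, mul_comm]⟩ hB1
    rw [← hAB, eval_mul]
    have : (9 : ℤ) = 3 * 3 := by norm_num
    rw [this]
    exact mul_dvd_mul h1 h2

end Pool.Agent.U774.WT
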