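import Pool.Agent.U774.WT.Gen

/-!
# Conjugates differing by roots of unity when `P = (X ^ 2 - 1) ^ g` modulo 3 (MP_e32a7e_nt)
-/

set_option autoImplicit false

namespace Pool.Agent.U774.WT

open Polynomial

/-- a polynomial over `ℤ` vanishing mod 3 is divisible by 3 -/
theorem three_dvd (F : ℤ[X]) (h : F.map (Int.castRingHom (ZMod 3)) = 0) :
    ∃ R : ℤ[X], F = C 3 * R := by
  have : C 3 ∣ F := by
    rw [C_dvd_iff_dvd_coeff]
    intro i
    have h1 := congrArg (fun G => coeff G i) h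
    simp only [coeff_map, coeff_zero, eq_intCast] at h1
    exact_mod_cast (ZMod.intCast_zmod_eq_zero_iff_dvd (F.coeff i) 3).1 h1
  exact this

theorem modthree (P : ℤ[X]) (g t : ℕ) (hg : g ≤ 3 ^ t)
    (hP : P.map (Int.castRingHom (ZMod 3)) = (X ^ 2 - 1) ^ g) :
    ∃ R : ℤ[X], X ^ (2 * 3 ^ t) - 1 = P * (X ^ 2 - 1) ^ (3 ^ t - g) + C 3 * R := by
  obtain ⟨R, hR⟩ := three_dvd (X ^ (2 * 3 ^ t) - 1 - P * (X ^ 2 - 1) ^ (3 ^ t - g)) (by
    have : Fact (Nat.Prime 3) := ⟨by norm_num⟩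
    simp only [Polynomial.map_sub, Polynomial.map_mul, hP, Polynomial.map_pow, Polynomial.map_X,
      Polynomial.map_one]
    rw [← pow_add, Nat.add_sub_cancel' hg, sub_pow_char_pow, one_pow, ← pow_mul, sub_self])
  exact ⟨R, by rw [← hR]; ring⟩

/-- a root of unity congruent to one mod three -/
theorem unit_three (ξ w : ℂ) (k : ℕ) (hk : 1 ≤ k) (hξ : ξ ^ k = 1) (hw : IsIntegral ℤ w)
    (h : ξ - 1 = 3 * w) : ξ = 1 := by
  have hfin : IsOfFinOrder ξ := isOfFinOrder_iff_pow_eq_one.2 ⟨k, hk, hξ⟩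
  have hr0 : 0 < orderOf ξ := hfin.orderOf_pos
  obtain ⟨r, hr⟩ : ∃ r, orderOf ξ = r + 1 := ⟨orderOf ξ - 1, by omega⟩
  have hprim : IsPrimitiveRoot ξ (r + 1) := hr ▸ IsPrimitiveRoot.orderOf ξ
  have hprod := hprim.prod_one_sub_pow_eq_order
  have hξi : IsIntegral ℤ ξ := by
    have : ξ = 1 + 3 * w := by linear_combination h
    rw [this]
    exact isIntegral_one.add ((isIntegral_algebraMap (R := ℤ) (x := 3)).mul hw)
  have hk' : ∀ j : ℕ, ∃ v : ℂ, IsIntegral ℤ v ∧ 1 - ξ ^ (j + 1) = 3 * v := by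
    intro j
    refine ⟨-w * ∑ i ∈ Finset.range (j + 1), ξ ^ i, ?_, ?_⟩
    · exact hw.neg.mul (IsIntegral.sum _ fun i _ => hξi.pow i)
    · have h1 := geom_sum_mul ξ (j + 1)
      linear_combination h1 - (∑ i ∈ Finset.range (j + 1), ξ ^ i) * h
  choose v hv1 hv2 using hk'
  have hprod2 : (3 : ℂ) ^ r * ∏ j ∈ Finset.range r, v j = r + 1 := by
    rw [← hprod]
    simp only [hv2]
    rw [Finset.prod_mul_distrib, Finset.prod_const, Finset.card_range]
  have hint : IsIntegral ℤ (∏ j ∈ Finset.range r, v j) := IsIntegral.prod _ fun j _ => hv1 j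
  have hval : ∏ j ∈ Finset.range r, v j = algebraMap ℚ ℂ (((r : ℚ) + 1) / 3 ^ r) := by
    have h2 : (3 : ℂ) ^ r ≠ 0 := pow_ne_zero _ three_ne_zero
    rw [eq_ratCast]
    push_cast
    rw [eq_div_iff h2, ← hprod2]
    ring
  rw [hval] at hint
  have hint2 : IsIntegral ℤ (((r : ℚ) + 1) / 3 ^ r) :=
    (isIntegral_algebraMap_iff (algebraMap ℚ ℂ).injective).1 hint
  obtain ⟨z, hz⟩ := IsIntegrallyClosed.isIntegral_iff.1 hint2
  have hz' : (r : ℚ) + 1 = z * 3 ^ r := by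
    have : (z : ℚ) = ((r : ℚ) + 1) / 3 ^ r := hz
    rw [this]; field_simp
  have hz'' : (r : ℤ) + 1 = z * 3 ^ r := by exact_mod_cast hz'
  have hzpos : 1 ≤ z := by
    by_contra hcon
    push Not at hcon
    have : z ≤ 0 := by omega
    have h3 : (0 : ℤ) < 3 ^ r := by positivity
    nlinarith
  have hle : (3 : ℤ) ^ r ≤ r + 1 := by
    rw [hz'']
    have h3 : (0 : ℤ) < 3 ^ r := by positivity
    nlinarith
  have hr1 : r = 0 := by
    by_contra hcon
    have h4 : ∀ m : ℕ, (m : ℤ) + 1 + 1 < 3 ^ (m + 1) := by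
      intro m
      induction m with
      | zero => norm_num
      | succ m ih =>
        rw [pow_succ]
        push_cast
        linarith
    have h5 := h4 (r - 1)
    have h6 : r - 1 + 1 = r := by omega
    rw [h6] at h5
    have h7 : ((r - 1 : ℕ) : ℤ) = (r : ℤ) - 1 := by omega
    rw [h7] at h5
    linarith
  subst hr1
  have h8 := pow_orderOf_eq_one ξ
  rw [hr, pow_one] at h8
  exact h8

theorem conj_pow3 (P : ℤ[X]) (g t : ℕ) (hPm : P.Monic) (hg : g ≤ 3 ^ t)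
    (hP : P.map (Int.castRingHom (ZMod 3)) = (X ^ 2 - 1) ^ g) (x y : ℂ) (hx : aeval x P = 0)
    (hy : aeval y P = 0) (hx0 : x ≠ 0) (n : ℕ) (hn : 1 ≤ n) (hxy : y ^ n = x ^ n) :
    (y / x) ^ (2 * 3 ^ t) = 1 := by
  obtain ⟨R, hR⟩ := modthree P g t hg hP
  have hxi : IsIntegral ℤ x := ⟨P, hPm, hx⟩
  have hyi : IsIntegral ℤ y := ⟨P, hPm, hy⟩
  have key : ∀ z : ℂ, aeval z P = 0 → z ^ (2 * 3 ^ t) - 1 = 3 * aeval z R := by
    intro z hz
    have h1 := congrArg (aeval z) hR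
    simp only [map_sub, map_add, map_mul, map_pow, aeval_X, map_one, hz, zero_mul, zero_add,
      aeval_C] at h1
    rw [h1]
    norm_num
  have hint : ∀ z : ℂ, IsIntegral ℤ z → IsIntegral ℤ (aeval z R) := by
    intro z hz
    rw [aeval_eq_sum_range]
    exact IsIntegral.sum _ fun i _ => (hz.pow i).smul _
  set ξ : ℂ := (y / x) ^ (2 * 3 ^ t) with hξ
  have hx' : x ^ (2 * 3 ^ t) ≠ 0 := pow_ne_zero _ hx0
  have h1 : ξ * x ^ (2 * 3 ^ t) = y ^ (2 * 3 ^ t) := by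
    rw [hξ, div_pow]; field_simp
  have h2 : ξ ^ n = 1 := by
    rw [hξ, ← pow_mul, mul_comm, pow_mul, div_pow, hxy, div_self (pow_ne_zero _ hx0), one_pow]
  have hξi : IsIntegral ℤ ξ := by
    refine ⟨X ^ n - 1, monic_X_pow_sub_C 1 (by omega), ?_⟩
    simp [h2]
  exact unit_three ξ (aeval y R - ξ * aeval x R) n hn h2
    ((hint y hyi).sub (hξi.mul (hint x hxi))) (by
      linear_combination h1 + key y hy - ξ * key x hx)

/-- `ℚ(x ^ n) = ℚ(x)` if `ℚ(x)` has no square root of `-3` -/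
theorem nd3 {P : ℤ[X]} {g : ℕ} (hPm : P.Monic) (hPd : P.natDegree = 2 * g)
    (hirr : Irreducible (P.map (Int.castRingHom ℚ)))
    (hP : P.map (Int.castRingHom (ZMod 3)) = (X ^ 2 - 1) ^ g) {x : ℂ} (hx : aeval x P = 0)
    (hx0 : x ≠ 0) (hN : ∀ s ∈ IntermediateField.adjoin ℚ {x}, s ^ 2 ≠ -3)
    (hd : ∀ d : ℕ, 2 ≤ d → ∃ k, k ≤ 2 * g ∧ P.coeff k ≠ 0 ∧ k % d ≠ (2 * g) % d) {n : ℕ}
    (hn : 1 ≤ n) :
    IntermediateField.adjoin ℚ {x ^ n} = IntermediateField.adjoin ℚ {x} := by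
  refine gen hPm hPd hirr hx hx0 ?_ hd
  intro s hs hmem
  obtain ⟨t, ht⟩ : ∃ t : ℕ, g ≤ 3 ^ t := ⟨g, (Nat.lt_pow_self (by norm_num)).le⟩
  set η := (s.map (fun y => y / x)).prod with hη
  have h1 : η ^ (2 * 3 ^ t) = 1 := by
    rw [hη, ← Multiset.prod_map_pow, Multiset.map_congr rfl (fun y hy => by
      rw [conj_pow3 P g t hPm ht hP x y hx (hs y hy).1 hx0 n hn (hs y hy).2])]
    simp
  -- `η ^ 2` is a root of unity of 3-power order in `ℚ(x)`
  have h2 : ∀ t : ℕ, ∀ u ∈ IntermediateField.adjoin ℚ {x}, u ^ (3 ^ t) = 1 → u = 1 := by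
    intro t
    induction t with
    | zero =>
      intro u _ hu
      simpa using hu
    | succ t ih =>
      intro u hu hu1
      have h3 : (u ^ 3) ^ 3 ^ t = 1 := by rw [← pow_mul, ← pow_succ', hu1]
      have h4 := ih (u ^ 3) (pow_mem hu 3) h3
      by_contra hne
      have h5 : u ^ 2 + u + 1 = 0 := by
        have h6 : (u - 1) * (u ^ 2 + u + 1) = 0 := by linear_combination h4
        rcases mul_eq_zero.1 h6 with h7 | h7
        · exact absurd (sub_eq_zero.1 h7) hne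
        · exact h7
      refine hN (2 * u + 1) (add_mem (mul_mem (ofNat_mem _ 2) hu) (one_mem _)) ?_
      linear_combination 4 * h5
  exact h2 t (η ^ 2) (pow_mem hmem 2) (by rw [← pow_mul, h1])

end Pool.Agent.U774.WT
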