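import Mathlib

/-!
# No square root of `-3` in the field generated by a root (MP_e32a7e_nt)
-/

set_option autoImplicit false

namespace Pool.Agent.U774.WT

open Polynomial

/-- norm and trace in a quadratic field generated by a square root of `-3` -/
theorem quad {L : Type*} [Field L] [Algebra ℚ L] (s : L) (hs : s ^ 2 = -3)
    (hfin : Module.finrank ℚ L = 2) (β : L) :
    ∃ a b : ℚ, Algebra.norm ℚ β = a ^ 2 + 3 * b ^ 2 ∧ Algebra.trace ℚ L β = 2 * a := by
  have hli : LinearIndependent ℚ ![(1 : L), s] := by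
    rw [LinearIndependent.pair_iff]
    intro u v h
    have hv : v = 0 := by
      by_contra hv
      have h1 : s = algebraMap ℚ L (-u / v) := by
        have h2 : (algebraMap ℚ L v) ≠ 0 := by
          rw [Ne, map_eq_zero]
          exact hv
        rw [Algebra.smul_def, Algebra.smul_def] at h
        rw [map_div₀, map_neg, eq_div_iff h2]
        linear_combination h
      rw [h1, ← map_pow] at hs
      have h3 : (-3 : L) = algebraMap ℚ L (-3) := by simp
      rw [h3] at hs
      have h4 := (algebraMap ℚ L).injective hs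
      have h5 : (0 : ℚ) ≤ (-u / v) ^ 2 := sq_nonneg _
      rw [h4] at h5
      norm_num at h5
    subst hv
    rw [zero_smul, add_zero, Algebra.smul_def, mul_one, map_eq_zero] at h
    exact ⟨h, rfl⟩
  let b := basisOfLinearIndependentOfCardEqFinrank hli (by simp [hfin])
  have hb0 : b 0 = 1 := by simp [b]
  have hb1 : b 1 = s := by simp [b]
  refine ⟨b.repr β 0, b.repr β 1, ?_, ?_⟩
  · rw [Algebra.norm_eq_matrix_det b, Matrix.det_fin_two]
    simp only [Algebra.leftMulMatrix_eq_repr_mul, hb0, hb1, mul_one]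
    have h1 : β * s = (-3 * b.repr β 1) • b 0 + (b.repr β 0) • b 1 := by
      have h2 : β = (b.repr β 0) • b 0 + (b.repr β 1) • b 1 := by
        have := b.sum_repr β
        rw [Fin.sum_univ_two] at this
        exact this.symm
      rw [hb0, hb1]
      rw [hb0, hb1] at h2
      simp only [Algebra.smul_def] at h2 ⊢
      rw [map_mul]
      simp only [map_neg, map_ofNat]
      linear_combination s * h2 + (algebraMap ℚ L) (b.repr β 1) * hs
    rw [h1]
    simp only [map_add, map_smul, Finsupp.coe_add, Finsupp.coe_smul, Pi.add_apply, Pi.smul_apply,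
      Module.Basis.repr_self, smul_eq_mul, Finsupp.single_apply]
    simp
    ring
  · rw [Algebra.trace_eq_matrix_trace b, Matrix.trace_fin_two]
    simp only [Algebra.leftMulMatrix_eq_repr_mul, hb0, hb1, mul_one]
    have h1 : β * s = (-3 * b.repr β 1) • b 0 + (b.repr β 0) • b 1 := by
      have h2 : β = (b.repr β 0) • b 0 + (b.repr β 1) • b 1 := by
        have := b.sum_repr β
        rw [Fin.sum_univ_two] at this
        exact this.symm
      rw [hb0, hb1]
      rw [hb0, hb1] at h2
      simp only [Algebra.smul_def] at h2 ⊢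
      rw [map_mul]
      simp only [map_neg, map_ofNat]
      linear_combination s * h2 + (algebraMap ℚ L) (b.repr β 1) * hs
    rw [h1]
    simp only [map_add, map_smul, Finsupp.coe_add, Finsupp.coe_smul, Pi.add_apply, Pi.smul_apply,
      Module.Basis.repr_self, smul_eq_mul, Finsupp.single_apply]
    simp
    ring

/-- the arithmetic -/
theorem four_norm {N : ℤ} {a b : ℚ} (hN : (N : ℚ) = a ^ 2 + 3 * b ^ 2)
    (ha : IsIntegral ℤ (2 * a)) : N % 9 ≠ 6 := by
  obtain ⟨m, hm⟩ := IsIntegrallyClosed.isIntegral_iff.1 ha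
  have hm' : (m : ℚ) = 2 * a := hm
  have hb : (6 * b) ^ 2 = ((3 * (4 * N - m ^ 2) : ℤ) : ℚ) := by
    push_cast
    rw [hm', hN]
    ring
  have hbi : IsIntegral ℤ (6 * b) := by
    refine ⟨X ^ 2 - C (3 * (4 * N - m ^ 2)), monic_X_pow_sub_C _ (by norm_num), ?_⟩
    rw [eval₂_sub, eval₂_pow, eval₂_X, eval₂_C, hb]
    simp
  obtain ⟨k, hk⟩ := IsIntegrallyClosed.isIntegral_iff.1 hbi
  have hk' : (k : ℚ) = 6 * b := hk
  rw [← hk'] at hb
  have hk2 : k ^ 2 = 3 * (4 * N - m ^ 2) := by exact_mod_cast hb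
  have h3 : (3 : ℤ) ∣ k := Int.prime_three.dvd_of_dvd_pow ⟨_, hk2⟩
  obtain ⟨n, rfl⟩ := h3
  have h4 : 4 * N = m ^ 2 + 3 * n ^ 2 := by linarith
  intro hN6
  obtain ⟨c, hc⟩ : ∃ c, N = 9 * c + 6 := ⟨N / 9, by omega⟩
  have h5 : (3 : ℤ) ∣ m ^ 2 := ⟨12 * c + 8 - n ^ 2, by rw [hc] at h4; linarith⟩
  obtain ⟨r, rfl⟩ := Int.prime_three.dvd_of_dvd_pow h5
  have h6 : n ^ 2 = 3 * (4 * c + 2 - r ^ 2) + 2 := by rw [hc] at h4; linarith
  have h7 : n ^ 2 % 3 = 0 ∨ n ^ 2 % 3 = 1 := by
    obtain ⟨q, hq⟩ : ∃ q, n = 3 * q ∨ n = 3 * q + 1 ∨ n = 3 * q + 2 := ⟨n / 3, by omega⟩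
    rcases hq with rfl | rfl | rfl
    · left
      have : (3 * q) ^ 2 = 3 * (3 * q ^ 2) := by ring
      omega
    · right
      have : (3 * q + 1) ^ 2 = 3 * (3 * q ^ 2 + 2 * q) + 1 := by ring
      omega
    · right
      have : (3 * q + 2) ^ 2 = 3 * (3 * q ^ 2 + 4 * q + 1) + 1 := by ring
      omega
  omega

theorem noi3 {E : ℤ[X]} {g : ℕ} (hEm : E.Monic) (hEd : E.natDegree = 2 * g)
    (hirr : Irreducible (E.map (Int.castRingHom ℚ))) (hE : E.coeff 0 % 9 = 6) {z : ℂ}
    (hz : aeval z E = 0) : ∀ s ∈ IntermediateField.adjoin ℚ {z}, s ^ 2 ≠ -3 := by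
  intro s hs hs3
  have hzi : IsIntegral ℤ z := ⟨E, hEm, hz⟩
  have hziQ : IsIntegral ℚ z := hzi.tower_top
  have hmin : E.map (Int.castRingHom ℚ) = minpoly ℚ z := by
    refine minpoly.eq_of_irreducible_of_monic hirr ?_ (hEm.map _)
    rw [← hz]
    exact aeval_map_algebraMap ℚ z E
  set K := IntermediateField.adjoin ℚ {z} with hK
  have : FiniteDimensional ℚ K := IntermediateField.adjoin.finiteDimensional hziQ
  set y : K := IntermediateField.AdjoinSimple.gen ℚ z with hy
  have hnorm : Algebra.norm ℚ y = ((E.coeff 0 : ℤ) : ℚ) := by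
    have h1 := Algebra.PowerBasis.norm_gen_eq_coeff_zero_minpoly
      (IntermediateField.adjoin.powerBasis hziQ)
    rw [IntermediateField.adjoin.powerBasis_gen, IntermediateField.adjoin.powerBasis_dim,
      IntermediateField.minpoly_gen, ← hmin, hEm.natDegree_map, hEd, coeff_map] at h1
    refine Eq.trans h1 ?_
    simp
  have hyi : IsIntegral ℤ y := by
    have h1 : (algebraMap K ℂ) y = z := IntermediateField.AdjoinSimple.algebraMap_gen ℚ z
    have h2 : IsIntegral ℤ ((algebraMap K ℂ) y) := by rw [h1]; exact hzi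
    exact (isIntegral_algebraMap_iff (algebraMap K ℂ).injective).1 h2
  set s' : K := ⟨s, hs⟩ with hs'
  have hs'3 : s' ^ 2 = -3 := by
    apply Subtype.ext
    push_cast
    exact hs3
  set L := IntermediateField.adjoin ℚ {s'} with hL
  have hsi : IsIntegral ℚ s' := ⟨X ^ 2 + C 3, by monicity!, by simp [hs'3]⟩
  have hmins : minpoly ℚ s' = X ^ 2 + C 3 := by
    symm
    refine minpoly.eq_of_irreducible_of_monic ?_ (by simp [hs'3]) (by monicity!)
    have hd : (X ^ 2 + C 3 : ℚ[X]).natDegree = 2 := by compute_degree!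
    have hm : (X ^ 2 + C 3 : ℚ[X]).Monic := by monicity!
    rw [hm.irreducible_iff_roots_eq_zero_of_degree_le_three (by rw [hd]) (by rw [hd]; norm_num)]
    rw [Multiset.eq_zero_iff_forall_notMem]
    intro a ha
    rw [mem_roots hm.ne_zero, IsRoot.def] at ha
    simp only [eval_add, eval_pow, eval_X, eval_C] at ha
    nlinarith [sq_nonneg a]
  have hfin : Module.finrank ℚ L = 2 := by
    rw [hL, IntermediateField.adjoin.finrank hsi, hmins]
    compute_degree!
  set β : L := Algebra.norm L y with hβ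
  have hβi : IsIntegral ℤ β := Algebra.isIntegral_norm L hyi
  have hββ : Algebra.norm ℚ β = Algebra.norm ℚ y := Algebra.norm_norm ..
  obtain ⟨a, b, h1, h2⟩ := quad (IntermediateField.AdjoinSimple.gen ℚ s') (by
    apply Subtype.ext
    push_cast
    exact hs'3) hfin β
  have h3 : IsIntegral ℤ (Algebra.trace ℚ L β) := Algebra.isIntegral_trace hβi
  rw [h2] at h3
  rw [hββ, hnorm] at h1
  exact four_norm h1 h3 hE

/-- the version for `P` -/
theorem noi3' {P : ℤ[X]} {g : ℕ} (hPm : P.Monic) (hPd : P.natDegree = 2 * g)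
    (hirr : Irreducible (P.map (Int.castRingHom ℚ))) (hP : P.eval 1 % 9 = 6) {x : ℂ}
    (hx : aeval x P = 0) : ∀ s ∈ IntermediateField.adjoin ℚ {x}, s ^ 2 ≠ -3 := by
  set E : ℤ[X] := P.comp (X + 1) with hE
  have hX1 : (X + 1 : ℤ[X]) = X + C 1 := by simp
  have hEm : E.Monic := by
    rw [hE, hX1]
    exact hPm.comp (monic_X_add_C 1) (by rw [natDegree_X_add_C]; norm_num)
  have hEd : E.natDegree = 2 * g := by
    rw [hE, natDegree_comp, hX1, natDegree_X_add_C, hPd, mul_one]
  have hEirr : Irreducible (E.map (Int.castRingHom ℚ)) := by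
    have hz : Irreducible P :=
      (Polynomial.IsPrimitive.Int.irreducible_iff_irreducible_map_cast hPm.isPrimitive).2 hirr
    refine (Polynomial.IsPrimitive.Int.irreducible_iff_irreducible_map_cast hEm.isPrimitive).1 ?_
    have hPE : P = E.comp (X - 1) := by
      rw [hE, comp_assoc]
      simp
    refine ⟨?_, ?_⟩
    · intro hu
      apply hz.not_isUnit
      rw [hPE]
      exact hu.map (compRingHom (X - 1))
    · intro A B hAB
      have h2 : P = A.comp (X - 1) * B.comp (X - 1) := by
        rw [hPE, hAB, mul_comp]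
      rcases hz.isUnit_or_isUnit h2 with h | h
      · left
        have h3 : A = (A.comp (X - 1)).comp (X + 1) := by
          rw [comp_assoc]
          simp
        rw [h3]
        exact h.map (compRingHom (X + 1))
      · right
        have h3 : B = (B.comp (X - 1)).comp (X + 1) := by
          rw [comp_assoc]
          simp
        rw [h3]
        exact h.map (compRingHom (X + 1))
  have hy : aeval (x - 1) E = 0 := by
    rw [hE, aeval_comp]
    simp [hx]
  have hadj : IntermediateField.adjoin ℚ {x - 1} = IntermediateField.adjoin ℚ {x} := by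
    apply le_antisymm
    · rw [IntermediateField.adjoin_simple_le_iff]
      exact sub_mem (IntermediateField.mem_adjoin_simple_self ℚ x) (one_mem _)
    · rw [IntermediateField.adjoin_simple_le_iff]
      have := add_mem (IntermediateField.mem_adjoin_simple_self ℚ (x - 1)) (one_mem _)
      simpa using this
  have hE0 : E.coeff 0 % 9 = 6 := by
    have : E.coeff 0 = P.eval 1 := by
      rw [coeff_zero_eq_eval_zero, hE, eval_comp]
      simp
    rw [this]
    exact hP
  rw [← hadj]
  exact noi3 hEm hEd hEirr hE0 hy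

end Pool.Agent.U774.WT
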