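import Pool.Agent.R80.WF.Asm
import Pool.Agent.U774.WT.Nd3
import Pool.Agent.U774.WT.Irr3
import Pool.Agent.U774.WT.Noi3

/-!
# Assembly for `p = 2`: `P = (X ^ 2 - 1) ^ g` modulo 3 (MP_e32a7e_nt)
-/

set_option autoImplicit false

namespace Pool.Agent.U774.WT

open Polynomial Pool.Agent.R80.WF

theorem reflect_two : reflect 2 (1 - X ^ 2 : (ZMod 3)[X]) = X ^ 2 - 1 := by
  have h1 : reflect 2 (1 : (ZMod 3)[X]) = X ^ 2 := by
    have := reflect_one (R := ZMod 3) (n := 2)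
    simpa using this
  have h2 : reflect 2 (X ^ 2 : (ZMod 3)[X]) = 1 := by
    have := reflect_monomial (R := ZMod 3) 2 2
    simpa using this
  rw [reflect_sub, h1, h2]

theorem natDegree_osx (g : ℕ) : ((1 - X ^ 2 : (ZMod 3)[X]) ^ g).natDegree ≤ 2 * g := by
  refine natDegree_pow_le.trans ?_
  have : (1 - X ^ 2 : (ZMod 3)[X]).natDegree ≤ 2 := by compute_degree
  nlinarith

theorem reflect_pow_osx (g : ℕ) :
    reflect (2 * g) ((1 - X ^ 2 : (ZMod 3)[X]) ^ g) = (X ^ 2 - 1) ^ g := by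
  induction g with
  | zero =>
    have := reflect_one (R := ZMod 3) (n := 0)
    simpa using this
  | succ g ih =>
    have h2 : (1 - X ^ 2 : (ZMod 3)[X]).natDegree ≤ 2 := by compute_degree
    have e : 2 * (g + 1) = 2 * g + 2 := by ring
    rw [pow_succ (1 - X ^ 2 : (ZMod 3)[X]) g, e, reflect_mul _ _ (natDegree_osx g) h2, ih,
      reflect_two]
    exact (pow_succ (X ^ 2 - 1 : (ZMod 3)[X]) g).symm

theorem coeff_osx {g k : ℕ} (hk : k ≤ 2 * g) :
    ((X ^ 2 - 1 : (ZMod 3)[X]) ^ g).coeff k = ((1 - X ^ 2 : (ZMod 3)[X]) ^ g).coeff (2 * g - k) := by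
  rw [← reflect_pow_osx, coeff_reflect, revAt_le hk]

theorem coeff_osx' (g k : ℕ) :
    ((X ^ 2 - 1 : (ZMod 3)[X]) ^ g).coeff k = (-1) ^ g * ((1 - X ^ 2 : (ZMod 3)[X]) ^ g).coeff k := by
  have h1 : (X ^ 2 - 1 : (ZMod 3)[X]) = C (-1) * (1 - X ^ 2) := by
    rw [C_neg, C_1]; ring
  rw [h1, mul_pow, ← C_pow, coeff_C_mul]

theorem coeff_osx_odd (g k : ℕ) (hk : k % 2 = 1) :
    ((1 - X ^ 2 : (ZMod 3)[X]) ^ g).coeff k = 0 := by
  have h1 : (1 - X ^ 2 : (ZMod 3)[X]) ^ g = expand (ZMod 3) 2 ((1 - X) ^ g) := by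
    simp
  rw [h1, coeff_expand (by norm_num), if_neg (by omega)]

theorem map_PP3 {g : ℕ} {a : ℕ → ℤ} (hg : 1 ≤ g)
    (ha : ∀ i ≤ g, ((a i : ℤ) : ZMod 3) = ((1 - X ^ 2 : (ZMod 3)[X]) ^ g).coeff i) :
    (PP 2 g a).map (Int.castRingHom (ZMod 3)) = (X ^ 2 - 1) ^ g := by
  ext k
  rw [coeff_map, coeff_PP, eq_intCast]
  by_cases hk : k < g
  · rw [if_pos hk, coeff_osx']
    push_cast
    rw [ha k hk.le]
    have h2 : ((2 : ℕ) : ZMod 3) = -1 := by decide
    by_cases hk2 : k % 2 = 1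
    · rw [coeff_osx_odd g k hk2]
      simp
    · have e : g = (g - k) + k := by omega
      have h3 : (2 : ZMod 3) = -1 := by decide
      rw [h3]
      congr 1
      conv_rhs => rw [e, pow_add]
      have h4 : (-1 : ZMod 3) ^ k = 1 := Even.neg_one_pow (Nat.even_iff.2 (by omega))
      rw [h4, mul_one]
  · rw [if_neg hk]
    by_cases hkg : k = g
    · subst hkg
      rw [if_pos rfl, ha k le_rfl, coeff_osx (by omega)]
      congr 1
      omega
    · rw [if_neg hkg]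
      by_cases hk2 : k ≤ 2 * g
      · rw [if_pos hk2, ha _ (by omega), coeff_osx hk2]
      · rw [if_neg hk2, coeff_osx']
        rw [coeff_eq_zero_of_natDegree_lt (lt_of_le_of_lt (natDegree_osx g) (by omega))]
        simp

/-- the assembly for `p = 2` -/
theorem good_two {g f : ℕ} (hg : 1 ≤ g) (hf : f ≤ g) {a : ℕ → ℤ} (ha0 : a 0 = 1)
    (ha : ∀ i ≤ g, ((a i : ℤ) : ZMod 3) = ((1 - X ^ 2 : (ZMod 3)[X]) ^ g).coeff i)
    (h9 : (PP 2 g a).eval 1 % 9 = 6)
    (hdiv : ∀ i, f < i → i ≤ g → (2 : ℤ) ∣ a i) (hnd : ¬ (2 : ℤ) ∣ a f)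
    (hgcd : ∀ d : ℕ, 2 ≤ d → ∃ i, i ≤ g ∧ a i ≠ 0 ∧ ¬ d ∣ i)
    (hroot : ∀ x : ℂ, aeval x (PP 2 g a) = 0 → ‖x‖ = Real.sqrt 2) : Good 2 g f := by
  set P := PP 2 g a with hP
  have hm : P.Monic := monic_PP hg ha0
  have hd : P.natDegree = 2 * g := natDegree_PP hg ha0
  have hmod := map_PP3 hg ha
  have hirr : Irreducible (P.map (Int.castRingHom ℚ)) :=
    irr3 hg hm hd hmod hroot (by intro h; omega)
  refine ⟨P, hm, hd, hirr, ?_, ?_, ?_, ?_⟩
  · intro x hx
    have := hroot x hx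
    exact_mod_cast this
  · intro i hi
    rw [hP, coeff_PP]
    split_ifs with h1 h2 h4
    · exact Dvd.dvd.mul_right (dvd_pow_self _ (by omega)) _
    · exact hdiv g (by omega) le_rfl
    · exact hdiv (2 * g - i) (by omega) (by omega)
    · exact dvd_zero _
  · rw [hP, coeff_PP, if_neg (by omega)]
    by_cases hfg : f = g
    · rw [if_pos (by omega)]
      rw [hfg] at hnd
      exact hnd
    · rw [if_neg (by omega), if_pos (by omega)]
      have : 2 * g - (2 * g - f) = f := by omega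
      rw [this]
      exact hnd
  · intro x hx n hn
    have hx0 : x ≠ 0 := by
      rintro rfl
      have h1 := hroot 0 hx
      rw [norm_zero] at h1
      have h2 : 0 < Real.sqrt 2 := Real.sqrt_pos.2 (by norm_num)
      linarith
    refine nd3 hm hd hirr hmod hx hx0 (noi3' hm hd hirr h9 hx) ?_ hn
    intro d hd2
    obtain ⟨i, hig, hi0, hid⟩ := hgcd d hd2
    refine ⟨2 * g - i, by omega, ?_, ?_⟩
    · rw [hP, coeff_PP, if_neg (by omega)]
      by_cases hig' : i = g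
      · rw [if_pos (by omega), ← hig']
        exact hi0
      · rw [if_neg (by omega), if_pos (by omega)]
        have : 2 * g - (2 * g - i) = i := by omega
        rw [this]
        exact hi0
    · intro h
      apply hid
      have h1 : (2 * g - i) ≡ 2 * g [MOD d] := h
      have h2 := (Nat.modEq_iff_dvd' (by omega)).1 h1
      have h3 : 2 * g - (2 * g - i) = i := by omega
      rwa [h3] at h2

end Pool.Agent.U774.WT
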