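import Pool.Agent.U774.WT.RootS

/-!
# A verified checker for Weil `2`-polynomials (MP_e32a7e_nt)
-/

set_option autoImplicit false

namespace Pool.Agent.U774.WT

open Polynomial Pool.Agent.R80.WF

/-- scaled Clenshaw evaluation of the real Weil polynomial at `n / m` -/
def cl (m n : ℤ) : List ℤ → ℤ → ℤ → ℤ → ℤ
  | [], _, _, _ => 0
  | a :: t, mp, B, B' =>
    match t with
    | [] => a * mp + n * B - 4 * m ^ 2 * B'
    | _ :: _ => cl m n t (mp * m) (a * mp + n * B - 2 * m ^ 2 * B') B

/-- the real Weil polynomial of a list -/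
noncomputable def HL : List ℤ → ℤ[X]
  | [] => 0
  | a :: t =>
    match t with
    | [] => C a
    | _ :: _ => C a * DD t.length + HL t

theorem cl_cons (m n a b : ℤ) (u : List ℤ) (mp B B' : ℤ) :
    cl m n (a :: b :: u) mp B B' =
      cl m n (b :: u) (mp * m) (a * mp + n * B - 2 * m ^ 2 * B') B := rfl

theorem HL_cons (a b : ℤ) (u : List ℤ) :
    HL (a :: b :: u) = C a * DD (b :: u).length + HL (b :: u) := rfl

theorem cl_eq (m n : ℤ) (y : ℝ) (hy : (m : ℝ) * y = n) (l : List ℤ) (k : ℕ)
    (hl : l.length = k + 1) (mp B B' : ℤ) :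
    ((cl m n l mp B B' : ℤ) : ℝ) = mp * m ^ k * aeval y (HL l) + m ^ (k + 1) * B * aeval y (DD (k + 1))
      - 2 * m ^ (k + 2) * B' * aeval y (DD k) := by
  induction l generalizing k mp B B' with
  | nil => simp at hl
  | cons a t ih =>
    cases t with
    | nil =>
      have hk : k = 0 := by simpa using hl.symm
      subst hk
      simp only [cl, HL, DD, aeval_C, aeval_X, zero_add, pow_zero, pow_one]
      simp only [algebraMap_int_eq, eq_intCast]
      push_cast
      rw [← hy]
      ring
    | cons b u =>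
      obtain ⟨j, rfl⟩ : ∃ j, k = j + 1 := ⟨k - 1, by simp at hl; omega⟩
      have hl' : (b :: u).length = j + 1 := by simpa using hl
      have h1 := ih j hl' (mp * m) (a * mp + n * B - 2 * m ^ 2 * B') B
      rw [cl_cons, h1]
      have e1 : HL (a :: b :: u) = C a * DD (j + 1) + HL (b :: u) := by
        rw [HL_cons, hl']
      rw [e1]
      have e2 : aeval y (DD (j + 1 + 1)) = y * aeval y (DD (j + 1)) - 2 * aeval y (DD j) := by
        simp only [DD, map_sub, map_mul, aeval_X, aeval_C]
        simp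
      rw [e2, map_add, map_mul, aeval_C]
      simp only [algebraMap_int_eq, eq_intCast]
      push_cast
      rw [← hy]
      ring

theorem HL_eq (l : List ℤ) (g : ℕ) (hl : l.length = g + 1) :
    HL l = HH g (fun i => l.getD i 0) := by
  induction l generalizing g with
  | nil => simp at hl
  | cons a t ih =>
    cases t with
    | nil =>
      have hk : g = 0 := by simpa using hl.symm
      subst hk
      simp [HL, HH]
    | cons b u =>
      obtain ⟨j, rfl⟩ : ∃ j, g = j + 1 := ⟨g - 1, by simp at hl; omega⟩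
      have hl' : (b :: u).length = j + 1 := by simpa using hl
      have e1 : HL (a :: b :: u) = C a * DD (j + 1) + HL (b :: u) := by
        rw [HL_cons, hl']
      rw [e1, ih j hl', HH, HH, Finset.sum_range_succ']
      simp only [List.getD_cons_succ, List.getD_cons_zero, Nat.sub_zero, Nat.add_sub_add_right]
      ring

/-- the points: increasing, in the interval, with alternating signs -/
def alt (m : ℤ) (l : List ℤ) : List ℤ → Bool
  | [] => true
  | p :: t =>
    match t with
    | [] => true
    | q :: _ => decide (p < q) && decide (p ^ 2 < 8 * m ^ 2) && decide (q ^ 2 < 8 * m ^ 2) &&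
        decide (cl m p l 1 0 0 * cl m q l 1 0 0 < 0) && alt m l t

theorem cl_val {m n : ℤ} (hm : 0 < m) {l : List ℤ} {g : ℕ} (hl : l.length = g + 1) :
    ((cl m n l 1 0 0 : ℤ) : ℝ) = m ^ g * aeval ((n : ℝ) / m) (HH g (fun i => l.getD i 0)) := by
  have hm' : (m : ℝ) ≠ 0 := by exact_mod_cast hm.ne'
  rw [cl_eq m n ((n : ℝ) / m) (by field_simp) l g hl 1 0 0, ← HL_eq l g hl]
  push_cast
  ring

theorem alt_roots {m : ℤ} (hm : 0 < m) {l : List ℤ} {g : ℕ} (hl : l.length = g + 1)
    (ps : List ℤ) (p : ℤ) (hps : alt m l (p :: ps) = true) :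
    ∃ S : Finset ℝ, S.card = ps.length ∧ ∀ s ∈ S,
      aeval s (HH g (fun i => l.getD i 0)) = 0 ∧ s ^ 2 < 8 ∧ (p : ℝ) / m < s := by
  have hm' : (0 : ℝ) < m := by exact_mod_cast hm
  induction ps generalizing p with
  | nil => exact ⟨∅, by simp, by simp⟩
  | cons q t ih =>
    simp only [alt, Bool.and_eq_true, decide_eq_true_eq] at hps
    obtain ⟨⟨⟨⟨h1, h2⟩, h3⟩, h4⟩, h5⟩ := hps
    obtain ⟨S, hS, hr⟩ := ih q h5
    have h1' : (p : ℝ) / m < (q : ℝ) / m := by
      apply div_lt_div_of_pos_right _ hm'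
      exact_mod_cast h1
    have hc : Continuous (fun s : ℝ => aeval s (HH g (fun i => l.getD i 0))) :=
      Polynomial.continuous_aeval _
    have hsgn : (aeval ((p : ℝ) / m) (HH g (fun i => l.getD i 0))) *
        (aeval ((q : ℝ) / m) (HH g (fun i => l.getD i 0))) < 0 := by
      have h6 : ((cl m p l 1 0 0 : ℤ) : ℝ) * ((cl m q l 1 0 0 : ℤ) : ℝ) < 0 := by exact_mod_cast h4
      rw [cl_val hm hl, cl_val hm hl] at h6
      have h7 : (0 : ℝ) < (m : ℝ) ^ g * (m : ℝ) ^ g := by positivity
      by_contra hcon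
      push Not at hcon
      have h8 := mul_nonneg h7.le hcon
      have h9 : (m : ℝ) ^ g * (m : ℝ) ^ g * ((aeval ((p : ℝ) / m) (HH g (fun i => l.getD i 0))) *
        (aeval ((q : ℝ) / m) (HH g (fun i => l.getD i 0)))) =
        (m : ℝ) ^ g * (aeval ((p : ℝ) / m) (HH g (fun i => l.getD i 0))) *
        ((m : ℝ) ^ g * (aeval ((q : ℝ) / m) (HH g (fun i => l.getD i 0)))) := by ring
      rw [h9] at h8
      linarith
    obtain ⟨r, hr1, hr2⟩ : ∃ r ∈ Set.Ioo ((p : ℝ) / m) ((q : ℝ) / m),
        aeval r (HH g (fun i => l.getD i 0)) = 0 := by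
      rcases mul_neg_iff.1 hsgn with ⟨ha, hb⟩ | ⟨ha, hb⟩
      · have := intermediate_value_Ioo' h1'.le hc.continuousOn
        exact this ⟨hb, ha⟩
      · have := intermediate_value_Ioo h1'.le hc.continuousOn
        exact this ⟨ha, hb⟩
    have hr8 : r ^ 2 < 8 := by
      have hp8 : ((p : ℝ) / m) ^ 2 < 8 := by
        rw [div_pow, div_lt_iff₀ (by positivity)]
        exact_mod_cast h2
      have hq8 : ((q : ℝ) / m) ^ 2 < 8 := by
        rw [div_pow, div_lt_iff₀ (by positivity)]
        exact_mod_cast h3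
      obtain ⟨hr3, hr4⟩ := hr1
      rcases le_total 0 r with h0 | h0
      · nlinarith
      · nlinarith
    have hrS : r ∉ S := by
      intro h
      have := (hr r h).2.2
      have := hr1.2
      linarith
    refine ⟨insert r S, by rw [Finset.card_insert_of_notMem hrS, hS, List.length_cons], ?_⟩
    intro s hs
    rcases Finset.mem_insert.1 hs with rfl | hs
    · exact ⟨hr2, hr8, hr1.1⟩
    · obtain ⟨h6, h7, h8⟩ := hr s hs
      exact ⟨h6, h7, by linarith⟩

/-- multiplication by `1 - X ^ 2` -/
def mulo : List ℤ → ℤ → ℤ → List ℤ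
  | [], p, q => [-p, -q]
  | a :: t, p, q => (a - p) :: mulo t q a

/-- the polynomial modulo 3 of a list -/
noncomputable def toP : List ℤ → (ZMod 3)[X]
  | [] => 0
  | a :: t => C (a : ZMod 3) + X * toP t

theorem toP_mulo (l : List ℤ) (p q : ℤ) :
    toP (mulo l p q) = (1 - X ^ 2) * toP l - C (p : ZMod 3) - C (q : ZMod 3) * X := by
  induction l generalizing p q with
  | nil =>
    simp only [mulo, toP]
    push_cast
    simp only [C_neg]
    ring
  | cons a t ih =>
    simp only [mulo, toP, ih]
    push_cast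
    simp only [C_sub]
    ring

theorem toP_map (l : List ℤ) : toP (l.map (fun a => a % 3)) = toP l := by
  induction l with
  | nil => rfl
  | cons a t ih =>
    simp only [List.map_cons, toP, ih]
    congr 2
    exact (ZMod.intCast_eq_intCast_iff _ _ 3).2 (Int.mod_modEq a 3)

/-- coefficients of `(1 - X ^ 2) ^ g` modulo 3 -/
def pw : ℕ → List ℤ
  | 0 => [1]
  | n + 1 => (mulo (pw n) 0 0).map (fun a => a % 3)

theorem toP_pw (g : ℕ) : toP (pw g) = (1 - X ^ 2) ^ g := by
  induction g with
  | zero => simp [pw, toP]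
  | succ g ih =>
    rw [pw, toP_map, toP_mulo, ih]
    simp only [Int.cast_zero, C_0]
    ring

theorem coeff_toP (l : List ℤ) (i : ℕ) : (toP l).coeff i = ((l.getD i 0 : ℤ) : ZMod 3) := by
  induction l generalizing i with
  | nil => simp [toP]
  | cons a t ih =>
    cases i with
    | zero => simp [toP]
    | succ i => rw [toP, coeff_add, coeff_C_succ, coeff_X_mul, ih, zero_add, List.getD_cons_succ]

/-- congruence of lists modulo 3 -/
def eq3 : List ℤ → List ℤ → Bool
  | [], _ => true
  | _ :: _, [] => false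
  | a :: t, b :: u => decide ((a - b) % 3 = 0) && eq3 t u

theorem eq3_spec (l c : List ℤ) (h : eq3 l c = true) (i : ℕ) (hi : i < l.length) :
    ((l.getD i 0 : ℤ) : ZMod 3) = ((c.getD i 0 : ℤ) : ZMod 3) := by
  induction l generalizing c i with
  | nil => simp at hi
  | cons a t ih =>
    cases c with
    | nil => simp [eq3] at h
    | cons b u =>
      simp only [eq3, Bool.and_eq_true, decide_eq_true_eq] at h
      cases i with
      | zero =>
        simp only [List.getD_cons_zero]
        have h1 : (3 : ℤ) ∣ a - b := Int.dvd_of_emod_eq_zero h.1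
        have h2 := (ZMod.intCast_zmod_eq_zero_iff_dvd (a - b) 3).2 h1
        push_cast at h2
        exact sub_eq_zero.1 h2
      | succ i =>
        simp only [List.getD_cons_succ]
        exact ih u h.2 i (by simpa using hi)

/-- the greatest common divisor of the indices of non-zero entries -/
def gc : List ℤ → ℕ → ℕ
  | [], _ => 0
  | a :: t, i => if a = 0 then gc t (i + 1) else Nat.gcd i (gc t (i + 1))

theorem gc_spec (l : List ℤ) (j d : ℕ) (h : ∀ i < l.length, l.getD i 0 ≠ 0 → d ∣ (j + i)) :
    d ∣ gc l j := by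
  induction l generalizing j with
  | nil => simp [gc]
  | cons a t ih =>
    have h1 : d ∣ gc t (j + 1) := by
      apply ih
      intro i hi hne
      have := h (i + 1) (by simpa using hi) (by simpa using hne)
      have e : j + (i + 1) = j + 1 + i := by ring
      rwa [e] at this
    rw [gc]
    split_ifs with h0
    · exact h1
    · exact Nat.dvd_gcd (by simpa using h 0 (by simp) (by simpa using h0)) h1

/-- all entries are even -/
def ev2 : List ℤ → Bool
  | [] => true
  | a :: t => decide (a % 2 = 0) && ev2 t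

theorem ev2_spec (l : List ℤ) (h : ev2 l = true) (i : ℕ) : l.getD i 0 % 2 = 0 := by
  induction l generalizing i with
  | nil => simp
  | cons a t ih =>
    simp only [ev2, Bool.and_eq_true, decide_eq_true_eq] at h
    cases i with
    | zero => simpa using h.1
    | succ i => simpa using ih h.2 i

/-- the parity condition -/
def par2 : ℕ → List ℤ → Bool
  | _, [] => false
  | 0, a :: t => decide (a % 2 = 1) && ev2 t
  | f + 1, _ :: t => par2 f t

theorem par2_spec (f : ℕ) (l : List ℤ) (h : par2 f l = true) :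
    l.getD f 0 % 2 = 1 ∧ ∀ i, f < i → l.getD i 0 % 2 = 0 := by
  induction l generalizing f with
  | nil => simp [par2] at h
  | cons a t ih =>
    cases f with
    | zero =>
      simp only [par2, Bool.and_eq_true, decide_eq_true_eq] at h
      refine ⟨by simpa using h.1, ?_⟩
      intro i hi
      obtain ⟨k, rfl⟩ : ∃ k, i = k + 1 := ⟨i - 1, by omega⟩
      simpa using ev2_spec t h.2 k
    | succ f =>
      simp only [par2] at h
      obtain ⟨h1, h2⟩ := ih f h
      refine ⟨by simpa using h1, ?_⟩
      intro i hi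
      obtain ⟨k, rfl⟩ : ∃ k, i = k + 1 := ⟨i - 1, by omega⟩
      simpa using h2 k (by omega)

/-- the checker -/
def chk (m : ℤ) (g f : ℕ) (l ps : List ℤ) : Bool :=
  decide (0 < m) && decide (l.length = g + 1) && decide (ps.length = g + 1) &&
    decide (l.getD 0 0 = 1) && alt m l ps && eq3 l (pw g) && par2 f l && decide (gc l 0 = 1) &&
    decide (cl 1 3 l 1 0 0 % 9 = 6)

theorem eval_one {g : ℕ} {l : List ℤ} (hl : l.length = g + 1) :
    (PP 2 g (fun i => l.getD i 0)).eval 1 = cl 1 3 l 1 0 0 := by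
  have h1 := cl_val (m := 1) (n := 3) (by norm_num) hl
  have h2 : aeval (1 : ℂ) (PP 2 g (fun i => l.getD i 0)) =
      (1 : ℂ) ^ g * aeval (1 + 2 : ℂ) (HH g (fun i => l.getD i 0)) := HH_rel (by norm_num)
  have h3 : aeval (1 + 2 : ℂ) (HH g (fun i => l.getD i 0)) =
      (((cl 1 3 l 1 0 0 : ℤ) : ℝ) : ℂ) := by
    rw [h1]
    have h4 : (1 + 2 : ℂ) = algebraMap ℝ ℂ (((3 : ℤ) : ℝ) / ((1 : ℤ) : ℝ)) := by
      push_cast
      norm_num
    rw [h4, aeval_algebraMap_apply]
    push_cast
    simp
  have h5 : aeval (1 : ℂ) (PP 2 g (fun i => l.getD i 0)) =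
      (((PP 2 g (fun i => l.getD i 0)).eval 1 : ℤ) : ℂ) := by
    have := aeval_algebraMap_apply ℂ (1 : ℤ) (PP 2 g (fun i => l.getD i 0))
    rw [map_one] at this
    rw [this]
    simp [aeval_def, eval₂_id]
  rw [h5, h3, one_pow, one_mul] at h2
  exact_mod_cast h2

theorem good_of_chk {m : ℤ} {g f : ℕ} {l ps : List ℤ} (hg : 1 ≤ g) (hf : f ≤ g)
    (h : chk m g f l ps = true) : Good 2 g f := by
  simp only [chk, Bool.and_eq_true, decide_eq_true_eq] at h
  obtain ⟨⟨⟨⟨⟨⟨⟨⟨hm, hl⟩, hps⟩, h0⟩, halt⟩, h3⟩, h2⟩, hgc⟩, h9⟩ := h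
  obtain ⟨h21, h22⟩ := par2_spec f l h2
  cases ps with
  | nil => simp at hps
  | cons p t =>
    obtain ⟨S, hS, hr⟩ := alt_roots hm hl t p halt
    refine good_two (a := fun i => l.getD i 0) hg hf h0 ?_ ?_ ?_ ?_ ?_ ?_
    · intro i hi
      rw [← toP_pw, coeff_toP]
      exact eq3_spec l _ h3 i (by omega)
    · rw [eval_one hl]
      exact h9
    · intro i hi _
      exact Int.dvd_of_emod_eq_zero (h22 i hi)
    · intro hdv
      have := Int.emod_eq_zero_of_dvd hdv
      omega
    · intro d hd
      by_contra hcon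
      push Not at hcon
      have h5 : d ∣ gc l 0 := by
        apply gc_spec
        intro i hi hne
        rw [zero_add]
        exact hcon i (by omega) hne
      rw [hgc] at h5
      have := Nat.le_of_dvd (by norm_num) h5
      omega
    · exact norm_of_S hg h0 (S := S) (by rw [hS]; simpa using hps)
        (fun s hs => ⟨(hr s hs).1, (hr s hs).2.1⟩)

end Pool.Agent.U774.WT
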