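import Pool.Agent.U774.WT.Chk

/-! # Checking all `f` for a given `g` (MP_e32a7e_nt) -/

set_option autoImplicit false

namespace Pool.Agent.U774.WT

open Pool.Agent.R80.WF

/-- check the entries for `f`, `f + 1`, ..., except those in `exc` -/
def chkAll (g : ℕ) : ℕ → List (List ℤ × List ℤ) → List ℕ → Bool
  | _, [], _ => true
  | f, x :: t, exc => (exc.contains f || chk 1000 g f x.1 x.2) && chkAll g (f + 1) t exc

theorem chkAll_spec {g : ℕ} (d : List (List ℤ × List ℤ)) (f : ℕ) (exc : List ℕ)
    (h : chkAll g f d exc = true) (j : ℕ) (hj : j < d.length) (he : f + j ∉ exc) :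
    ∃ x : List ℤ × List ℤ, chk 1000 g (f + j) x.1 x.2 = true := by
  induction d generalizing f j with
  | nil => simp at hj
  | cons x t ih =>
    simp only [chkAll, Bool.and_eq_true, Bool.or_eq_true] at h
    obtain ⟨h1, h2⟩ := h
    cases j with
    | zero =>
      rcases h1 with h1 | h1
      · exact absurd (by simpa using h1) he
      · exact ⟨x, by simpa using h1⟩
    | succ j =>
      obtain ⟨y, hy⟩ := ih (f + 1) h2 j (by simpa using hj) (by
        have e : f + (j + 1) = f + 1 + j := by ring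
        rwa [e] at he)
      exact ⟨y, by rw [show f + (j + 1) = f + 1 + j by ring]; exact hy⟩

theorem good_of_chkAll {g : ℕ} {d : List (List ℤ × List ℤ)} {exc : List ℕ} (hg : 1 ≤ g)
    (h : chkAll g 2 d exc = true) (hd : d.length = g - 1) {f : ℕ} (h2 : 2 ≤ f) (hf : f ≤ g)
    (he : f ∉ exc) : Good 2 g f := by
  obtain ⟨j, rfl⟩ : ∃ j, f = 2 + j := ⟨f - 2, by omega⟩
  obtain ⟨x, hx⟩ := chkAll_spec d 2 exc h j (by omega) he
  exact good_of_chk hg hf hx

end Pool.Agent.U774.WT
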