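import Mathlib

/-!
# The field generated by a power of an algebraic integer (MP_e32a7e_nt)

If `P` is irreducible with root `x`, products of ratios `y / x` of conjugates with `y ^ n = x ^ n`
which lie in `ℚ(x)` are `±1`, and `P` is not a polynomial in `X ^ d` for `d ≥ 2`, then
`ℚ(x ^ n) = ℚ(x)`.
-/

set_option autoImplicit false

namespace Pool.Agent.U774.WT

open Polynomial

theorem gen {P : ℤ[X]} {N : ℕ} (hPm : P.Monic) (hPd : P.natDegree = N)
    (hirr : Irreducible (P.map (Int.castRingHom ℚ))) {x : ℂ} (hx : aeval x P = 0) (hx0 : x ≠ 0)
    {n : ℕ}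
    (hU : ∀ s : Multiset ℂ, (∀ y ∈ s, aeval y P = 0 ∧ y ^ n = x ^ n) →
      (s.map (fun y => y / x)).prod ∈ IntermediateField.adjoin ℚ {x} →
      (s.map (fun y => y / x)).prod ^ 2 = 1)
    (hd : ∀ d : ℕ, 2 ≤ d → ∃ k, k ≤ N ∧ P.coeff k ≠ 0 ∧ k % d ≠ N % d) :
    IntermediateField.adjoin ℚ {x ^ n} = IntermediateField.adjoin ℚ {x} := by
  apply le_antisymm
  · rw [IntermediateField.adjoin_simple_le_iff]
    exact pow_mem (IntermediateField.mem_adjoin_simple_self ℚ x) _
  · rw [IntermediateField.adjoin_simple_le_iff]
    set F := IntermediateField.adjoin ℚ {x ^ n} with hF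
    have hxn : x ^ n ∈ F := IntermediateField.mem_adjoin_simple_self ℚ _
    have hxi : IsIntegral ℤ x := ⟨P, hPm, hx⟩
    have hxF : IsIntegral F x := hxi.tower_top
    have hle : F ≤ IntermediateField.adjoin ℚ {x} := by
      rw [hF, IntermediateField.adjoin_simple_le_iff]
      exact pow_mem (IntermediateField.mem_adjoin_simple_self ℚ x) _
    set m := minpoly F x with hm
    have hmm : m.Monic := minpoly.monic hxF
    set q := m.map (algebraMap F ℂ) with hq
    have hqm : q.Monic := hmm.map _
    have hqs : q.Splits := IsAlgClosed.splits q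
    have hroot : ∀ y ∈ q.roots, aeval y m = 0 := by
      intro y hy
      rw [mem_roots hqm.ne_zero, IsRoot.def, hq, eval_map_algebraMap] at hy
      exact hy
    have hrootP : ∀ y ∈ q.roots, aeval y P = 0 ∧ y ^ n = x ^ n := by
      intro y hy
      have hy0 := hroot y hy
      constructor
      · have hdv : m ∣ P.map (algebraMap ℤ F) := by
          refine minpoly.dvd _ _ ?_
          rw [aeval_map_algebraMap]; exact hx
        obtain ⟨Q, hQ⟩ := hdv
        have h2 := congrArg (aeval y) hQ
        rw [map_mul, hy0, zero_mul, aeval_map_algebraMap] at h2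
        exact h2
      · have hdv : m ∣ X ^ n - C (⟨x ^ n, hxn⟩ : F) := by
          refine minpoly.dvd _ _ ?_
          simp
        obtain ⟨Q, hQ⟩ := hdv
        have h2 := congrArg (aeval y) hQ
        rw [map_mul, hy0, zero_mul] at h2
        simp only [map_sub, map_pow, aeval_X, aeval_C] at h2
        have h3 : (algebraMap F ℂ) (⟨x ^ n, hxn⟩ : F) = x ^ n := rfl
        rw [h3, sub_eq_zero] at h2
        exact h2
    set d := m.natDegree with hdd
    have hqd : q.natDegree = d := hmm.natDegree_map _
    have hcard : Multiset.card q.roots = d := by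
      rw [← hqd]
      exact (splits_iff_card_roots.1 hqs)
    -- the product of the roots lies in `F`
    have hprodF : q.roots.prod ∈ F := by
      have h1 : q.coeff 0 = (-1) ^ q.natDegree * q.roots.prod := by
        exact hqs.coeff_zero_eq_prod_roots_of_monic hqm
      have h2 : q.coeff 0 ∈ F := by
        rw [hq, coeff_map]
        exact (m.coeff 0).2
      have h3 : q.roots.prod = (-1) ^ q.natDegree * q.coeff 0 := by
        rw [h1, ← mul_assoc, ← mul_pow]
        simp
      rw [h3]
      exact mul_mem (pow_mem (neg_mem (one_mem _)) _) h2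
    have hprod : q.roots.prod = (q.roots.map (fun y => y / x)).prod * x ^ d := by
      rw [← hcard]
      have : ∀ s : Multiset ℂ, s.prod = (s.map (fun y => y / x)).prod * x ^ Multiset.card s := by
        intro s
        induction s using Multiset.induction_on with
        | empty => simp
        | cons a s ih =>
          rw [Multiset.prod_cons, Multiset.map_cons, Multiset.prod_cons, Multiset.card_cons,
            pow_succ, ih]
          field_simp
      exact this _
    have hxK : x ∈ IntermediateField.adjoin ℚ {x} := IntermediateField.mem_adjoin_simple_self ℚ x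
    have hηK : (q.roots.map (fun y => y / x)).prod ∈ IntermediateField.adjoin ℚ {x} := by
      have h1 : (q.roots.map (fun y => y / x)).prod = q.roots.prod / x ^ d := by
        rw [hprod, mul_div_cancel_right₀ _ (pow_ne_zero _ hx0)]
      rw [h1]
      exact div_mem (hle hprodF) (pow_mem hxK _)
    have hη := hU q.roots hrootP hηK
    have hxd : x ^ d ∈ F := by
      have hη' : ((q.roots.map (fun y => y / x)).prod - 1) *
          ((q.roots.map (fun y => y / x)).prod + 1) = 0 := by linear_combination hη
      rcases mul_eq_zero.1 hη' with h1 | h1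
      · rw [sub_eq_zero] at h1
        rw [h1, one_mul] at hprod
        rw [← hprod]; exact hprodF
      · rw [add_eq_zero_iff_eq_neg] at h1
        rw [h1] at hprod
        have : x ^ d = - q.roots.prod := by rw [hprod]; ring
        rw [this]; exact neg_mem hprodF
    have hdpos : 0 < d := minpoly.natDegree_pos hxF
    by_cases hd1 : d = 1
    · rw [hd1, pow_one] at hxd
      exact hxd
    exfalso
    obtain ⟨k, hkN, hk0, hkd⟩ := hd d (by omega)
    -- linear independence
    set v : F := ⟨x ^ d, hxd⟩ with hv
    have hvx : (algebraMap F ℂ) v = x ^ d := rfl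
    set W : F[X] := ∑ i ∈ Finset.range (N + 1), C ((P.coeff i : F) * v ^ (i / d)) * X ^ (i % d)
      with hW
    have hWx : aeval x W = 0 := by
      rw [hW, map_sum, ← hx, aeval_eq_sum_range, hPd]
      refine Finset.sum_congr rfl fun i _ => ?_
      rw [map_mul, aeval_C, map_mul, map_pow, hvx, map_pow, aeval_X, zsmul_eq_mul, ← pow_mul,
        mul_assoc, ← pow_add, Nat.div_add_mod, map_intCast]
    have hWd : W.natDegree < d := by
      have : W.natDegree ≤ d - 1 := by
        apply natDegree_sum_le_of_forall_le
        intro i _
        refine (natDegree_C_mul_le _ _).trans ?_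
        rw [natDegree_X_pow]
        have := Nat.mod_lt i hdpos
        omega
      omega
    have hW0 : W = 0 := by
      by_contra hne
      have h1 : m.natDegree ≤ W.natDegree :=
        natDegree_le_natDegree (minpoly.degree_le_of_ne_zero F x hne hWx)
      omega
    have hcoef : ∑ i ∈ Finset.range (N + 1), (if k % d = i % d then (P.coeff i : ℂ) * x ^ i else 0)
        = 0 := by
      have h1 := congrArg (fun Q : F[X] => (algebraMap F ℂ) (Q.coeff (k % d)) * x ^ (k % d)) hW0
      simp only [coeff_zero, map_zero, zero_mul] at h1
      refine Eq.trans ?_ h1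
      rw [hW, finsetSum_coeff, map_sum, Finset.sum_mul]
      refine Finset.sum_congr rfl fun i _ => ?_
      rw [coeff_C_mul, coeff_X_pow]
      split_ifs with h2
      · rw [mul_one, map_mul, map_pow, hvx, map_intCast, h2, mul_assoc, ← pow_mul, ← pow_add,
          Nat.div_add_mod]
      · simp
    set R : ℚ[X] := ∑ i ∈ Finset.range (N + 1), (if k % d = i % d then C (P.coeff i : ℚ) * X ^ i
      else 0) with hR
    have hRx : aeval x R = 0 := by
      rw [hR, map_sum, ← hcoef]
      refine Finset.sum_congr rfl fun i _ => ?_
      split_ifs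
      · rw [map_mul, aeval_C, map_pow, aeval_X]
        simp
      · rw [map_zero]
    have hRk : R.coeff k = P.coeff k := by
      rw [hR, finsetSum_coeff, Finset.sum_eq_single k]
      · rw [if_pos rfl, coeff_C_mul, coeff_X_pow_self, mul_one]
      · intro i _ hik
        split_ifs
        · rw [coeff_C_mul, coeff_X_pow, if_neg (Ne.symm hik), mul_zero]
        · rw [coeff_zero]
      · intro h
        exact absurd (Finset.mem_range.2 (by omega)) h
    have hRne : R ≠ 0 := by
      intro h
      rw [h, coeff_zero] at hRk
      exact hk0 (by exact_mod_cast hRk.symm)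
    have hRd : R.natDegree < N := by
      have hle1 : R.natDegree ≤ N := by
        apply natDegree_sum_le_of_forall_le
        intro i hi
        have := Finset.mem_range.1 hi
        split_ifs
        · refine (natDegree_C_mul_le _ _).trans ?_
          rw [natDegree_X_pow]
          omega
        · rw [natDegree_zero]; omega
      refine lt_of_le_of_ne hle1 fun heq => ?_
      have h1 : R.coeff N ≠ 0 := by
        rw [← heq]
        exact leadingCoeff_ne_zero.2 hRne
      apply h1
      rw [hR, finsetSum_coeff]
      refine Finset.sum_eq_zero fun i _ => ?_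
      split_ifs with h2
      · rw [coeff_C_mul, coeff_X_pow, if_neg, mul_zero]
        rintro rfl
        exact hkd h2
      · rw [coeff_zero]
    have hPQ : P.map (Int.castRingHom ℚ) = minpoly ℚ x := by
      refine minpoly.eq_of_irreducible_of_monic hirr ?_ (hPm.map _)
      rw [← hx]
      exact aeval_map_algebraMap ℚ x P
    have h1 := natDegree_le_natDegree (minpoly.degree_le_of_ne_zero ℚ x hRne hRx)
    rw [← hPQ, hPm.natDegree_map, hPd] at h1
    omega

end Pool.Agent.U774.WT
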