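import Pool.Agent.U774.WT.LChk

/-!
# Irreducibility by trial division modulo 5 (MP_e32a7e_nt)
-/

set_option autoImplicit false

namespace Pool.Agent.U774.WT

open Polynomial

theorem fact5 : Fact (Nat.Prime 5) := ⟨by norm_num⟩

attribute [local instance] fact5

/-- the polynomial of a list -/
noncomputable def Q5 : List (ZMod 5) → (ZMod 5)[X]
  | [] => 0
  | a :: t => C a + X * Q5 t

/-- `r + t * v` entrywise -/
def addm (t : ZMod 5) : List (ZMod 5) → List (ZMod 5) → List (ZMod 5)
  | [], _ => []
  | r :: rs, [] => r :: rs
  | r :: rs, v :: vs => (r + t * v) :: addm t rs vs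

theorem Q5_addm (t : ZMod 5) (r v : List (ZMod 5)) (h : v.length ≤ r.length) :
    Q5 (addm t r v) = Q5 r + C t * Q5 v := by
  induction r generalizing v with
  | nil =>
    have : v = [] := List.length_eq_zero_iff.1 (by simpa using h)
    subst this
    simp [addm, Q5]
  | cons a r ih =>
    cases v with
    | nil => simp [addm, Q5]
    | cons b v =>
      simp only [addm, Q5, ih v (by simpa using h), C_add, C_mul]
      ring

theorem length_addm (t : ZMod 5) (r v : List (ZMod 5)) : (addm t r v).length = r.length := by
  induction r generalizing v with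
  | nil => simp [addm]
  | cons a r ih =>
    cases v with
    | nil => simp [addm]
    | cons b v => simp [addm, ih]

/-- split off the last entry: `(init, last)` of `c :: r` -/
def spl : ZMod 5 → List (ZMod 5) → List (ZMod 5) × ZMod 5
  | c, [] => ([], c)
  | c, a :: r => (c :: (spl a r).1, (spl a r).2)

theorem Q5_spl (c : ZMod 5) (r : List (ZMod 5)) :
    Q5 (c :: r) = Q5 (spl c r).1 + C (spl c r).2 * X ^ r.length := by
  induction r generalizing c with
  | nil => simp [spl, Q5]
  | cons a r ih =>
    have h := ih a
    simp only [spl, Q5, List.length_cons] at h ⊢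
    rw [h]
    ring

theorem length_spl (c : ZMod 5) (r : List (ZMod 5)) : (spl c r).1.length = r.length := by
  induction r generalizing c with
  | nil => simp [spl]
  | cons a r ih => simp [spl, ih]

/-- remainder modulo `X ^ k + Q5 a` where `k = a.length` -/
def rem (a : List (ZMod 5)) : List (ZMod 5) → List (ZMod 5)
  | [] => a.map (fun _ => 0)
  | c :: h => addm (-(spl c (rem a h)).2) (spl c (rem a h)).1 a

theorem length_rem (a h : List (ZMod 5)) : (rem a h).length = a.length := by
  induction h with
  | nil => simp [rem]
  | cons c h ih => rw [rem, length_addm, length_spl, ih]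

theorem Q5_zero (a : List (ZMod 5)) : Q5 (a.map (fun _ => 0)) = 0 := by
  induction a with
  | nil => rfl
  | cons b a ih =>
    rw [List.map_cons, Q5, ih]
    simp

theorem dvd_rem (a h : List (ZMod 5)) :
    (X ^ a.length + Q5 a) ∣ Q5 h - Q5 (rem a h) := by
  induction h with
  | nil => rw [rem, Q5_zero]; simp [Q5]
  | cons c h ih =>
    have h1 : Q5 (rem a (c :: h)) = Q5 (c :: rem a h) -
        C (spl c (rem a h)).2 * (X ^ a.length + Q5 a) := by
      rw [rem, Q5_addm _ _ _ (by rw [length_spl, length_rem]), Q5_spl c (rem a h), length_rem, C_neg]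
      ring
    rw [h1]
    obtain ⟨q, hq⟩ := ih
    refine ⟨X * q + C (spl c (rem a h)).2, ?_⟩
    simp only [Q5]
    linear_combination X * hq

theorem natDegree_Q5 (a : List (ZMod 5)) (ha : a ≠ []) : (Q5 a).natDegree < a.length := by
  induction a with
  | nil => exact absurd rfl ha
  | cons b a ih =>
    by_cases h : a = []
    · subst h
      simp [Q5]
    · have h1 := ih h
      have h2 : (X * Q5 a).natDegree ≤ (Q5 a).natDegree + 1 := by
        refine natDegree_mul_le.trans ?_
        rw [natDegree_X]
        omega
      have h3 : (Q5 (b :: a)).natDegree ≤ (Q5 a).natDegree + 1 := by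
        refine natDegree_add_le_of_degree_le ?_ h2
        rw [natDegree_C]
        omega
      rw [List.length_cons]
      omega

theorem Q5_eq_zero (a : List (ZMod 5)) (h : Q5 a = 0) : a = a.map (fun _ => 0) := by
  induction a with
  | nil => rfl
  | cons b a ih =>
    have h0 := congrArg (fun q => coeff q 0) h
    simp only [Q5, coeff_add, coeff_C_zero, coeff_X_mul_zero, add_zero, coeff_zero] at h0
    have h1 : Q5 a = 0 := by
      simp only [Q5, h0, C_0, zero_add] at h
      rcases mul_eq_zero.1 h with h2 | h2
      · exact absurd h2 X_ne_zero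
      · exact h2
    rw [List.map_cons, ← ih h1, h0]

theorem rem_of_dvd {a h : List (ZMod 5)} (ha : a ≠ []) (hd : (X ^ a.length + Q5 a) ∣ Q5 h) :
    rem a h = a.map (fun _ => 0) := by
  have h1 := dvd_rem a h
  have h2 : (X ^ a.length + Q5 a) ∣ Q5 (rem a h) := by
    have := dvd_sub hd h1
    simpa using this
  have h3 := natDegree_Q5 a ha
  have hlen : 0 < a.length := List.length_pos_iff.2 ha
  have hm : (X ^ a.length + Q5 a).Monic := monic_X_pow_add (by
    refine lt_of_le_of_lt degree_le_natDegree ?_
    exact_mod_cast h3)
  have hdeg : (X ^ a.length + Q5 a).natDegree = a.length := by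
    rw [natDegree_add_eq_left_of_natDegree_lt]
    · rw [natDegree_X_pow]
    · rw [natDegree_X_pow]; exact h3
  have h4 : Q5 (rem a h) = 0 := by
    by_contra hne
    have h5 := natDegree_le_of_dvd h2 hne
    have h6 : rem a h ≠ [] := by
      intro h
      have := length_rem a ‹_›
      rw [h] at this
      simp at this
      omega
    have h7 := natDegree_Q5 (rem a h) h6
    rw [length_rem] at h7
    omega
  have h5 := Q5_eq_zero _ h4
  rw [h5]
  have h6 := length_rem a h
  simp only [List.map_const', h6]

/-- all lists of length `k` -/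
def vecs : ℕ → List (List (ZMod 5))
  | 0 => [[]]
  | k + 1 => (vecs k).flatMap (fun v => [0 :: v, 1 :: v, 2 :: v, 3 :: v, 4 :: v])

theorem mem_vecs (k : ℕ) (a : List (ZMod 5)) (h : a.length = k) : a ∈ vecs k := by
  induction k generalizing a with
  | zero =>
    rw [List.length_eq_zero_iff.1 h]
    simp [vecs]
  | succ k ih =>
    cases a with
    | nil => simp at h
    | cons b a =>
      rw [vecs, List.mem_flatMap]
      refine ⟨a, ih a (by simpa using h), ?_⟩
      have : ∀ b : ZMod 5, b = 0 ∨ b = 1 ∨ b = 2 ∨ b = 3 ∨ b = 4 := by decide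
      rcases this b with rfl | rfl | rfl | rfl | rfl <;> simp

/-- the list of a polynomial -/
noncomputable def toL (A : (ZMod 5)[X]) : ℕ → List (ZMod 5)
  | 0 => []
  | k + 1 => A.coeff 0 :: toL A.divX k

theorem length_toL (A : (ZMod 5)[X]) (k : ℕ) : (toL A k).length = k := by
  induction k generalizing A with
  | zero => rfl
  | succ k ih => simp [toL, ih]

theorem eq_toL (A : (ZMod 5)[X]) (k : ℕ) (hA : A.Monic) (hk : A.natDegree = k) :
    A = X ^ k + Q5 (toL A k) := by
  have key : ∀ (k : ℕ) (A : (ZMod 5)[X]), (∀ i, k < i → A.coeff i = 0) →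
      A = C (A.coeff k) * X ^ k + Q5 (toL A k) := by
    intro k
    induction k with
    | zero =>
      intro A hA
      ext i
      by_cases hi : i = 0
      · subst hi
        simp [toL, Q5]
      · rw [hA i (by omega)]
        simp [toL, Q5, coeff_C, hi]
    | succ k ih =>
      intro A hA
      have h1 := ih A.divX (by
        intro i hi
        rw [coeff_divX]
        exact hA (i + 1) (by omega))
      have h2 := A.divX_mul_X_add
      rw [toL, Q5]
      conv_lhs => rw [← h2, h1]
      rw [coeff_divX, pow_succ]
      ring
  have h1 := key k A (fun i hi => coeff_eq_zero_of_natDegree_lt (by omega))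
  have h2 : A.coeff k = 1 := by rw [← hk]; exact hA
  rw [h2, C_1, one_mul] at h1
  exact h1

/-- trial division by monic polynomials of degree `1, ..., k` -/
def trial (h : List (ZMod 5)) : ℕ → Bool
  | 0 => true
  | k + 1 => (vecs (k + 1)).all (fun a => decide (rem a h ≠ a.map (fun _ => 0))) && trial h k

theorem trial_spec (h : List (ZMod 5)) (k : ℕ) (ht : trial h k = true) (j : ℕ) (hj : 1 ≤ j)
    (hjk : j ≤ k) (a : List (ZMod 5)) (ha : a.length = j) : rem a h ≠ a.map (fun _ => 0) := by
  induction k with
  | zero => omega
  | succ k ih =>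
    simp only [trial, Bool.and_eq_true] at ht
    rcases Nat.lt_or_ge j (k + 1) with h1 | h1
    · exact ih ht.2 (by omega)
    · have hjk' : j = k + 1 := by omega
      have h2 := List.all_eq_true.1 ht.1 a (mem_vecs _ a (by omega))
      simpa using h2

/-- reduction modulo 5 -/
def red5 (l : List ℤ) : List (ZMod 5) := List.map (fun a : ℤ => (Int.cast a : ZMod 5)) l

theorem map_LP5 (l : List ℤ) : (LP l).map (Int.castRingHom (ZMod 5)) = Q5 (red5 l) := by
  induction l with
  | nil => simp [LP, Q5, red5]
  | cons a t ih =>
    have e : red5 (a :: t) = (Int.cast a : ZMod 5) :: red5 t := rfl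
    rw [LP, e, Q5, Polynomial.map_add, Polynomial.map_mul, map_C, map_X, ih]
    simp

/-- irreducibility from trial division modulo 5 -/
theorem irr5 {l : List ℤ} {n : ℕ} (hn : 2 ≤ n) (hm : (LP l).Monic) (hd : (LP l).natDegree = n)
    (h : trial (red5 l) (n / 2) = true) : Irreducible (LP l) := by
  refine hm.irreducible_of_irreducible_map (Int.castRingHom (ZMod 5)) _ ?_
  have hm5 : ((LP l).map (Int.castRingHom (ZMod 5))).Monic := hm.map _
  have hd5 : ((LP l).map (Int.castRingHom (ZMod 5))).natDegree = n := by
    rw [hm.natDegree_map, hd]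
  rw [hm5.irreducible_iff_natDegree']
  refine ⟨?_, ?_⟩
  · intro h1
    rw [h1, natDegree_one] at hd5
    omega
  · intro A B hA hB hAB hmem
    rw [Finset.mem_Ioc, hd5] at hmem
    have h1 := eq_toL B B.natDegree hB rfl
    have h2 := length_toL B B.natDegree
    refine trial_spec _ _ h B.natDegree (by omega) hmem.2 (toL B B.natDegree) h2 ?_
    apply rem_of_dvd
    · intro h3
      rw [h3] at h2
      simp at h2
      omega
    · rw [h2, ← h1, ← map_LP5, ← hAB]
      exact dvd_mul_left _ _

end Pool.Agent.U774.WT
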