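import Pool.Agent.U774.WT.Large
import Pool.Agent.U774.WT.Chk

/-!
# A verified checker for polynomials on the circle `|w| = 1 / √2` (MP_e32a7e_nt)
-/

set_option autoImplicit false

namespace Pool.Agent.U774.WT

open Polynomial Complex Pool.Agent.R80.WF

/-- evaluation of a list as a polynomial -/
def ev : List ℤ → ℝ → ℝ
  | [], _ => 0
  | a :: t, y => a + y * ev t y

/-- addition -/
def ladd : List ℤ → List ℤ → List ℤ
  | [], q => q
  | a :: p, [] => a :: p
  | a :: p, b :: q => (a + b) :: ladd p q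

/-- multiplication by a constant -/
def smul (c : ℤ) (p : List ℤ) : List ℤ := p.map (fun a => c * a)

theorem ev_ladd (p q : List ℤ) (y : ℝ) : ev (ladd p q) y = ev p y + ev q y := by
  induction p generalizing q with
  | nil => simp [ladd, ev]
  | cons a p ih =>
    cases q with
    | nil => simp [ladd, ev]
    | cons b q =>
      simp only [ladd, ev, ih]
      push_cast
      ring

theorem ev_smul (c : ℤ) (p : List ℤ) (y : ℝ) : ev (smul c p) y = c * ev p y := by
  induction p with
  | nil => simp [smul, ev]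
  | cons a p ih =>
    simp only [smul, List.map_cons, ev] at ih ⊢
    rw [ih]
    push_cast
    ring

/-- the decomposition `2 ^ n L(w) = A(y) + B(y) (2 w)` -/
def AB : List ℤ → List ℤ × List ℤ
  | [] => ([], [])
  | a :: t => (ladd [2 ^ (t.length + 1) * a] (smul (-2) (AB t).2), ladd (AB t).1 (0 :: (AB t).2))

/-- complex evaluation of a list -/
noncomputable def T : List ℤ → ℂ → ℂ
  | [], _ => 0
  | a :: t, w => a + w * T t w

theorem AB_eq (l : List ℤ) (w : ℂ) (y : ℝ) (h : (2 * w) ^ 2 = y * (2 * w) - 2) :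
    2 ^ l.length * T l w = (ev (AB l).1 y : ℂ) + (ev (AB l).2 y : ℂ) * (2 * w) := by
  induction l with
  | nil => simp [T, AB, ev]
  | cons a t ih =>
    simp only [T, AB, ev_ladd, ev_smul, ev, List.length_cons]
    push_cast
    linear_combination (2 * w) * ih + (ev (AB t).2 y : ℂ) * h

/-- scaling -/
def scl (m : ℤ) : List ℤ → List ℤ
  | [] => []
  | a :: t => (a * m ^ t.length) :: scl m t

theorem ev_scl (m : ℤ) (p : List ℤ) (y : ℝ) :
    m * ev (scl m p) (m * y) = m ^ p.length * ev p y := by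
  induction p with
  | nil => simp [scl, ev]
  | cons a t ih =>
    simp only [scl, ev, List.length_cons]
    push_cast
    linear_combination (m * y) * ih

/-- Taylor shift -/
def tay (c : ℤ) : List ℤ → List ℤ
  | [] => []
  | a :: t => ladd [a] (ladd (smul c (tay c t)) (0 :: tay c t))

theorem ev_tay (c : ℤ) (p : List ℤ) (s : ℝ) : ev (tay c p) s = ev p (s + c) := by
  induction p with
  | nil => simp [tay, ev]
  | cons a t ih =>
    simp only [tay, ev, ev_ladd, ev_smul, ih]
    push_cast
    ring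

/-- upper bound for the absolute value -/
def hi (h : ℤ) : List ℤ → ℤ
  | [] => 0
  | a :: t => |a| + h * hi h t

/-- lower bound -/
def low (h : ℤ) : List ℤ → ℤ
  | [] => 0
  | a :: t => a - h * hi h t

theorem abs_ev_le {h : ℤ} (hh : 0 ≤ h) (p : List ℤ) {s : ℝ} (hs : |s| ≤ h) : |ev p s| ≤ hi h p := by
  induction p with
  | nil => simp [ev, hi]
  | cons a t ih =>
    simp only [ev, hi]
    push_cast
    have h0 : (0 : ℝ) ≤ h := by exact_mod_cast hh
    calc |(a : ℝ) + s * ev t s| ≤ |(a : ℝ)| + |s * ev t s| := abs_add_le _ _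
      _ = |(a : ℝ)| + |s| * |ev t s| := by rw [abs_mul]
      _ ≤ |(a : ℝ)| + h * hi h t := by
        have := mul_le_mul hs ih (abs_nonneg _) h0
        linarith

theorem low_le {h : ℤ} (hh : 0 ≤ h) (p : List ℤ) {s : ℝ} (hs : |s| ≤ h) : low h p ≤ ev p s := by
  cases p with
  | nil => simp [ev, low]
  | cons a t =>
    simp only [ev, low]
    push_cast
    have h0 : (0 : ℝ) ≤ h := by exact_mod_cast hh
    have h1 := abs_ev_le hh t hs
    have h2 : |s * ev t s| ≤ h * hi h t := by
      rw [abs_mul]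
      exact mul_le_mul hs h1 (abs_nonneg _) h0
    have h3 := neg_abs_le (s * ev t s)
    linarith

/-- positivity on an interval -/
theorem pos_of_low {m c h : ℤ} (hm : 0 < m) (hh : 0 ≤ h) {p : List ℤ}
    (hp : 0 < low h (tay c (scl m p))) {y : ℝ} (hy : |m * y - c| ≤ h) : 0 < ev p y := by
  have h1 := low_le hh (tay c (scl m p)) hy
  rw [ev_tay, sub_add_cancel] at h1
  have h2 : (0 : ℝ) < low h (tay c (scl m p)) := by exact_mod_cast hp
  have h3 : 0 < ev (scl m p) (m * y) := lt_of_lt_of_le h2 h1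
  have h4 := ev_scl m p y
  have hm' : (0 : ℝ) < m := by exact_mod_cast hm
  have h5 : 0 < (m : ℝ) ^ p.length * ev p y := by
    rw [← h4]
    positivity
  exact pos_of_mul_pos_right h5 (by positivity)

/-- one interval -/
def ckE (m K : ℤ) (P0 B : List ℤ) (e : ℤ × ℤ × ℤ) : Bool :=
  decide (0 ≤ e.2.1) && (if e.2.2 = 0 then decide (0 < low e.2.1 (tay e.1 (scl m P0))) else
    decide (K ^ 2 * m ^ 2 ≤ 64 * e.2.2 ^ 2 * (8 * m ^ 2 - (e.1 - e.2.1) ^ 2)) &&
    decide (K ^ 2 * m ^ 2 ≤ 64 * e.2.2 ^ 2 * (8 * m ^ 2 - (e.1 + e.2.1) ^ 2)) &&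
    decide (0 < low e.2.1 (tay e.1 (scl m (ladd (smul e.2.2 B) [-e.2.2 ^ 2])))))

/-- the intervals cover -/
def covers : ℤ → ℤ → List (ℤ × ℤ × ℤ) → Bool
  | cur, fin, [] => decide (fin < cur)
  | cur, fin, e :: t => decide (e.1 - e.2.1 ≤ cur) && covers (e.1 + e.2.1) fin t

theorem covers_spec (es : List (ℤ × ℤ × ℤ)) (cur fin : ℤ) (h : covers cur fin es = true) (s : ℝ)
    (h1 : (cur : ℝ) ≤ s) (h2 : s ≤ fin) : ∃ e ∈ es, |s - e.1| ≤ e.2.1 := by
  induction es generalizing cur with
  | nil =>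
    simp only [covers, decide_eq_true_eq] at h
    have : (fin : ℝ) < cur := by exact_mod_cast h
    linarith
  | cons e t ih =>
    simp only [covers, Bool.and_eq_true, decide_eq_true_eq] at h
    obtain ⟨h3, h4⟩ := h
    rcases le_total s ((e.1 : ℝ) + e.2.1) with h5 | h5
    · refine ⟨e, List.mem_cons_self, ?_⟩
      have h6 : ((e.1 : ℝ) - e.2.1) ≤ cur := by exact_mod_cast h3
      rw [abs_le]
      constructor <;> linarith
    · obtain ⟨e', he', h6⟩ := ih (e.1 + e.2.1) h4 (by push_cast; exact h5)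
      exact ⟨e', List.mem_cons_of_mem _ he', h6⟩

/-- the check on the circle -/
def ckC (m R : ℤ) (l : List ℤ) (es : List (ℤ × ℤ × ℤ)) : Bool :=
  decide (0 < m) && decide (0 < R) && decide (8 * m ^ 2 ≤ R ^ 2) && covers (-R) R es &&
    es.all (ckE m (2 ^ l.length) (ladd (ladd (smul 16 (AB l).1) (smul 8 (0 :: (AB l).2)))
      [-2 ^ l.length]) (AB l).2)

theorem ckC_spec {m R : ℤ} {l : List ℤ} {es : List (ℤ × ℤ × ℤ)} (h : ckC m R l es = true) {w : ℂ}
    (hw : ‖w‖ = rho) : T l w ∈ slitPlane ∧ 1 / 16 ≤ ‖T l w‖ := by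
  simp only [ckC, Bool.and_eq_true, decide_eq_true_eq] at h
  obtain ⟨⟨⟨⟨hm, hR⟩, hR8⟩, hcov⟩, hall⟩ := h
  have hm' : (0 : ℝ) < m := by exact_mod_cast hm
  set y : ℝ := 4 * w.re with hy
  have hn : w.re ^ 2 + w.im ^ 2 = 1 / 2 := by
    have h1 : ‖w‖ ^ 2 = w.re ^ 2 + w.im ^ 2 := by
      rw [← normSq_eq_norm_sq, normSq_apply]
      ring
    rw [← h1, hw, rho_sq]
  have hy8 : y ^ 2 ≤ 8 := by
    rw [hy]
    nlinarith [sq_nonneg w.im]
  have hv : (2 * w) ^ 2 = y * (2 * w) - 2 := by
    apply Complex.ext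
    · simp only [hy, pow_two, mul_re, mul_im, sub_re, ofReal_re, ofReal_im]
      simp
      linear_combination (-4 : ℝ) * hn
    · simp only [hy, pow_two, mul_re, mul_im, sub_im, ofReal_re, ofReal_im]
      simp
      ring
  have hM := AB_eq l w y hv
  set A := ev (AB l).1 y with hA
  set B := ev (AB l).2 y with hB
  set K : ℝ := 2 ^ l.length with hK
  have hKpos : 0 < K := by positivity
  have hre : K * (T l w).re = A + B * (y / 2) := by
    have h1 := congrArg Complex.re hM
    have h2 : (2 : ℂ) ^ l.length = ((K : ℝ) : ℂ) := by rw [hK]; push_cast; rfl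
    have h3 : (2 * w).re = 2 * w.re := by simp
    rw [h2, re_ofReal_mul, add_re, ofReal_re, re_ofReal_mul, h3] at h1
    rw [h1, hy]
    ring
  have him : K * (T l w).im = B * (2 * w.im) := by
    have h1 := congrArg Complex.im hM
    have h2 : (2 : ℂ) ^ l.length = ((K : ℝ) : ℂ) := by rw [hK]; push_cast; rfl
    rw [h2, im_ofReal_mul, add_im, ofReal_im, im_ofReal_mul] at h1
    rw [h1]
    simp
  have hmy : |(m : ℝ) * y| ≤ R := by
    have hR' : (0 : ℝ) < R := by exact_mod_cast hR
    have hR8' : 8 * (m : ℝ) ^ 2 ≤ R ^ 2 := by exact_mod_cast hR8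
    apply abs_le_of_sq_le_sq _ hR'.le
    rw [mul_pow]
    nlinarith [sq_nonneg (m : ℝ)]
  rw [abs_le] at hmy
  obtain ⟨e, he, hes⟩ := covers_spec es _ _ hcov (m * y) (by push_cast; linarith)
    (by push_cast; linarith)
  have hck := List.all_eq_true.1 hall e he
  simp only [ckE, Bool.and_eq_true, decide_eq_true_eq] at hck
  obtain ⟨hh, hck⟩ := hck
  split_ifs at hck with hb
  · rw [decide_eq_true_eq] at hck
    have h1 := pos_of_low hm hh hck hes
    rw [ev_ladd, ev_ladd, ev_smul, ev_smul] at h1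
    simp only [ev] at h1
    push_cast at h1
    rw [← hA, ← hB, ← hK] at h1
    have h2 : 1 / 16 < (T l w).re := by
      have h3 : K * (1 / 16) < K * (T l w).re := by
        rw [hre]
        linarith
      exact lt_of_mul_lt_mul_left h3 hKpos.le
    refine ⟨?_, ?_⟩
    · rw [mem_slitPlane_iff]
      left
      linarith
    · exact h2.le.trans ((le_abs_self _).trans (abs_re_le_norm _))
  · simp only [Bool.and_eq_true, decide_eq_true_eq] at hck
    obtain ⟨⟨hu1, hu2⟩, hlow⟩ := hck
    have h1 := pos_of_low hm hh hlow hes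
    rw [ev_ladd, ev_smul] at h1
    simp only [ev] at h1
    push_cast at h1
    rw [← hB] at h1
    set b : ℝ := (e.2.2 : ℝ) with hbdef
    have hb' : b ≠ 0 := by
      rw [hbdef]
      exact_mod_cast hb
    have hb2 : 0 < b ^ 2 := by positivity
    have hBb : b ^ 2 < B ^ 2 := by
      have h3 : b ^ 2 < b * B := by linarith
      have h4 : 0 ≤ (b - B) ^ 2 := sq_nonneg _
      nlinarith
    -- the bound at `y`
    have hu1' : K ^ 2 * (m : ℝ) ^ 2 ≤ 64 * b ^ 2 * (8 * (m : ℝ) ^ 2 - ((e.1 : ℝ) - e.2.1) ^ 2) := by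
      rw [hK, hbdef]
      exact_mod_cast hu1
    have hu2' : K ^ 2 * (m : ℝ) ^ 2 ≤ 64 * b ^ 2 * (8 * (m : ℝ) ^ 2 - ((e.1 : ℝ) + e.2.1) ^ 2) := by
      rw [hK, hbdef]
      exact_mod_cast hu2
    have hσ : K ^ 2 * (m : ℝ) ^ 2 ≤ 64 * b ^ 2 * (8 * (m : ℝ) ^ 2 - (m * y) ^ 2) := by
      rw [abs_le] at hes
      rcases le_total 0 ((m : ℝ) * y) with h5 | h5
      · refine hu2'.trans (mul_le_mul_of_nonneg_left ?_ (by positivity))
        have : (m * y) ^ 2 ≤ ((e.1 : ℝ) + e.2.1) ^ 2 := by
          apply pow_le_pow_left₀ h5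
          linarith
        linarith
      · refine hu1'.trans (mul_le_mul_of_nonneg_left ?_ (by positivity))
        have : (m * y) ^ 2 ≤ ((e.1 : ℝ) - e.2.1) ^ 2 := by
          rw [← neg_sq (m * y), ← neg_sq ((e.1 : ℝ) - e.2.1)]
          apply pow_le_pow_left₀ (by linarith)
          linarith
        linarith
    have hσ' : K ^ 2 ≤ 64 * b ^ 2 * (8 - y ^ 2) := by
      have h6 : (m : ℝ) ^ 2 * K ^ 2 ≤ (m : ℝ) ^ 2 * (64 * b ^ 2 * (8 - y ^ 2)) := by
        have e1 : (m : ℝ) ^ 2 * (64 * b ^ 2 * (8 - y ^ 2)) =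
          64 * b ^ 2 * (8 * (m : ℝ) ^ 2 - (m * y) ^ 2) := by ring
        rw [e1]
        linarith
      exact le_of_mul_le_mul_left h6 (by positivity)
    have him2 : (K * (T l w).im) ^ 2 = B ^ 2 * ((8 - y ^ 2) / 4) := by
      rw [him, hy]
      linear_combination (4 * B ^ 2) * hn
    have h8 : 0 ≤ 8 - y ^ 2 := by linarith
    have him3 : (1 / 16) ^ 2 ≤ (T l w).im ^ 2 := by
      have h9 : K ^ 2 * (1 / 16) ^ 2 ≤ K ^ 2 * (T l w).im ^ 2 := by
        have e2 : K ^ 2 * (T l w).im ^ 2 = B ^ 2 * ((8 - y ^ 2) / 4) := by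
          rw [← him2]; ring
        rw [e2]
        have h10 : b ^ 2 * ((8 - y ^ 2) / 4) ≤ B ^ 2 * ((8 - y ^ 2) / 4) :=
          mul_le_mul_of_nonneg_right hBb.le (by linarith)
        linarith
      exact le_of_mul_le_mul_left h9 (by positivity)
    have him4 : 1 / 16 ≤ |(T l w).im| := by
      rw [← abs_of_pos (show (0 : ℝ) < 1 / 16 by norm_num)]
      exact sq_le_sq.1 him3
    refine ⟨?_, ?_⟩
    · rw [mem_slitPlane_iff]
      right
      intro h0
      rw [h0, abs_zero] at him4
      norm_num at him4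
    · exact him4.trans (abs_im_le_norm _)

/-- the polynomial of a list -/
noncomputable def LP : List ℤ → ℤ[X]
  | [] => 0
  | a :: t => C a + X * LP t

theorem aeval_LP (l : List ℤ) (w : ℂ) : aeval w (LP l) = T l w := by
  induction l with
  | nil => simp [LP, T]
  | cons a t ih =>
    simp only [LP, T, map_add, map_mul, aeval_C, aeval_X, ih]
    simp

theorem map_LP (l : List ℤ) : (LP l).map (Int.castRingHom (ZMod 3)) = toP l := by
  induction l with
  | nil => simp [LP, toP]
  | cons a t ih =>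
    simp only [LP, toP, Polynomial.map_add, Polynomial.map_mul, map_C, map_X, ih]
    simp

theorem coeff_LP (l : List ℤ) (i : ℕ) : (LP l).coeff i = l.getD i 0 := by
  induction l generalizing i with
  | nil => simp [LP]
  | cons a t ih =>
    cases i with
    | zero => simp [LP]
    | succ i => rw [LP, coeff_add, coeff_C_succ, coeff_X_mul, ih, zero_add, List.getD_cons_succ]

/-- all entries vanish modulo 3 -/
def allz : List ℤ → Bool
  | [] => true
  | b :: u => decide (b % 3 = 0) && allz u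

/-- equality modulo 3 -/
def eqz : List ℤ → List ℤ → Bool
  | [], c => allz c
  | a :: t, [] => decide (a % 3 = 0) && eqz t []
  | a :: t, b :: u => decide ((a - b) % 3 = 0) && eqz t u

theorem cast3 {a : ℤ} (h : a % 3 = 0) : ((a : ℤ) : ZMod 3) = 0 :=
  (ZMod.intCast_zmod_eq_zero_iff_dvd a 3).2 (Int.dvd_of_emod_eq_zero h)

theorem allz_spec (c : List ℤ) (h : allz c = true) : toP c = 0 := by
  induction c with
  | nil => rfl
  | cons b u ih =>
    simp only [allz, Bool.and_eq_true, decide_eq_true_eq] at h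
    rw [toP, ih h.2, cast3 h.1]
    simp

theorem eqz_spec (l c : List ℤ) (h : eqz l c = true) : toP l = toP c := by
  induction l generalizing c with
  | nil => exact (allz_spec c h).symm
  | cons a t ih =>
    cases c with
    | nil =>
      simp only [eqz, Bool.and_eq_true, decide_eq_true_eq] at h
      have e := ih _ h.2
      show C (a : ZMod 3) + X * toP t = toP []
      rw [e, cast3 h.1]
      simp [toP]
    | cons b u =>
      simp only [eqz, Bool.and_eq_true, decide_eq_true_eq] at h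
      rw [toP, toP, ih _ h.2]
      have := cast3 h.1
      push_cast at this
      rw [sub_eq_zero.1 this]

theorem sum_LP (l : List ℤ) :
    ∑ k ∈ (LP l).support, |(LP l).coeff k| ≤ (l.map (fun a => |a|)).sum := by
  have h1 : ∀ s : Finset ℕ, ∑ k ∈ s, |(LP l).coeff k| ≤ (l.map (fun a => |a|)).sum := by
    induction l with
    | nil => intro s; simp [LP]
    | cons a t ih =>
      intro s
      have h2 := ih ((s.filter (fun k => 0 < k)).image (fun k => k - 1))
      have h3 : ∑ k ∈ (s.filter (fun k => 0 < k)).image (fun k => k - 1), |(LP t).coeff k| =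
          ∑ k ∈ s.filter (fun k => 0 < k), |(LP (a :: t)).coeff k| := by
        rw [Finset.sum_image]
        · refine Finset.sum_congr rfl fun k hk => ?_
          have := (Finset.mem_filter.1 hk).2
          obtain ⟨j, rfl⟩ : ∃ j, k = j + 1 := ⟨k - 1, by omega⟩
          rw [coeff_LP, coeff_LP]
          simp
        · intro x hx y hy hxy
          have hx' := (Finset.mem_filter.1 hx).2
          have hy' := (Finset.mem_filter.1 hy).2
          simp only at hxy
          omega
      rw [h3] at h2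
      rw [← Finset.sum_filter_add_sum_filter_not s (fun k => 0 < k), List.map_cons,
        List.sum_cons]
      have h4 : ∑ k ∈ s.filter (fun k => ¬ 0 < k), |(LP (a :: t)).coeff k| ≤ |a| := by
        have h5 : ∑ k ∈ s.filter (fun k => ¬ 0 < k), |(LP (a :: t)).coeff k| ≤
            ∑ k ∈ ({0} : Finset ℕ), |(LP (a :: t)).coeff k| := by
          apply Finset.sum_le_sum_of_subset_of_nonneg
          · intro k hk
            have := (Finset.mem_filter.1 hk).2
            rw [Finset.mem_singleton]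
            omega
          · intro k _ _
            exact abs_nonneg _
        rw [Finset.sum_singleton, coeff_LP] at h5
        simpa using h5
      linarith
  exact h1 _

/-- the full check -/
def ckL (m R : ℤ) (r f : ℕ) (l : List ℤ) (es : List (ℤ × ℤ × ℤ)) : Bool :=
  ckC m R l es && decide (l.getD 0 0 = 1) && eqz l (pw r) && par2 f l &&
    decide ((l.map (fun a => |a|)).sum ≤ 48)

theorem ckL_spec {m R : ℤ} {g r f : ℕ} {l : List ℤ} {es : List (ℤ × ℤ × ℤ)}
    (h : ckL m R r f l es = true) (hr : g % 3 = r) : LGood g f (LP l) := by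
  simp only [ckL, Bool.and_eq_true, decide_eq_true_eq] at h
  obtain ⟨⟨⟨⟨h1, h2⟩, h3⟩, h4⟩, h5⟩ := h
  obtain ⟨h6, h7⟩ := par2_spec f l h4
  refine ⟨?_, ?_, ?_, ?_, ?_, ?_⟩
  · rw [coeff_LP]; exact h2
  · rw [map_LP, eqz_spec _ _ h3, toP_pw, hr]
  · rw [coeff_LP]; exact h6
  · intro i hi
    rw [coeff_LP]; exact h7 i hi
  · exact (sum_LP l).trans h5
  · intro w hw
    rw [aeval_LP]
    exact ckC_spec h1 hw

end Pool.Agent.U774.WT
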