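import Pool.Agent.U774.WT.Root2
import Pool.Agent.U774.WT.Asm3

/-!
# Weil `2`-polynomials of large degree (MP_e32a7e_nt)

`P` is built from `L(w) G(w)`, where `G = (1 - w^6)^(g/3)` modulo 3 with coefficients `1` and `0, ±2`,
and `L` is a fixed polynomial depending on `g` modulo 3 and on `f`.
-/

set_option autoImplicit false

namespace Pool.Agent.U774.WT

open Polynomial Complex Pool.Agent.R80.WF

/-- `1 / √2` -/
noncomputable def rho : ℝ := (Real.sqrt 2)⁻¹

theorem rho_pos : 0 < rho := by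
  unfold rho
  positivity

theorem rho_sq : rho ^ 2 = 1 / 2 := by
  unfold rho
  rw [inv_pow, Real.sq_sqrt (by norm_num)]
  norm_num

theorem rho_lt : rho < 0.7072 := by
  have h1 := rho_sq
  have h2 := rho_pos
  nlinarith

theorem lt_rho : 0.7071 < rho := by
  have h1 := rho_sq
  have h2 := rho_pos
  nlinarith

/-- conditions on the polynomial `L` -/
structure LGood (g f : ℕ) (L : ℤ[X]) : Prop where
  zero : L.coeff 0 = 1
  mod3 : L.map (Int.castRingHom (ZMod 3)) = (1 - X ^ 2) ^ (g % 3)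
  odd : L.coeff f % 2 = 1
  even : ∀ i, f < i → L.coeff i % 2 = 0
  sum : ∑ k ∈ L.support, |L.coeff k| ≤ 48
  slit : ∀ w : ℂ, ‖w‖ = rho → aeval w L ∈ slitPlane ∧ 1 / 16 ≤ ‖aeval w L‖

/-- lift from `ZMod 3` to `{0, 2, -2}` -/
def lift2 (z : ZMod 3) : ℤ := if z = 0 then 0 else if z = 1 then -2 else 2

theorem lift2_cast : ∀ z : ZMod 3, ((lift2 z : ℤ) : ZMod 3) = z := by decide

theorem lift2_even (z : ZMod 3) : lift2 z = 2 * (lift2 z / 2) := by
  unfold lift2
  split_ifs <;> norm_num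

theorem lift2_abs (z : ZMod 3) : |lift2 z| ≤ 2 := by
  unfold lift2
  split_ifs <;> norm_num

/-- the coefficients of `G` -/
noncomputable def ee (m : ℕ) (j : ℕ) : ℤ :=
  if j = 0 then 1 else lift2 (((1 - X : (ZMod 3)[X]) ^ m).coeff j)

theorem ee_cast (m j : ℕ) : ((ee m j : ℤ) : ZMod 3) = ((1 - X : (ZMod 3)[X]) ^ m).coeff j := by
  unfold ee
  split_ifs with h
  · subst h
    rw [coeff_zero_eq_eval_zero]
    simp
  · exact lift2_cast _

theorem ee_abs (m j : ℕ) : |ee m j| ≤ 2 := by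
  unfold ee
  split_ifs with h
  · norm_num
  · exact lift2_abs _

/-- the polynomial `G` -/
noncomputable def GP (g : ℕ) : ℤ[X] :=
  ∑ j ∈ Finset.range (g / 6 + 1), C (ee (g / 3) j) * X ^ (6 * j)

theorem coeff_GP (g i : ℕ) : (GP g).coeff i = if 6 ∣ i ∧ i ≤ g then ee (g / 3) (i / 6) else 0 := by
  unfold GP
  rw [finsetSum_coeff]
  simp only [coeff_C_mul, coeff_X_pow]
  split_ifs with h
  · obtain ⟨⟨j, rfl⟩, h2⟩ := h
    rw [Finset.sum_eq_single j]
    · rw [if_pos rfl, mul_one, Nat.mul_div_cancel_left _ (by norm_num)]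
    · intro b _ hb
      rw [if_neg (by omega), mul_zero]
    · intro h3
      exfalso
      apply h3
      rw [Finset.mem_range]
      omega
  · refine Finset.sum_eq_zero fun j hj => ?_
    have := Finset.mem_range.1 hj
    rw [if_neg, mul_zero]
    rintro rfl
    exact h ⟨⟨j, rfl⟩, by omega⟩

theorem coeff_GP_abs (g i : ℕ) : |(GP g).coeff i| ≤ 2 := by
  rw [coeff_GP]
  split_ifs
  · exact ee_abs _ _
  · norm_num

/-- modulo 3, up to degree `g` -/
theorem coeff_GP_mod (g i : ℕ) (hi : i ≤ g) :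
    (((GP g).coeff i : ℤ) : ZMod 3) = ((1 - X ^ 6 : (ZMod 3)[X]) ^ (g / 3)).coeff i := by
  have h1 : (1 - X ^ 6 : (ZMod 3)[X]) ^ (g / 3) = expand (ZMod 3) 6 ((1 - X) ^ (g / 3)) := by
    simp
  rw [h1, coeff_expand (by norm_num), coeff_GP]
  by_cases h : 6 ∣ i
  · rw [if_pos ⟨h, hi⟩, if_pos h, ee_cast]
  · rw [if_neg (fun h2 => h h2.1), if_neg h]
    simp

theorem cube : (1 - X ^ 2 : (ZMod 3)[X]) ^ 3 = 1 - X ^ 6 := by
  have : Fact (Nat.Prime 3) := ⟨by norm_num⟩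
  rw [sub_pow_char]
  ring

/-- the coefficients of `L G` -/
noncomputable def bb (g : ℕ) (L : ℤ[X]) (i : ℕ) : ℤ := (L * GP g).coeff i

theorem bb_mod {g f : ℕ} {L : ℤ[X]} (hL : LGood g f L) (i : ℕ) (hi : i ≤ g) :
    ((bb g L i : ℤ) : ZMod 3) = ((1 - X ^ 2 : (ZMod 3)[X]) ^ g).coeff i := by
  have h1 : (1 - X ^ 2 : (ZMod 3)[X]) ^ g =
      L.map (Int.castRingHom (ZMod 3)) * (1 - X ^ 6) ^ (g / 3) := by
    rw [hL.mod3, ← cube, ← pow_mul, ← pow_add]
    congr 1
    omega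
  rw [h1, bb, coeff_mul, coeff_mul]
  push_cast
  refine Finset.sum_congr rfl fun x hx => ?_
  have hx' := Finset.HasAntidiagonal.mem_antidiagonal.1 hx
  rw [coeff_map, eq_intCast, coeff_GP_mod g x.2 (by omega)]

theorem bb_par {g : ℕ} {L : ℤ[X]} (i : ℕ) : (bb g L i - L.coeff i) % 2 = 0 := by
  have h1 : ∃ G1 : ℤ[X], GP g = 1 + C 2 * G1 := by
    have h2 : (C 2 : ℤ[X]) ∣ GP g - 1 := by
      rw [C_dvd_iff_dvd_coeff]
      intro j
      rw [coeff_sub, coeff_GP, coeff_one]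
      by_cases hj : j = 0
      · subst hj
        simp [ee]
      · rw [if_neg hj, sub_zero]
        split_ifs with h
        · unfold ee
          rw [if_neg (by omega)]
          exact ⟨_, lift2_even _⟩
        · exact dvd_zero _
    obtain ⟨G1, hG1⟩ := h2
    exact ⟨G1, by rw [← hG1]; ring⟩
  obtain ⟨G1, hG1⟩ := h1
  have h3 : bb g L i - L.coeff i = 2 * (L * G1).coeff i := by
    rw [bb, hG1]
    have : L * (1 + C 2 * G1) = L + C 2 * (L * G1) := by ring
    rw [this, coeff_add, coeff_C_mul]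
    ring
  rw [h3]
  omega

theorem bb_abs {g f : ℕ} {L : ℤ[X]} (hL : LGood g f L) (i : ℕ) : |bb g L i| ≤ 96 := by
  have h1 : |bb g L i| ≤ ∑ x ∈ Finset.HasAntidiagonal.antidiagonal i, |L.coeff x.1| * 2 := by
    rw [bb, coeff_mul]
    refine (Finset.abs_sum_le_sum_abs _ _).trans (Finset.sum_le_sum fun x _ => ?_)
    rw [abs_mul]
    exact mul_le_mul_of_nonneg_left (coeff_GP_abs g x.2) (abs_nonneg _)
  have h2 : ∑ x ∈ Finset.HasAntidiagonal.antidiagonal i, |L.coeff x.1| * 2 =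
      ∑ k ∈ Finset.range (i + 1), |L.coeff k| * 2 :=
    Finset.Nat.sum_antidiagonal_eq_sum_range_succ_mk (fun x : ℕ × ℕ => |L.coeff x.1| * 2) i
  have h3 : ∑ k ∈ Finset.range (i + 1), |L.coeff k| ≤ ∑ k ∈ L.support, |L.coeff k| := by
    have h4 : ∑ k ∈ Finset.range (i + 1), |L.coeff k| =
        ∑ k ∈ (Finset.range (i + 1)).filter (fun k => k ∈ L.support), |L.coeff k| := by
      symm
      refine Finset.sum_subset (Finset.filter_subset _ _) fun k _ hk => ?_
      rw [abs_eq_zero]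
      by_contra hne
      exact hk (Finset.mem_filter.2 ⟨by assumption, mem_support_iff.2 hne⟩)
    rw [h4]
    exact Finset.sum_le_sum_of_subset_of_nonneg (fun k hk => (Finset.mem_filter.1 hk).2)
      (fun k _ _ => abs_nonneg _)
  rw [h2, ← Finset.sum_mul] at h1
  have h5 := hL.sum
  linarith

/-- the correction at `g` -/
theorem exists_t (S b : ℤ) (hS : (3 : ℤ) ∣ S) :
    ∃ t : ℤ, t % 6 = 0 ∧ |t| ≤ 18 ∧ (S + t) % 9 = 6 ∧ b + t ≠ 0 := by
  have h1 : S % 9 = 0 ∨ S % 9 = 3 ∨ S % 9 = 6 := by omega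
  rcases h1 with h | h | h
  · by_cases hb : b = -6
    · exact ⟨-12, by norm_num, by norm_num, by omega, by omega⟩
    · exact ⟨6, by norm_num, by norm_num, by omega, by omega⟩
  · by_cases hb : b = -12
    · exact ⟨-6, by norm_num, by norm_num, by omega, by omega⟩
    · exact ⟨12, by norm_num, by norm_num, by omega, by omega⟩
  · by_cases hb : b = 0
    · exact ⟨18, by norm_num, by norm_num, by omega, by omega⟩
    · exact ⟨0, by norm_num, by norm_num, by omega, by omega⟩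

/-- the coefficients of `P` -/
noncomputable def aa (g : ℕ) (L : ℤ[X]) (s t : ℤ) (i : ℕ) : ℤ :=
  bb g L i + (if i + 1 = g then s else 0) + (if i = g then t else 0)

theorem aa_small {g : ℕ} {L : ℤ[X]} {s t : ℤ} {i : ℕ} (hi : i + 1 < g) : aa g L s t i = bb g L i := by
  rw [aa, if_neg (by omega), if_neg (by omega)]
  ring

theorem aa_mod {g f : ℕ} {L : ℤ[X]} (hL : LGood g f L) {s t : ℤ} (hs : s % 6 = 0) (ht : t % 6 = 0)
    (i : ℕ) (hi : i ≤ g) :
    ((aa g L s t i : ℤ) : ZMod 3) = ((1 - X ^ 2 : (ZMod 3)[X]) ^ g).coeff i := by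
  rw [← bb_mod hL i hi, aa]
  have hs' : ((s : ℤ) : ZMod 3) = 0 := (ZMod.intCast_zmod_eq_zero_iff_dvd s 3).2 (by omega)
  have ht' : ((t : ℤ) : ZMod 3) = 0 := (ZMod.intCast_zmod_eq_zero_iff_dvd t 3).2 (by omega)
  split_ifs <;> simp [hs', ht']

theorem aa_par {g : ℕ} {L : ℤ[X]} {s t : ℤ} (hs : s % 6 = 0) (ht : t % 6 = 0) (i : ℕ) :
    (aa g L s t i - L.coeff i) % 2 = 0 := by
  have := bb_par (g := g) (L := L) i
  rw [aa]
  split_ifs <;> omega

/-- `exp (-i t) / √2` -/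
noncomputable def ww (t : ℝ) : ℂ := (rho : ℂ) * RootAux.U (-t)

theorem norm_ww (t : ℝ) : ‖ww t‖ = rho := by
  rw [ww, norm_mul, RootAux.norm_U, mul_one, norm_real, Real.norm_of_nonneg rho_pos.le]

theorem ww_cont : Continuous ww := by
  unfold ww RootAux.U
  fun_prop

theorem ww_zero : ww 0 = ((rho : ℝ) : ℂ) := by
  simp [ww, RootAux.U]

theorem ww_pi : ww Real.pi = ((-rho : ℝ) : ℂ) := by
  rw [ww, RootAux.U_neg]
  have : RootAux.U Real.pi = -1 := by
    rw [RootAux.U, exp_pi_mul_I]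
  rw [this]
  push_cast
  norm_num

theorem hh_eq (g : ℕ) (a : ℕ → ℤ) (t : ℝ) :
    RootAux.hh (fun i => (a i : ℝ) * (Real.sqrt ((2 : ℕ) : ℝ))⁻¹ ^ i) g t =
      ∑ i ∈ Finset.range g, (a i : ℂ) * ww t ^ i + (a g : ℂ) / 2 * ww t ^ g := by
  have h2 : (Real.sqrt ((2 : ℕ) : ℝ))⁻¹ = rho := by
    rw [rho]
    norm_num
  have h3 : ∀ i : ℕ, ww t ^ i = (rho : ℂ) ^ i * RootAux.U (-(i * t)) := by
    intro i
    rw [ww, mul_pow, RootAux.U_pow]
    congr 2
    ring
  rw [RootAux.hh, h2, h3 g]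
  congr 1
  · refine Finset.sum_congr rfl fun i _ => ?_
    rw [h3 i]
    push_cast
    ring
  · push_cast
    ring

theorem geom_le (g M : ℕ) : ∑ i ∈ Finset.Ico (g + 1) M, rho ^ i ≤ 2.42 * rho ^ g := by
  have h1 := geom_sum_Ico_le_of_lt_one (m := g + 1) (n := M) rho_pos.le (by
    have := rho_lt
    linarith : rho < 1)
  refine h1.trans ?_
  have h2 := rho_lt
  have h3 := lt_rho
  have h4 : 0 < 1 - rho := by linarith
  rw [div_le_iff₀ h4, pow_succ]
  have h5 : 0 < rho ^ g := pow_pos rho_pos g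
  have h6 : rho ≤ 2.42 * (1 - rho) := by linarith
  nlinarith

theorem GP_near (g : ℕ) {w : ℂ} (hw : ‖w‖ = rho) : ‖aeval w (GP g) - 1‖ ≤ 2 / 7 := by
  have h1 : aeval w (GP g) - 1 =
      ∑ j ∈ Finset.range (g / 6), (ee (g / 3) (j + 1) : ℂ) * w ^ (6 * (j + 1)) := by
    rw [GP, Finset.sum_range_succ', map_add, map_sum]
    have h2 : ee (g / 3) 0 = 1 := by simp [ee]
    rw [h2]
    simp only [map_mul, map_pow, aeval_C, aeval_X]
    simp
  rw [h1]
  refine (norm_sum_le _ _).trans ?_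
  have h8 : rho ^ 6 = 1 / 8 := by
    have := rho_sq
    have e : rho ^ 6 = (rho ^ 2) ^ 3 := by ring
    rw [e, this]
    norm_num
  have h3 : ∀ j ∈ Finset.range (g / 6), ‖(ee (g / 3) (j + 1) : ℂ) * w ^ (6 * (j + 1))‖ ≤
      2 * (1 / 8 : ℝ) * (1 / 8 : ℝ) ^ j := by
    intro j _
    rw [norm_mul, norm_pow, hw, pow_mul, h8, pow_succ]
    have h4 : ‖(ee (g / 3) (j + 1) : ℂ)‖ ≤ 2 := by
      rw [norm_intCast]
      exact_mod_cast ee_abs (g / 3) (j + 1)
    have h5 : (0 : ℝ) < (1 / 8) ^ j := by positivity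
    nlinarith
  refine (Finset.sum_le_sum h3).trans ?_
  rw [← Finset.mul_sum]
  have h6 : ∑ j ∈ Finset.range (g / 6), (1 / 8 : ℝ) ^ j ≤ 8 / 7 := by
    have h7 := geom_sum_Ico_le_of_lt_one (m := 0) (n := g / 6) (x := (1 / 8 : ℝ)) (by norm_num)
      (by norm_num)
    rw [← Finset.range_eq_Ico] at h7
    refine h7.trans ?_
    norm_num
  linarith

theorem rho_pow_le {g : ℕ} (hg : 26 ≤ g) : rho ^ g ≤ 1 / 8192 := by
  have h1 : rho ^ 26 = 1 / 8192 := by
    have e : rho ^ 26 = (rho ^ 2) ^ 13 := by ring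
    rw [e, rho_sq]
    norm_num
  rw [← h1]
  exact pow_le_pow_of_le_one rho_pos.le (by have := rho_lt; linarith) hg

/-- the perturbation -/
theorem delta {g f : ℕ} {L : ℤ[X]} (hL : LGood g f L) (hg : 26 ≤ g) {s t : ℤ} (hs : |s| ≤ 6)
    (ht : |t| ≤ 18) {w : ℂ} (hw : ‖w‖ = rho) :
    ‖(∑ i ∈ Finset.range g, (aa g L s t i : ℂ) * w ^ i + (aa g L s t g : ℂ) / 2 * w ^ g) -
      aeval w L * aeval w (GP g)‖ ≤ 300 / 8192 := by
  set M := g + 1 + (L * GP g).natDegree with hM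
  have h1 : aeval w L * aeval w (GP g) = ∑ i ∈ Finset.range M, (bb g L i : ℂ) * w ^ i := by
    rw [← map_mul, aeval_eq_sum_range' (n := M) (by omega)]
    refine Finset.sum_congr rfl fun i _ => ?_
    rw [zsmul_eq_mul]
    rfl
  have h2 : ∑ i ∈ Finset.range M, (bb g L i : ℂ) * w ^ i =
      ∑ i ∈ Finset.range g, (bb g L i : ℂ) * w ^ i + (bb g L g : ℂ) * w ^ g +
        ∑ i ∈ Finset.Ico (g + 1) M, (bb g L i : ℂ) * w ^ i := by
    rw [← Finset.sum_range_succ, Finset.range_eq_Ico, Finset.range_eq_Ico,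
      Finset.sum_Ico_consecutive _ (by omega) (by omega)]
  have h3 : ∑ i ∈ Finset.range g, (aa g L s t i : ℂ) * w ^ i =
      ∑ i ∈ Finset.range g, (bb g L i : ℂ) * w ^ i + (s : ℂ) * w ^ (g - 1) := by
    have h4 : ∀ i ∈ Finset.range g, (aa g L s t i : ℂ) * w ^ i =
        (bb g L i : ℂ) * w ^ i + (if g - 1 = i then (s : ℂ) * w ^ i else 0) := by
      intro i hi
      have hi' := Finset.mem_range.1 hi
      rw [aa, if_neg (by omega : ¬ i = g)]
      by_cases h : i + 1 = g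
      · rw [if_pos h, if_pos (by omega)]
        push_cast
        ring
      · rw [if_neg h, if_neg (by omega)]
        push_cast
        ring
    rw [Finset.sum_congr rfl h4, Finset.sum_add_distrib, Finset.sum_ite_eq,
      if_pos (Finset.mem_range.2 (by omega))]
  have h5 : (aa g L s t g : ℂ) = (bb g L g : ℂ) + t := by
    rw [aa, if_neg (by omega), if_pos rfl]
    push_cast
    ring
  have h6 : (∑ i ∈ Finset.range g, (aa g L s t i : ℂ) * w ^ i + (aa g L s t g : ℂ) / 2 * w ^ g) -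
      aeval w L * aeval w (GP g) = (s : ℂ) * w ^ (g - 1) + (t : ℂ) / 2 * w ^ g -
        (bb g L g : ℂ) / 2 * w ^ g - ∑ i ∈ Finset.Ico (g + 1) M, (bb g L i : ℂ) * w ^ i := by
    rw [h1, h2, h3, h5]
    ring
  rw [h6]
  have hpos : 0 < rho ^ g := pow_pos rho_pos g
  have hpos' : 0 < rho ^ (g - 1) := pow_pos rho_pos _
  have n1 : ‖(s : ℂ) * w ^ (g - 1)‖ ≤ 8.5 * rho ^ g := by
    rw [norm_mul, norm_pow, hw, norm_intCast]
    have e : rho ^ g = rho ^ (g - 1) * rho := by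
      rw [← pow_succ]
      congr 1
      omega
    rw [e]
    have h7 : |(s : ℝ)| ≤ 6 := by exact_mod_cast hs
    have h8 := lt_rho
    nlinarith
  have n2 : ‖(t : ℂ) / 2 * w ^ g‖ ≤ 9 * rho ^ g := by
    rw [norm_mul, norm_pow, hw, norm_div, norm_intCast]
    have h7 : |(t : ℝ)| ≤ 18 := by exact_mod_cast ht
    have h9 : ‖(2 : ℂ)‖ = 2 := by simp
    rw [h9]
    nlinarith
  have n3 : ‖(bb g L g : ℂ) / 2 * w ^ g‖ ≤ 48 * rho ^ g := by
    rw [norm_mul, norm_pow, hw, norm_div, norm_intCast]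
    have h7 : |((bb g L g : ℤ) : ℝ)| ≤ 96 := by exact_mod_cast bb_abs hL g
    have h9 : ‖(2 : ℂ)‖ = 2 := by simp
    rw [h9]
    nlinarith
  have n4 : ‖∑ i ∈ Finset.Ico (g + 1) M, (bb g L i : ℂ) * w ^ i‖ ≤ 96 * (2.42 * rho ^ g) := by
    refine (norm_sum_le _ _).trans ?_
    have h7 : ∀ i ∈ Finset.Ico (g + 1) M, ‖(bb g L i : ℂ) * w ^ i‖ ≤ 96 * rho ^ i := by
      intro i _
      rw [norm_mul, norm_pow, hw, norm_intCast]
      have h8 : |((bb g L i : ℤ) : ℝ)| ≤ 96 := by exact_mod_cast bb_abs hL i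
      have h9 : 0 < rho ^ i := pow_pos rho_pos i
      nlinarith
    refine (Finset.sum_le_sum h7).trans ?_
    rw [← Finset.mul_sum]
    have := geom_le g M
    linarith
  have n5 := rho_pow_le hg
  calc _ ≤ ‖(s : ℂ) * w ^ (g - 1) + (t : ℂ) / 2 * w ^ g - (bb g L g : ℂ) / 2 * w ^ g‖ +
        ‖∑ i ∈ Finset.Ico (g + 1) M, (bb g L i : ℂ) * w ^ i‖ := norm_sub_le _ _
    _ ≤ (‖(s : ℂ) * w ^ (g - 1)‖ + ‖(t : ℂ) / 2 * w ^ g‖ + ‖(bb g L g : ℂ) / 2 * w ^ g‖) +
        ‖∑ i ∈ Finset.Ico (g + 1) M, (bb g L i : ℂ) * w ^ i‖ := by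
          gcongr
          refine (norm_sub_le _ _).trans ?_
          gcongr
          exact norm_add_le _ _
    _ ≤ 300 / 8192 := by linarith

theorem aeval_real_im (L : ℤ[X]) (r : ℝ) : (aeval ((r : ℝ) : ℂ) L).im = 0 := by
  have h : aeval ((algebraMap ℝ ℂ) r) L = algebraMap ℝ ℂ (aeval r L) :=
    aeval_algebraMap_apply ℂ r L
  have h2 : aeval ((r : ℝ) : ℂ) L = ((aeval r L : ℝ) : ℂ) := h
  rw [h2, ofReal_im]

theorem div_im_zero {x y : ℂ} (hx : x.im = 0) (hy : y.im = 0) : (x / y).im = 0 := by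
  rw [div_im, hx, hy]
  simp

theorem large_root {g f : ℕ} {L : ℤ[X]} (hL : LGood g f L) (hg : 26 ≤ g) {s t : ℤ} (hs : |s| ≤ 6)
    (ht : |t| ≤ 18) :
    ∀ x : ℂ, aeval x (PP 2 g (aa g L s t)) = 0 → ‖x‖ = Real.sqrt 2 := by
  set A : ℝ → ℂ := fun θ => aeval (ww θ) L with hA
  set H : ℝ → ℂ := RootAux.hh (fun i => (aa g L s t i : ℝ) * (Real.sqrt ((2 : ℕ) : ℝ))⁻¹ ^ i) g
    with hH
  have hA1 : ∀ θ, A θ ∈ slitPlane := fun θ => (hL.slit _ (norm_ww θ)).1
  have hA0 : ∀ θ, A θ ≠ 0 := fun θ => slitPlane_ne_zero (hA1 θ)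
  have hAc : Continuous A := by
    rw [hA]
    exact (Polynomial.continuous_aeval L).comp ww_cont
  have hB1 : ∀ θ, H θ / A θ ∈ slitPlane := by
    intro θ
    rw [mem_slitPlane_iff]
    left
    have h1 : H θ / A θ = aeval (ww θ) (GP g) + (H θ - A θ * aeval (ww θ) (GP g)) / A θ := by
      have := hA0 θ
      field_simp
      ring
    have h2 := delta hL hg hs ht (norm_ww θ)
    rw [← hh_eq] at h2
    have h3 := (hL.slit _ (norm_ww θ)).2
    have h4 := GP_near g (norm_ww θ)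
    have h5 : ‖(H θ - A θ * aeval (ww θ) (GP g)) / A θ‖ ≤ 300 / 512 := by
      rw [norm_div, div_le_iff₀ (norm_pos_iff.2 (hA0 θ))]
      refine h2.trans ?_
      have h6 : (1 : ℝ) / 16 ≤ ‖A θ‖ := h3
      linarith
    have h7 : (aeval (ww θ) (GP g)).re = 1 + (aeval (ww θ) (GP g) - 1).re := by
      rw [sub_re, one_re]
      ring
    have h8 := abs_re_le_norm (aeval (ww θ) (GP g) - 1)
    have h9 := abs_re_le_norm ((H θ - A θ * aeval (ww θ) (GP g)) / A θ)
    rw [h1, add_re, h7]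
    have h10 := neg_abs_le (aeval (ww θ) (GP g) - 1).re
    have h11 := neg_abs_le ((H θ - A θ * aeval (ww θ) (GP g)) / A θ).re
    linarith
  have key := root2 2 g (aa g L s t) (by norm_num) (by omega) A (fun θ => H θ / A θ) hAc
    ((RootAux.hh_cont _ _).div hAc hA0) hA1 hB1 ?_ ?_ ?_ ?_ ?_
  · intro x hx
    have := key x hx
    rw [this]
    norm_num
  · simp only [hA]
    rw [ww_zero]
    exact aeval_real_im _ _
  · apply div_im_zero
    · rw [hH, RootAux.hh_im]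
      simp
    · simp only [hA]
      rw [ww_zero]
      exact aeval_real_im _ _
  · simp only [hA]
    rw [ww_pi]
    exact aeval_real_im _ _
  · apply div_im_zero
    · rw [hH, RootAux.hh_im]
      simp [Real.sin_nat_mul_pi]
    · simp only [hA]
      rw [ww_pi]
      exact aeval_real_im _ _
  · intro θ
    exact (mul_div_cancel₀ _ (hA0 θ)).symm

theorem large {g f : ℕ} {L : ℤ[X]} (hL : LGood g f L) (hg : 26 ≤ g) (hf : f ≤ g) : Good 2 g f := by
  obtain ⟨s, hs6, hs, hs0⟩ : ∃ s : ℤ, s % 6 = 0 ∧ |s| ≤ 6 ∧ bb g L (g - 1) + s ≠ 0 := by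
    by_cases hb : bb g L (g - 1) = 0
    · exact ⟨6, by norm_num, by norm_num, by omega⟩
    · exact ⟨0, by norm_num, by norm_num, by omega⟩
  -- the value at 1 without the correction at `g`
  have hS : (3 : ℤ) ∣ (PP 2 g (aa g L s 0)).eval 1 := by
    have h1 := map_PP3 (g := g) (by omega) (fun i hi => aa_mod hL hs6 (by norm_num : (0 : ℤ) % 6 = 0)
      i hi)
    rw [three_iff]
    have h2 : (((PP 2 g (aa g L s 0)).eval 1 : ℤ) : ZMod 3) =
        ((PP 2 g (aa g L s 0)).map (Int.castRingHom (ZMod 3))).eval 1 := by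
      have := eval_intCast_map (Int.castRingHom (ZMod 3)) (PP 2 g (aa g L s 0)) 1
      simpa using this.symm
    rw [h2, h1]
    simp only [eval_pow, eval_sub, eval_X, eval_one]
    rw [one_pow, sub_self, zero_pow (by omega)]
  obtain ⟨t, ht6, ht, ht9, ht0⟩ := exists_t _ (bb g L g) hS
  have hP : (PP 2 g (aa g L s t)).eval 1 = (PP 2 g (aa g L s 0)).eval 1 + t := by
    unfold PP
    rw [eval_add, eval_add, eval_finsetSum, eval_finsetSum]
    have h1 : ∀ i ∈ Finset.range g, eval 1 (C (aa g L s t i) *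
        (X ^ (2 * g - i) + C (((2 : ℕ) : ℤ) ^ (g - i)) * X ^ i)) = eval 1 (C (aa g L s 0 i) *
        (X ^ (2 * g - i) + C (((2 : ℕ) : ℤ) ^ (g - i)) * X ^ i)) := by
      intro i hi
      have hi' := Finset.mem_range.1 hi
      have : aa g L s t i = aa g L s 0 i := by
        rw [aa, aa, if_neg (by omega : ¬ i = g)]
        simp
      rw [this]
    rw [Finset.sum_congr rfl h1]
    have h2 : aa g L s t g = aa g L s 0 g + t := by
      rw [aa, aa, if_neg (by omega), if_pos rfl, if_pos rfl]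
      ring
    rw [h2]
    simp only [eval_mul, eval_C, eval_pow, eval_X]
    ring
  have hgm : aa g L s t (g - 1) ≠ 0 := by
    rw [aa, if_pos (by omega), if_neg (by omega), add_zero]
    exact hs0
  have hgg : aa g L s t g ≠ 0 := by
    rw [aa, if_neg (by omega), if_pos rfl, add_zero]
    exact ht0
  refine good_two (a := aa g L s t) (by omega) hf ?_ (fun i hi => aa_mod hL hs6 ht6 i hi) ?_ ?_ ?_ ?_
    (large_root hL hg hs ht)
  · rw [aa_small (by omega), bb, mul_coeff_zero, hL.zero, coeff_GP, if_pos ⟨by norm_num, by omega⟩]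
    simp [ee]
  · rw [hP]
    exact ht9
  · intro i hi _
    have h1 := aa_par (g := g) (L := L) hs6 ht6 i
    have h2 := hL.even i hi
    omega
  · intro h
    have h1 := aa_par (g := g) (L := L) hs6 ht6 f
    have h2 := hL.odd
    omega
  · intro d hd
    by_cases hdg : d ∣ g
    · refine ⟨g - 1, by omega, hgm, ?_⟩
      intro h
      have h1 := (Nat.dvd_sub hdg h)
      have h2 : g - (g - 1) = 1 := by omega
      rw [h2] at h1
      have := Nat.le_of_dvd (by norm_num) h1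
      omega
    · exact ⟨g, le_rfl, hgg, hdg⟩

end Pool.Agent.U774.WT
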