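import Pool.Agent.R80.WF.XG
import Pool.Agent.U774.WT.Asm3

/-!
# Location of the roots through the real Weil polynomial, `p = 2` (MP_e32a7e_nt)
-/

set_option autoImplicit false

namespace Pool.Agent.U774.WT

open Polynomial Pool.Agent.R80.WF

/-- Dickson polynomials: `DD n (x + x') = x ^ n + x' ^ n` if `x x' = 2` -/
noncomputable def DD : ℕ → ℤ[X]
  | 0 => C 2
  | 1 => X
  | (n + 2) => X * DD (n + 1) - C 2 * DD n

theorem DD_rel {K : Type*} [Field K] {x x' : K} (h : x * x' = 2) (n : ℕ) :
    aeval (x + x') (DD n) = x ^ n + x' ^ n := by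
  have key : ∀ n : ℕ, aeval (x + x') (DD n) = x ^ n + x' ^ n ∧
      aeval (x + x') (DD (n + 1)) = x ^ (n + 1) + x' ^ (n + 1) := by
    intro n
    induction n with
    | zero =>
      constructor
      · simp only [DD, aeval_C, pow_zero]
        simp
        norm_num
      · simp [DD]
    | succ n ih =>
      refine ⟨ih.2, ?_⟩
      simp only [DD, map_sub, map_mul, aeval_X, aeval_C, ih.1, ih.2]
      simp only [algebraMap_int_eq, eq_intCast, Int.cast_ofNat]
      linear_combination (x ^ n + x' ^ n) * h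
  exact (key n).1

theorem DD_monic (n : ℕ) : (DD (n + 1)).Monic ∧ (DD (n + 1)).natDegree = n + 1 := by
  have key : ∀ n : ℕ, ((DD (n + 1)).Monic ∧ (DD (n + 1)).natDegree = n + 1) ∧
      ((DD (n + 2)).Monic ∧ (DD (n + 2)).natDegree = n + 2) := by
    intro n
    induction n with
    | zero =>
      refine ⟨⟨by simp only [DD]; exact monic_X, by simp only [DD]; simp⟩, ?_⟩
      have e : DD 2 = X ^ 2 - C 4 := by
        simp only [DD]
        have : (C 2 : ℤ[X]) * C 2 = C 4 := by rw [← C_mul]; norm_num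
        rw [this]; ring
      rw [zero_add, e]
      refine ⟨monic_X_pow_sub_C _ (by norm_num), natDegree_X_pow_sub_C⟩
    | succ n ih =>
      refine ⟨ih.2, ?_⟩
      obtain ⟨⟨h1, h2⟩, h3, h4⟩ := ih
      have e : DD (n + 1 + 2) = X * DD (n + 2) + -(C 2 * DD (n + 1)) := by
        simp only [DD]; ring
      have hm : (X * DD (n + 2)).Monic := monic_X.mul h3
      have hd : (X * DD (n + 2)).natDegree = n + 3 := by
        rw [monic_X.natDegree_mul h3, natDegree_X, h4]; ring
      have hlt : (-(C 2 * DD (n + 1))).natDegree < (X * DD (n + 2)).natDegree := by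
        rw [natDegree_neg, hd]
        have := natDegree_C_mul_le (2 : ℤ) (DD (n + 1))
        omega
      rw [e]
      refine ⟨hm.add_of_left (degree_lt_degree hlt), ?_⟩
      rw [natDegree_add_eq_left_of_natDegree_lt hlt, hd]
  exact (key n).1

/-- the real Weil polynomial -/
noncomputable def HH (g : ℕ) (a : ℕ → ℤ) : ℤ[X] :=
  ∑ i ∈ Finset.range g, C (a i) * DD (g - i) + C (a g)

theorem HH_monic {g : ℕ} {a : ℕ → ℤ} (hg : 1 ≤ g) (ha0 : a 0 = 1) :
    (HH g a).Monic ∧ (HH g a).natDegree = g := by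
  obtain ⟨m, rfl⟩ : ∃ m, g = m + 1 := ⟨g - 1, by omega⟩
  obtain ⟨h1, h2⟩ := DD_monic m
  have e : HH (m + 1) a = DD (m + 1) + (∑ i ∈ Finset.range m, C (a (i + 1)) * DD (m + 1 - (i + 1))
      + C (a (m + 1))) := by
    rw [HH, Finset.sum_range_succ', ha0]
    simp only [C_1, one_mul, Nat.sub_zero]
    ring
  have hlt : (∑ i ∈ Finset.range m, C (a (i + 1)) * DD (m + 1 - (i + 1))
      + C (a (m + 1))).natDegree < (DD (m + 1)).natDegree := by
    rw [h2]
    refine Nat.lt_succ_of_le (natDegree_add_le_of_degree_le ?_ ?_)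
    · apply natDegree_sum_le_of_forall_le
      intro i hi
      have hi' := Finset.mem_range.1 hi
      refine (natDegree_C_mul_le _ _).trans ?_
      obtain ⟨k, hk⟩ : ∃ k, m + 1 - (i + 1) = k + 1 := ⟨m - i - 1, by omega⟩
      rw [hk, (DD_monic k).2]
      omega
    · rw [natDegree_C]; omega
  rw [e]
  refine ⟨h1.add_of_left (degree_lt_degree hlt), ?_⟩
  rw [natDegree_add_eq_left_of_natDegree_lt hlt, h2]

theorem HH_rel {g : ℕ} {a : ℕ → ℤ} {x x' : ℂ} (h : x * x' = 2) :
    aeval x (PP 2 g a) = x ^ g * aeval (x + x') (HH g a) := by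
  rw [PP, HH, map_add, map_sum, map_add, map_sum, mul_add, Finset.mul_sum]
  congr 1
  · refine Finset.sum_congr rfl fun i hi => ?_
    have hi' := Finset.mem_range.1 hi
    obtain ⟨k, rfl⟩ : ∃ k, g = i + k := ⟨g - i, by omega⟩
    have e1 : 2 * (i + k) - i = i + k + k := by omega
    have e2 : i + k - i = k := by omega
    rw [e1, e2, map_mul, map_mul, DD_rel h]
    simp only [map_add, map_mul, map_pow, aeval_X, aeval_C]
    simp only [algebraMap_int_eq, eq_intCast]
    push_cast
    rw [← h]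
    ring
  · rw [map_mul, map_pow, aeval_X, aeval_C, aeval_C]
    ring

/-- the roots, from real roots of the real Weil polynomial -/
theorem norm_of_S {g : ℕ} {a : ℕ → ℤ} (hg : 1 ≤ g) (ha0 : a 0 = 1) {S : Finset ℝ}
    (hS : S.card = g) (hr : ∀ s ∈ S, aeval s (HH g a) = 0 ∧ s ^ 2 < 8) :
    ∀ x : ℂ, aeval x (PP 2 g a) = 0 → ‖x‖ = Real.sqrt 2 := by
  intro x hx
  have hx0 : x ≠ 0 := by
    rintro rfl
    have h1 : aeval (0 : ℂ) (PP 2 g a) = ((PP 2 g a).coeff 0 : ℂ) := by
      have := coeff_zero_eq_aeval_zero' (A := ℂ) (PP 2 g a)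
      rw [← this]
      simp
    rw [h1, coeff_PP, if_pos (by omega), ha0] at hx
    simp at hx
  have hxx : x * (2 / x) = 2 := mul_div_cancel₀ _ hx0
  obtain ⟨hm, hd⟩ := HH_monic hg ha0
  have h1 : aeval (x + 2 / x) (HH g a) = 0 := by
    rw [HH_rel hxx] at hx
    rcases mul_eq_zero.1 hx with h | h
    · exact absurd h (pow_ne_zero _ hx0)
    · exact h
  have h2 := xg_norm_of_roots (p := 2) (by norm_num) hm hd S hS (fun s hs => (hr s hs).1)
    (fun s hs => by
      have := (hr s hs).2
      push_cast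
      linarith) x (2 / x) (by push_cast; exact hxx) h1
  exact_mod_cast h2

/-- the roots are not real -/
theorem sq_ne_of_S {g : ℕ} {a : ℕ → ℤ} (hg : 1 ≤ g) (ha0 : a 0 = 1) {S : Finset ℝ}
    (hS : S.card = g) (hr : ∀ s ∈ S, aeval s (HH g a) = 0 ∧ s ^ 2 < 8) :
    ∀ x : ℂ, aeval x (PP 2 g a) = 0 → x ^ 2 ≠ 2 := by
  intro x hx hx2
  have hx0 : x ≠ 0 := by
    rintro rfl
    norm_num at hx2
  have hxx : x * x = 2 := by rw [← sq]; exact hx2
  obtain ⟨hm, hd⟩ := HH_monic hg ha0
  have h1 : aeval (x + x) (HH g a) = 0 := by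
    rw [HH_rel hxx] at hx
    rcases mul_eq_zero.1 hx with h | h
    · exact absurd h (pow_ne_zero _ hx0)
    · exact h
  -- `x + x` is one of the real roots
  set q : ℂ[X] := (HH g a).map (algebraMap ℤ ℂ) with hq
  have hqm : q.Monic := hm.map _
  have hqd : q.natDegree = g := by
    rw [hq, hm.natDegree_map, hd]
  have hmem : ∃ s ∈ S, x + x = (s : ℂ) := by
    by_contra hcon
    push Not at hcon
    have hT : (insert (x + x) (S.image (fun s : ℝ => (s : ℂ)))) ⊆ q.roots.toFinset := by
      intro z hz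
      rw [Multiset.mem_toFinset, mem_roots hqm.ne_zero, IsRoot.def, hq, eval_map_algebraMap]
      rcases Finset.mem_insert.1 hz with h | h
      · rw [h]
        exact h1
      · obtain ⟨s, hs, rfl⟩ := Finset.mem_image.1 h
        have h1 := (hr s hs).1
        have h2 : aeval ((algebraMap ℝ ℂ) s) (HH g a) = algebraMap ℝ ℂ (aeval s (HH g a)) :=
          aeval_algebraMap_apply ℂ s (HH g a)
        rw [h1, map_zero] at h2
        exact h2
    have h1 := Finset.card_le_card hT
    rw [Finset.card_insert_of_notMem, Finset.card_image_of_injective _ Complex.ofReal_injective,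
      hS] at h1
    · have h2 := Multiset.toFinset_card_le q.roots
      have h3 := q.card_roots'
      omega
    · intro h
      obtain ⟨s, hs, hs2⟩ := Finset.mem_image.1 h
      exact hcon s hs hs2.symm
  obtain ⟨s, hs, hs2⟩ := hmem
  have h3 : ((s ^ 2 : ℝ) : ℂ) = ((8 : ℝ) : ℂ) := by
    push_cast
    rw [← hs2]
    linear_combination 4 * hxx
  have h4 : s ^ 2 = 8 := by exact_mod_cast h3
  have h5 := (hr s hs).2
  linarith

end Pool.Agent.U774.WT
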